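import Mathlib

/-!
Homology of convex families of finite sets: a small toolkit (long exact sequences as vanishing
statements, cones, shifts, filtrations, a Mayer-Vietoris cylinder, change of ground set).
-/

set_option autoImplicit false

namespace Pool.Agent.H538Z

open Finset

section bd
variable {ι : Type} [LinearOrder ι] [Fintype ι] {R : Type} [CommRing R]
  {E : Type} [AddCommGroup E] [Module R E]

/-- The sign of inserting `t` into `S`. -/
def sgn (R : Type) [CommRing R] (S : Finset ι) (t : ι) : R := (-1) ^ (S.filter (· < t)).card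

omit [Fintype ι] in
lemma sgn_mul_self (S : Finset ι) (t : ι) : sgn R S t * sgn R S t = 1 := by
  unfold sgn
  rw [← pow_add, ← two_mul, pow_mul]; simp

omit [Fintype ι] in
lemma sgn_insert (S : Finset ι) (u t : ι) (hu : u ∉ S) :
    sgn R (insert u S) t = if u < t then - sgn R S t else sgn R S t := by
  unfold sgn
  rw [Finset.filter_insert]
  split_ifs with h
  · rw [Finset.card_insert_of_notMem (by simp [hu]), pow_succ]; ring
  · rfl

omit [Fintype ι] in
lemma sgn_anti (S : Finset ι) (u t : ι) (hu : u ∉ S) (ht : t ∉ S) (hne : u ≠ t) :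
    sgn R S u * sgn R (insert u S) t = - (sgn R S t * sgn R (insert t S) u) := by
  rw [sgn_insert S u t hu, sgn_insert S t u ht]
  rcases lt_or_gt_of_ne hne with h | h
  · rw [if_pos h, if_neg (not_lt.2 h.le)]; ring
  · rw [if_neg (not_lt.2 h.le), if_pos h]; ring

/-- The Koszul differential for the elements `x`. -/
def bd (x : ι → R) (c : Finset ι → E) (S : Finset ι) : E :=
  ∑ t ∈ univ \ S, (sgn R S t * x t) • c (insert t S)

lemma bd_add (x : ι → R) (c c' : Finset ι → E) (S : Finset ι) :
    bd x (c + c') S = bd x c S + bd x c' S := by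
  simp [bd, Finset.sum_add_distrib]

lemma bd_sub (x : ι → R) (c c' : Finset ι → E) (S : Finset ι) :
    bd x (c - c') S = bd x c S - bd x c' S := by
  simp [bd, Finset.sum_sub_distrib, smul_sub]

lemma bd_congr (x : ι → R) {c c' : Finset ι → E} {S : Finset ι}
    (h : ∀ t, t ∉ S → c (insert t S) = c' (insert t S)) : bd x c S = bd x c' S := by
  unfold bd
  refine Finset.sum_congr rfl fun t ht => ?_
  rw [h t (by simpa using ht)]

lemma bd_eq_zero (x : ι → R) {c : Finset ι → E} {S : Finset ι}
    (h : ∀ t, t ∉ S → c (insert t S) = 0) : bd x c S = 0 := by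
  unfold bd
  refine Finset.sum_eq_zero fun t ht => ?_
  rw [h t (by simpa using ht), smul_zero]

lemma bd_bd (x : ι → R) (c : Finset ι → E) (S : Finset ι) : bd x (bd x c) S = 0 := by
  unfold bd
  simp_rw [Finset.smul_sum]
  rw [Finset.sum_sigma']
  refine Finset.sum_involution (fun p _ => ⟨p.2, p.1⟩) ?_ ?_ ?_ ?_
  · rintro ⟨t, u⟩ h
    simp only [mem_sigma, mem_sdiff, mem_univ, true_and, mem_insert, not_or] at h
    obtain ⟨ht, hut, hu⟩ := h
    simp only [smul_smul]
    rw [Finset.insert_comm t u S, ← add_smul]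
    have := sgn_anti (R := R) S t u ht hu (Ne.symm hut)
    have e : sgn R S t * x t * (sgn R (insert t S) u * x u) +
      sgn R S u * x u * (sgn R (insert u S) t * x t) = 0 := by
      linear_combination (x t * x u) * this
    rw [e, zero_smul]
  · rintro ⟨t, u⟩ h _ h2
    simp only [mem_sigma, mem_sdiff, mem_univ, true_and, mem_insert, not_or] at h
    simp only [Sigma.mk.injEq] at h2
    exact h.2.1 h2.1
  · rintro ⟨t, u⟩ h
    simp only [mem_sigma, mem_sdiff, mem_univ, true_and, mem_insert, not_or] at h ⊢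
    exact ⟨h.2.2, Ne.symm h.2.1, h.1⟩
  · rintro ⟨t, u⟩ h
    rfl

end bd

section fam
variable {ι : Type} [LinearOrder ι] [Fintype ι] (K : Type) [CommRing K]

/-- The simplicial boundary. -/
def D {K : Type} [CommRing K] (c : Finset ι → K) (S : Finset ι) : K := bd (fun _ => (1 : K)) c S

/-- `c` is supported on the members of `F` of size `d`. -/
def Supp {K : Type} [CommRing K] (F : Finset ι → Prop) (d : ℤ) (c : Finset ι → K) : Prop :=
  ∀ S, c S ≠ 0 → F S ∧ (S.card : ℤ) = d

/-- The homology of the family `F` vanishes at the sets of size `d`. -/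
def Van (F : Finset ι → Prop) (d : ℤ) : Prop :=
  ∀ c : Finset ι → K, Supp F d c → (∀ S, F S → D c S = 0) →
    ∃ u : Finset ι → K, Supp F (d + 1) u ∧ ∀ S, F S → D u S = c S

/-- Convex family. -/
def Cvx (F : Finset ι → Prop) : Prop := ∀ A B C : Finset ι, A ⊆ B → B ⊆ C → F A → F C → F B

variable {K}

lemma D_ne {c : Finset ι → K} {S : Finset ι} (h : D c S ≠ 0) :
    ∃ t, t ∉ S ∧ c (insert t S) ≠ 0 := by
  by_contra hc
  push Not at hc
  exact h (bd_eq_zero _ hc)

open Classical in
/-- Restriction of a chain to a family. -/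
noncomputable def res (F : Finset ι → Prop) (c : Finset ι → K) (S : Finset ι) : K :=
  if F S then c S else 0

omit [LinearOrder ι] [Fintype ι] in
lemma res_pos {F : Finset ι → Prop} (c : Finset ι → K) {S : Finset ι} (h : F S) :
    res F c S = c S := by simp [res, h]

omit [LinearOrder ι] [Fintype ι] in
lemma res_neg {F : Finset ι → Prop} (c : Finset ι → K) {S : Finset ι} (h : ¬ F S) :
    res F c S = 0 := by simp [res, h]

lemma supp_res_D {F : Finset ι → Prop} {G : Finset ι → Prop} {d : ℤ} {u : Finset ι → K}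
    (hu : Supp G (d + 1) u) : Supp F d (res F (D u)) := by
  intro S hS
  by_cases h : F S
  · rw [res_pos _ h] at hS
    obtain ⟨t, ht, h2⟩ := D_ne hS
    have := (hu _ h2).2
    rw [Finset.card_insert_of_notMem ht] at this
    push_cast at this
    exact ⟨h, by omega⟩
  · exact absurd (res_neg _ h) hS

lemma D_res_D {F : Finset ι → Prop} (hF : Cvx F) {u : Finset ι → K}
    (hu : ∀ S, u S ≠ 0 → F S) {S : Finset ι} (hS : F S) : D (res F (D u)) S = 0 := by
  have : D (res F (D u)) S = D (D u) S := by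
    apply bd_congr
    intro t _
    by_cases h : F (insert t S)
    · exact res_pos _ h
    · rw [res_neg _ h]
      by_contra hne
      obtain ⟨r, _, h2⟩ := D_ne (Ne.symm hne)
      exact h (hF S _ _ (subset_insert _ _) (subset_insert _ _) hS (hu _ h2))
  rw [this]
  exact bd_bd _ _ _

lemma D_add (c c' : Finset ι → K) (S : Finset ι) : D (c + c') S = D c S + D c' S := bd_add _ _ _ _
lemma D_sub (c c' : Finset ι → K) (S : Finset ι) : D (c - c') S = D c S - D c' S := bd_sub _ _ _ _

/-- `B` is closed upwards inside `F`. -/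
def UpIn (F B : Finset ι → Prop) : Prop := ∀ S T : Finset ι, S ⊆ T → F S → F T → B S → B T

lemma D_res_up {F B : Finset ι → Prop} (hB : UpIn F B) {c : Finset ι → K}
    (hc : ∀ S, c S ≠ 0 → F S) {S : Finset ι} (hS : F S) (hS' : B S) :
    D (res B c) S = D c S := by
  apply bd_congr
  intro t _
  by_cases h : B (insert t S)
  · exact res_pos _ h
  · rw [res_neg _ h]
    by_contra hne
    exact h (hB S _ (subset_insert _ _) hS (hc _ (Ne.symm hne)) hS')

lemma D_down {F B : Finset ι → Prop} (hB : UpIn F B) {c : Finset ι → K}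
    (hc : ∀ S, c S ≠ 0 → F S ∧ ¬ B S) {S : Finset ι} (hS : F S) (hS' : B S) :
    D c S = 0 := by
  apply bd_eq_zero
  intro t _
  by_contra hne
  exact (hc _ hne).2 (hB S _ (subset_insert _ _) hS (hc _ hne).1 hS')

/-- Sub and quotient vanish, so the whole vanishes. -/
lemma van_mid {F B : Finset ι → Prop} (hF : Cvx F) (hB : UpIn F B) {d : ℤ}
    (h1 : Van K (fun S => F S ∧ ¬ B S) d) (h2 : Van K (fun S => F S ∧ B S) d) : Van K F d := by
  intro c hc hcyc
  obtain ⟨u, hu, hu2⟩ := h2 (res B c) (by
    intro S hS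
    by_cases h : B S
    · rw [res_pos _ h] at hS
      exact ⟨⟨(hc S hS).1, h⟩, (hc S hS).2⟩
    · exact absurd (res_neg _ h) hS) (by
    intro S hS
    rw [D_res_up hB (fun S h => (hc S h).1) hS.1 hS.2]
    exact hcyc S hS.1)
  obtain ⟨w, hw, hw2⟩ := h1 (c - res F (D u)) (by
    intro S hS
    have hFS : F S ∧ (S.card : ℤ) = d := by
      by_cases h0 : c S = 0
      · refine supp_res_D (F := F) hu S ?_
        intro h; apply hS; simp [h0, h]
      · exact hc S h0
    refine ⟨⟨hFS.1, fun hb => hS ?_⟩, hFS.2⟩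
    simp only [Pi.sub_apply]
    rw [res_pos _ hFS.1, hu2 S ⟨hFS.1, hb⟩, res_pos _ hb, sub_self]) (by
    intro S hS
    rw [D_sub, hcyc S hS.1, D_res_D hF (fun S h => (hu S h).1.1) hS.1, sub_self])
  refine ⟨u + w, ?_, ?_⟩
  · intro S hS
    by_cases h0 : u S = 0
    · have : w S ≠ 0 := by intro h; apply hS; simp [h0, h]
      exact ⟨(hw S this).1.1, (hw S this).2⟩
    · exact ⟨(hu S h0).1.1, (hu S h0).2⟩
  · intro S hS
    rw [D_add]
    by_cases hb : B S
    · rw [hu2 S ⟨hS, hb⟩, res_pos _ hb, D_down hB (fun S h => (hw S h).1) hS hb, add_zero]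
    · rw [hw2 S ⟨hS, hb⟩]
      simp [res_pos _ hS]

/-- The whole and the quotient vanish, so the sub vanishes. -/
lemma van_sub {F B : Finset ι → Prop} (hF : Cvx F) (hB : UpIn F B) {d : ℤ}
    (h1 : Van K F d) (h2 : Van K (fun S => F S ∧ B S) (d + 1)) :
    Van K (fun S => F S ∧ ¬ B S) d := by
  intro c hc hcyc
  obtain ⟨u, hu, hu2⟩ := h1 c (fun S h => ⟨(hc S h).1.1, (hc S h).2⟩) (by
    intro S hS
    by_cases hb : B S
    · exact D_down hB (fun S h => (hc S h).1) hS hb
    · exact hcyc S ⟨hS, hb⟩)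
  obtain ⟨w, hw, hw2⟩ := h2 (res B u) (by
    intro S hS
    by_cases h : B S
    · rw [res_pos _ h] at hS
      exact ⟨⟨(hu S hS).1, h⟩, (hu S hS).2⟩
    · exact absurd (res_neg _ h) hS) (by
    intro S hS
    rw [D_res_up hB (fun S h => (hu S h).1) hS.1 hS.2, hu2 S hS.1]
    by_contra hne
    exact (hc S hne).1.2 hS.2)
  refine ⟨u - res F (D w), ?_, ?_⟩
  · intro S hS
    have hFS : F S ∧ (S.card : ℤ) = d + 1 := by
      by_cases h0 : u S = 0
      · refine supp_res_D (F := F) hw S ?_
        intro h; apply hS; simp [h0, h]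
      · exact hu S h0
    refine ⟨⟨hFS.1, fun hb => hS ?_⟩, hFS.2⟩
    simp only [Pi.sub_apply]
    rw [res_pos _ hFS.1, hw2 S ⟨hFS.1, hb⟩, res_pos _ hb, sub_self]
  · intro S hS
    rw [D_sub, hu2 S hS.1, D_res_D hF (fun S h => (hw S h).1.1) hS.1, sub_zero]

/-- The whole and the sub vanish, so the quotient vanishes. -/
lemma van_quot {F B : Finset ι → Prop} (hF : Cvx F) (hB : UpIn F B) {d : ℤ}
    (h1 : Van K F (d + 1)) (h2 : Van K (fun S => F S ∧ ¬ B S) d) :
    Van K (fun S => F S ∧ B S) (d + 1) := by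
  intro c hc hcyc
  obtain ⟨w, hw, hw2⟩ := h2 (res F (D c)) (by
    intro S hS
    have := supp_res_D (F := F) hc S hS
    refine ⟨⟨this.1, fun hb => hS ?_⟩, this.2⟩
    rw [res_pos _ this.1, hcyc S ⟨this.1, hb⟩]) (by
    intro S hS
    exact D_res_D hF (fun S h => (hc S h).1.1) hS.1)
  obtain ⟨u, hu, hu2⟩ := h1 (c - w) (by
    intro S hS
    by_cases h0 : c S = 0
    · have : w S ≠ 0 := by intro h; apply hS; simp [h0, h]
      exact ⟨(hw S this).1.1, (hw S this).2⟩
    · exact ⟨(hc S h0).1.1, (hc S h0).2⟩) (by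
    intro S hS
    rw [D_sub]
    by_cases hb : B S
    · rw [hcyc S ⟨hS, hb⟩, D_down hB (fun S h => (hw S h).1) hS hb, sub_self]
    · rw [hw2 S ⟨hS, hb⟩, res_pos _ hS, sub_self])
  refine ⟨res B u, ?_, ?_⟩
  · intro S hS
    by_cases h : B S
    · rw [res_pos _ h] at hS
      exact ⟨⟨(hu S hS).1, h⟩, (hu S hS).2⟩
    · exact absurd (res_neg _ h) hS
  · intro S hS
    rw [D_res_up hB (fun S h => (hu S h).1) hS.1 hS.2, hu2 S hS.1]
    have : w S = 0 := by
      by_contra hne
      exact (hw S hne).1.2 hS.2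
    simp [this]

lemma van_congr {F G : Finset ι → Prop} {d e : ℤ} (h : Van K F d) (hFG : ∀ S, G S ↔ F S)
    (hde : e = d) : Van K G e := by
  have : G = F := funext fun S => propext (hFG S)
  rw [this, hde]; exact h

lemma van_of_no {F : Finset ι → Prop} {d : ℤ} (h : ∀ S, F S → (S.card : ℤ) ≠ d) : Van K F d := by
  intro c hc _
  refine ⟨0, fun S hS => absurd rfl hS, fun S _ => ?_⟩
  have : c S = 0 := by
    by_contra hne
    exact h S (hc S hne).1 (hc S hne).2
  rw [this]
  exact bd_eq_zero _ fun _ _ => rfl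

/-- A family closed under toggling `x` is acyclic. -/
lemma van_cone {F : Finset ι → Prop} (x : ι) (hx : ∀ S, x ∉ S → (F (insert x S) ↔ F S)) (d : ℤ) :
    Van K F d := by
  intro c hc hcyc
  refine ⟨fun S => if x ∈ S then sgn K (S.erase x) x * c (S.erase x) else 0, ?_, ?_⟩
  · intro S hS
    by_cases h : x ∈ S
    · simp only [h, if_true] at hS
      have h2 := hc _ (right_ne_zero_of_mul hS)
      have h3 := (hx (S.erase x) (by simp)).2 h2.1
      rw [Finset.insert_erase h] at h3
      refine ⟨h3, ?_⟩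
      have := Finset.card_erase_add_one h
      omega
    · simp [h] at hS
  · intro S hS
    by_cases h : x ∈ S
    · obtain ⟨T, hT, rfl⟩ : ∃ T, x ∉ T ∧ S = insert x T :=
        ⟨S.erase x, by simp, (Finset.insert_erase h).symm⟩
      have hT' := hcyc T ((hx T hT).1 hS)
      unfold D bd at hT' ⊢
      have hsplit : (univ \ T : Finset ι) = insert x (univ \ insert x T) := by
        ext y; by_cases hy : y = x <;> simp [hy, hT]
      rw [hsplit, Finset.sum_insert (by simp)] at hT'
      have e : ∑ t ∈ univ \ insert x T, (sgn K (insert x T) t * 1) •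
          (if x ∈ insert t (insert x T) then
            sgn K ((insert t (insert x T)).erase x) x * c ((insert t (insert x T)).erase x) else 0)
          = - sgn K T x * ∑ t ∈ univ \ insert x T, (sgn K T t * 1) • c (insert t T) := by
        rw [Finset.mul_sum]
        refine Finset.sum_congr rfl fun t ht => ?_
        simp only [mem_sdiff, mem_univ, true_and, mem_insert, not_or] at ht
        have e1 : (insert t (insert x T)).erase x = insert t T := by
          rw [Finset.insert_comm, Finset.erase_insert (by simp [hT, Ne.symm ht.1])]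
        rw [if_pos (by simp), e1]
        have a := sgn_anti (R := K) T x t hT ht.2 (Ne.symm ht.1)
        have b := sgn_mul_self (R := K) T x
        have b' := sgn_mul_self (R := K) (insert t T) x
        simp only [smul_eq_mul, mul_one]
        linear_combination (sgn K T x * sgn K (insert t T) x * c (insert t T)) * a
          - (sgn K (insert x T) t * sgn K (insert t T) x * c (insert t T)) * b
          - (sgn K T x * sgn K T t * c (insert t T)) * b'
      rw [e]
      have b := sgn_mul_self (R := K) T x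
      simp only [smul_eq_mul, mul_one] at hT' ⊢
      linear_combination (- sgn K T x) * hT' + (c (insert x T)) * b
    · unfold D bd
      rw [Finset.sum_eq_single x]
      · beta_reduce
        rw [if_pos (by simp), Finset.erase_insert h]
        have b := sgn_mul_self (R := K) S x
        simp only [smul_eq_mul, mul_one]
        linear_combination (c S) * b
      · intro t _ htx
        beta_reduce
        rw [if_neg (by simp [h, Ne.symm htx]), smul_zero]
      · intro h2; simp [h] at h2

omit [Fintype ι] in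
lemma cvx_erase {F : Finset ι → Prop} (hF : Cvx F) (x : ι) : Cvx (fun S => F (S.erase x)) :=
  fun _ _ _ h1 h2 hA hC => hF _ _ _ (erase_subset_erase x h1) (erase_subset_erase x h2) hA hC

/-- Adding a new element to all members shifts the degree. -/
lemma van_shift {F : Finset ι → Prop} (hF : Cvx F) (x : ι) (hx : ∀ S, F S → x ∉ S) (d : ℤ) :
    Van K (fun S => F (S.erase x) ∧ x ∈ S) (d + 1) ↔ Van K F d := by
  have hc : ∀ e, Van K (fun S => F (S.erase x)) e := fun e => van_cone x (by
    intro S hS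
    rw [Finset.erase_insert hS, Finset.erase_eq_of_notMem hS]) e
  have hup : UpIn (fun S => F (S.erase x)) (fun S => x ∈ S) := fun S T h _ _ h2 => h h2
  have hiff : ∀ S, F S ↔ F (S.erase x) ∧ ¬ x ∈ S := by
    intro S
    constructor
    · intro h
      rw [Finset.erase_eq_of_notMem (hx S h)]
      exact ⟨h, hx S h⟩
    · rintro ⟨h1, h2⟩
      rwa [Finset.erase_eq_of_notMem h2] at h1
  constructor
  · intro h
    exact van_congr (van_sub (cvx_erase hF x) hup (hc d) h) hiff rfl
  · intro h
    exact van_quot (cvx_erase hF x) hup (hc _) (van_congr h (fun S => (hiff S).symm) rfl)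

/-- Adding a new set to all members shifts the degree. -/
lemma van_shift_set {F : Finset ι → Prop} (hF : Cvx F) (X : Finset ι)
    (hx : ∀ S, F S → Disjoint S X) (d : ℤ) :
    Van K (fun S => F (S \ X) ∧ X ⊆ S) (d + X.card) ↔ Van K F d := by
  induction X using Finset.induction_on with
  | empty => simp
  | insert x X hxX ih =>
    have ih' := ih (fun S h => (hx S h).mono_right (subset_insert _ _))
    rw [← ih']
    have hc : Cvx (fun S => F (S \ X) ∧ X ⊆ S) := fun A B C h1 h2 hA hC =>
      ⟨hF _ _ _ (sdiff_subset_sdiff h1 (Subset.refl _)) (sdiff_subset_sdiff h2 (Subset.refl _))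
        hA.1 hC.1, hA.2.trans h1⟩
    rw [← van_shift hc x (by
      rintro S ⟨h1, _⟩ h3
      have : x ∈ S \ X := by simp [h3, hxX]
      exact Finset.disjoint_left.1 (hx _ h1) this (by simp))]
    have hiff : ∀ S : Finset ι, (F (S \ insert x X) ∧ insert x X ⊆ S) ↔
        ((F (S.erase x \ X) ∧ X ⊆ S.erase x) ∧ x ∈ S) := by
      intro S
      have e : S \ insert x X = S.erase x \ X := by
        ext y; simp only [mem_sdiff, mem_insert, mem_erase]; tauto
      rw [e, Finset.insert_subset_iff, Finset.subset_erase]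
      tauto
    have hd : d + ((insert x X).card : ℤ) = d + X.card + 1 := by
      rw [Finset.card_insert_of_notMem hxX]; push_cast; ring
    exact ⟨fun h => van_congr h (fun S => (hiff S).symm) hd.symm, fun h => van_congr h hiff hd⟩

/-- Filtration by a monotone set-valued function. -/
lemma van_filter {β : Type} [DecidableEq β] [Fintype β] (h : Finset ι → Finset β)
    (hm : ∀ S T, S ⊆ T → h S ⊆ h T) (d : ℤ) (F : Finset ι → Prop) (hF : Cvx F)
    (hv : ∀ Y, Van K (fun S => F S ∧ h S = Y) d) : Van K F d := by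
  have key : ∀ (Ys : Finset (Finset β)) (F : Finset ι → Prop), Cvx F →
      (∀ S, F S → h S ∈ Ys) → (∀ Y, Van K (fun S => F S ∧ h S = Y) d) → Van K F d := by
    intro Ys
    induction Ys using Finset.induction_on_max_value (f := fun Y : Finset β => Y.card) with
    | empty => intro F _ h1 _; exact van_of_no fun S hS => by simpa using h1 S hS
    | insert Y Ys hY hmax ih =>
      intro F hF h1 h2
      have hup : UpIn F (fun S => h S = Y) := by
        intro S T hST _ hT hS
        have h3 := hm S T hST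
        rw [hS] at h3
        rcases Finset.mem_insert.1 (h1 T hT) with h4 | h4
        · exact h4
        · exact (Finset.eq_of_subset_of_card_le h3 (hmax _ h4)).symm
      refine van_mid hF hup (ih _ ?_ ?_ ?_) (h2 Y)
      · intro A B C hAB hBC hA hC
        have hB := hF A B C hAB hBC hA.1 hC.1
        exact ⟨hB, fun hb => hC.2 (hup B C hBC hB hC.1 hb)⟩
      · intro S hS
        rcases Finset.mem_insert.1 (h1 S hS.1) with h4 | h4
        · exact absurd h4 hS.2
        · exact h4
      · intro Z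
        by_cases hZ : Z = Y
        · exact van_of_no fun S hS => absurd (hS.2.trans hZ) hS.1.2
        · refine van_congr (h2 Z) (fun S => ?_) rfl
          constructor
          · rintro ⟨⟨a, _⟩, b⟩; exact ⟨a, b⟩
          · rintro ⟨a, b⟩; exact ⟨⟨a, fun e => hZ (b.symm.trans e)⟩, b⟩
  exact key univ F hF (fun _ _ => mem_univ _) hv

/-- Globally closed upwards. -/
def Up (A : Finset ι → Prop) : Prop := ∀ S T : Finset ι, S ⊆ T → A S → A T

/-- Globally closed downwards. -/
def Dn (A : Finset ι → Prop) : Prop := ∀ S T : Finset ι, S ⊆ T → A T → A S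

/-- Invariant under toggling `x`. -/
def Tog (A : Finset ι → Prop) (x : ι) : Prop := ∀ S, A (insert x S) ↔ A S

omit [Fintype ι] in
lemma Tog.erase {A : Finset ι → Prop} {x : ι} (h : Tog A x) (S : Finset ι) :
    A (S.erase x) ↔ A S := by
  by_cases hx : x ∈ S
  · rw [← h (S.erase x), Finset.insert_erase hx]
  · rw [Finset.erase_eq_of_notMem hx]

/-- The Mayer-Vietoris cylinder. -/
lemma van_cyl {P A B : Finset ι → Prop} (hP : Dn P) (hA : Up A) (hB : Up B) {z y : ι}
    (hzy : z ≠ y) (Pz : Tog P z) (Py : Tog P y) (Az : Tog A z) (Ay : Tog A y) (Bz : Tog B z)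
    (By : Tog B y) {d : ℤ}
    (h : Van K (fun S => P S ∧ ¬ (z ∈ S ∧ y ∈ S) ∧ (z ∉ S → A S) ∧ (y ∉ S → B S)) (d + 1)) :
    Van K (fun S => P S ∧ z ∉ S ∧ y ∉ S ∧ (A S ∨ B S)) d := by
  set T : Finset ι → Prop := fun S => P S ∧ (A S ∨ B S) ∧ (z ∉ S → A S) ∧ (y ∉ S → B S) with hT
  have hTc : Cvx T := by
    rintro S1 S2 S3 h12 h23 ⟨_, a2, a3, a4⟩ ⟨c1, _⟩
    exact ⟨hP _ _ h23 c1, a2.imp (hA _ _ h12) (hB _ _ h12),
      fun hz => hA _ _ h12 (a3 fun h => hz (h12 h)), fun hy => hB _ _ h12 (a4 fun h => hy (h12 h))⟩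
  have hTv : ∀ e, Van K T e := by
    intro e
    refine van_mid hTc (B := A) (fun S S' h _ _ ha => hA _ _ h ha) (van_cone y ?_ e)
      (van_cone z ?_ e)
    · intro S hS
      simp only [hT, Py S, Ay S, By S, mem_insert, hzy, false_or, true_or, not_true]
      tauto
    · intro S hS
      simp only [hT, Pz S, Az S, Bz S, mem_insert, hzy.symm, false_or, true_or, not_true]
      tauto
  have h1 : Van K (fun S => T S ∧ (z ∈ S ∧ y ∈ S)) (d + 1 + 1) := by
    refine van_quot hTc (fun S S' h _ _ ha => ⟨h ha.1, h ha.2⟩) (hTv _) (van_congr h ?_ rfl)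
    intro S
    simp only [hT]
    tauto
  set F0 : Finset ι → Prop := fun S => P S ∧ z ∉ S ∧ y ∉ S ∧ (A S ∨ B S) with hF0
  have hF0c : Cvx F0 := by
    rintro S1 S2 S3 h12 h23 ⟨_, _, _, a4⟩ ⟨c1, c2, c3, _⟩
    exact ⟨hP _ _ h23 c1, fun h => c2 (h23 h), fun h => c3 (h23 h),
      a4.imp (hA _ _ h12) (hB _ _ h12)⟩
  rw [← van_shift hF0c z (fun S h => h.2.1)]
  have hc2 : Cvx (fun S => F0 (S.erase z) ∧ z ∈ S) := fun S1 S2 S3 h12 h23 a c =>
    ⟨cvx_erase hF0c z _ _ _ h12 h23 a.1 c.1, h12 a.2⟩
  rw [← van_shift hc2 y (by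
    rintro S ⟨h1, _⟩ hy
    exact h1.2.2.1 (by simp [hy, hzy.symm]))]
  refine van_congr h1 (fun S => ?_) rfl
  simp only [hF0, hT, Pz.erase, Py.erase, Az.erase, Ay.erase, Bz.erase, By.erase, mem_erase,
    ne_eq, not_true, false_and, not_false_eq_true, true_and, and_false, hzy]
  tauto

end fam

section emb
variable {ι κ : Type} [LinearOrder ι] [Fintype ι] [LinearOrder κ] [Fintype κ]
  {K : Type} [CommRing K]

omit [Fintype ι] [Fintype κ] in
lemma sgn_map (f : ι ↪o κ) (S : Finset ι) (t : ι) :
    sgn K (S.map f.toEmbedding) (f t) = sgn K S t := by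
  unfold sgn
  rw [Finset.filter_map, Finset.card_map]
  congr 2
  ext y; simp

lemma D_map (f : ι ↪o κ) (c : Finset κ → K)
    (hc : ∀ S', c S' ≠ 0 → ∃ S : Finset ι, S' = S.map f.toEmbedding) (S : Finset ι) :
    D c (S.map f.toEmbedding) = D (fun T => c (T.map f.toEmbedding)) S := by
  unfold D bd
  symm
  refine Finset.sum_of_injOn f (f.injective.injOn) ?_ ?_ ?_
  · intro t ht; simpa using ht
  · intro t' ht1 ht2
    by_contra hne
    obtain ⟨T, hT⟩ := hc _ (right_ne_zero_of_smul hne)
    have : t' ∈ T.map f.toEmbedding := by rw [← hT]; simp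
    obtain ⟨t, _, rfl⟩ := Finset.mem_map.1 this
    apply ht2
    refine ⟨t, ?_, rfl⟩
    simpa using ht1
  · intro t _
    beta_reduce
    rw [sgn_map, Finset.map_insert]
    rfl

lemma van_map (f : ι ↪o κ) (F : Finset ι → Prop) (d : ℤ) :
    Van K (fun S' => ∃ S, F S ∧ S' = S.map f.toEmbedding) d ↔ Van K F d := by
  classical
  have ext : ∀ (c : Finset ι → K) (e : ℤ), Supp F e c → ∃ c' : Finset κ → K,
      Supp (fun S' => ∃ S, F S ∧ S' = S.map f.toEmbedding) e c' ∧
      ∀ S, c' (S.map f.toEmbedding) = c S := by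
    intro c e hc
    refine ⟨fun S' => if h : ∃ S : Finset ι, S' = S.map f.toEmbedding then c h.choose else 0,
      ?_, ?_⟩
    · intro S' hS'
      by_cases h : ∃ S : Finset ι, S' = S.map f.toEmbedding
      · simp only [dif_pos h] at hS'
        refine ⟨⟨h.choose, (hc _ hS').1, h.choose_spec⟩, ?_⟩
        rw [h.choose_spec, Finset.card_map]
        exact (hc _ hS').2
      · simp [dif_neg h] at hS'
    · intro S
      have h : ∃ T : Finset ι, S.map f.toEmbedding = T.map f.toEmbedding := ⟨S, rfl⟩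
      simp only [dif_pos h]
      rw [← Finset.map_injective _ h.choose_spec]
  have pull : ∀ (c' : Finset κ → K) (e : ℤ),
      Supp (fun S' => ∃ S, F S ∧ S' = S.map f.toEmbedding) e c' →
      Supp F e (fun T => c' (T.map f.toEmbedding)) := by
    intro c' e hc' S hS
    obtain ⟨⟨T, hT, h2⟩, h3⟩ := hc' _ hS
    rw [Finset.map_injective _ h2]
    rw [h2, Finset.card_map] at h3
    exact ⟨hT, h3⟩
  constructor
  · intro h c hc hcyc
    obtain ⟨c', hc', he⟩ := ext c d hc
    obtain ⟨u', hu', hu2⟩ := h c' hc' (by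
      rintro _ ⟨S, hS, rfl⟩
      rw [D_map f c' (fun S' h => (hc' S' h).1.imp fun _ h => h.2)]
      simp only [he]
      exact hcyc S hS)
    refine ⟨_, pull u' _ hu', fun S hS => ?_⟩
    rw [← D_map f u' (fun S' h => (hu' S' h).1.imp fun _ h => h.2), hu2 _ ⟨S, hS, rfl⟩, he]
  · intro h c' hc' hcyc
    obtain ⟨u, hu, hu2⟩ := h _ (pull c' _ hc') (by
      intro S hS
      rw [← D_map f c' (fun S' h => (hc' S' h).1.imp fun _ h => h.2)]
      exact hcyc _ ⟨S, hS, rfl⟩)
    obtain ⟨u', hu', he⟩ := ext u _ hu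
    refine ⟨u', hu', ?_⟩
    rintro _ ⟨S, hS, rfl⟩
    rw [D_map f u' (fun S' h => (hu' S' h).1.imp fun _ h => h.2)]
    simp only [he]
    exact hu2 S hS

end emb

end Pool.Agent.H538Z
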