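import Mathlib
import Pool.Agent.H538Z.Fam

/-!
Matchable vertex sets, the exchange property, and the connectivity theorem for the families
of vertex sets `Z` with `|A ∪ Z| - ν(A ∪ Z) ≥ s`.
-/

set_option autoImplicit false

namespace Pool.Agent.H538Z

open Finset

section mat
variable {ι : Type} [DecidableEq ι]

/-- Vertex sets with a perfect matching. -/
inductive Mat (r : ι → ι → Prop) : Finset ι → Prop
  | nil : Mat r ∅
  | cons (S : Finset ι) (u v : ι) : Mat r S → r u v → u ≠ v → u ∉ S → v ∉ S →
      Mat r (insert u (insert v S))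

variable {r : ι → ι → Prop}

lemma Mat.inv (hr : ∀ a b, r a b → r b a) {S : Finset ι} (h : Mat r S) :
    ∀ v ∈ S, ∃ u ∈ S, u ≠ v ∧ r v u ∧ Mat r ((S.erase v).erase u) := by
  induction h with
  | nil => simp
  | cons S a b hS hab hne ha hb ih =>
    intro v hv
    by_cases h1 : v = a
    · subst h1
      refine ⟨b, by simp, hne.symm, hab, ?_⟩
      rw [erase_insert (by simp [hne, ha]), erase_insert hb]
      exact hS
    by_cases h2 : v = b
    · subst h2
      refine ⟨a, by simp, hne, hr _ _ hab, ?_⟩
      rw [Finset.insert_comm, erase_insert (by simp [hne.symm, hb]), erase_insert ha]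
      exact hS
    have hvS : v ∈ S := by simpa [h1, h2] using hv
    obtain ⟨u, hu, hne2, hvu, hm⟩ := ih v hvS
    refine ⟨u, by simp [hu], hne2, hvu, ?_⟩
    have e : ((insert a (insert b S)).erase v).erase u =
        insert a (insert b ((S.erase v).erase u)) := by
      ext y
      simp only [mem_erase, mem_insert]
      constructor
      · tauto
      · rintro (rfl | rfl | h)
        · exact ⟨fun e => ha (e ▸ hu), fun e => h1 e.symm, Or.inl rfl⟩
        · exact ⟨fun e => hb (e ▸ hu), fun e => h2 e.symm, Or.inr (Or.inl rfl)⟩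
        · tauto
    rw [e]
    exact Mat.cons _ _ _ hm hab hne (by simp [ha]) (by simp [hb])

lemma Mat.even {S : Finset ι} (h : Mat r S) : Even S.card := by
  induction h with
  | nil => simp
  | cons S a b _ _ hne ha hb ih =>
    rw [card_insert_of_notMem (by simp [hne, ha]), card_insert_of_notMem hb]
    obtain ⟨k, hk⟩ := ih
    exact ⟨k + 1, by omega⟩

lemma Mat.congr {S T : Finset ι} (h : Mat r S) (e : ∀ y, y ∈ T ↔ y ∈ S) : Mat r T := by
  have : T = S := Finset.ext e
  rwa [this]

/-- Simultaneous exchange along an alternating path. -/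
lemma Mat.exchange (hr : ∀ a b, r a b → r b a) : ∀ (n : ℕ) (S S' : Finset ι) (v : ι),
    S.card = n → Mat r S → Mat r S' → v ∈ S → v ∉ S' →
    (∃ y, y ∈ S' ∧ y ∉ S ∧ Mat r (insert y (S.erase v)) ∧ Mat r (insert v (S'.erase y))) ∨
    (∃ y, y ∈ S ∧ y ∉ S' ∧ y ≠ v ∧ Mat r ((S.erase v).erase y) ∧
      Mat r (insert v (insert y S'))) := by
  intro n
  induction n using Nat.strong_induction_on with
  | _ n ih =>
  intro S S' v hn hS hS' hv hv'
  obtain ⟨u, hu, huv, hvu, hm⟩ := hS.inv hr v hv
  by_cases huS' : u ∈ S'
  swap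
  · exact Or.inr ⟨u, hu, huS', huv, hm, Mat.cons _ _ _ hS' hvu huv.symm hv' huS'⟩
  obtain ⟨w, hw, hwu, huw, hm'⟩ := hS'.inv hr u huS'
  have hwv : w ≠ v := fun e => hv' (e ▸ hw)
  by_cases hwS : w ∈ S
  swap
  · refine Or.inl ⟨w, hw, hwS, ?_, ?_⟩
    · refine (Mat.cons _ w u hm (hr _ _ huw) hwu (by simp [hwS]) (by simp)).congr fun y => ?_
      simp only [mem_insert, mem_erase]
      by_cases hy : y = u
      · subst hy; simp [huv, hu]
      · tauto
    · refine (Mat.cons _ v u hm' hvu huv.symm (by simp [hv']) (by simp)).congr fun y => ?_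
      simp only [mem_insert, mem_erase]
      by_cases hy : y = u
      · subst hy; simp [hwu.symm, huS']
      · tauto
  have hlt : ((S.erase v).erase u).card < n := by
    rw [← hn]
    exact lt_of_le_of_lt (card_erase_le) (card_erase_lt_of_mem hv)
  rcases ih _ hlt _ _ w rfl hm hm' (by simp [hwu, hwv, hwS]) (by simp) with
    ⟨y, h1, h2, h3, h4⟩ | ⟨y, h1, h2, hyw, h3, h4⟩
  · simp only [mem_erase, not_and] at h1 h2
    have hyv : y ≠ v := fun e => hv' (e ▸ h1.2.2)
    have hyS : y ∉ S := h2 h1.2.1 hyv
    refine Or.inl ⟨y, h1.2.2, hyS, ?_, ?_⟩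
    · refine (Mat.cons _ u w h3 huw hwu.symm (by simp [h1.2.1.symm]) (by simp [h1.1.symm])).congr
        fun z => ?_
      simp only [mem_insert, mem_erase]
      by_cases hz : z = u
      · subst hz; simp [huv, hu]
      by_cases hz2 : z = w
      · subst hz2; simp [hwv, hwS]
      tauto
    · refine (Mat.cons _ v u h4 hvu huv.symm (by simp [hv', hwv.symm])
        (by simp [hwu.symm])).congr fun z => ?_
      simp only [mem_insert, mem_erase]
      by_cases hz : z = u
      · subst hz; simp [h1.2.1.symm, huS']
      by_cases hz2 : z = w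
      · subst hz2; simp [h1.1.symm, hw]
      tauto
  · simp only [mem_erase, not_and] at h1 h2
    have hyS' : y ∉ S' := h2 hyw h1.1
    refine Or.inr ⟨y, h1.2.2, hyS', h1.2.1, ?_, ?_⟩
    · refine (Mat.cons _ u w h3 huw hwu.symm (by simp) (by simp)).congr fun z => ?_
      simp only [mem_insert, mem_erase]
      by_cases hz : z = u
      · subst hz; simp [huv, hu, h1.1.symm]
      by_cases hz2 : z = w
      · subst hz2; simp [hwv, hwS, hyw.symm]
      tauto
    · refine (Mat.cons _ v u h4 hvu huv.symm (by simp [hv', hwv.symm, h1.2.1.symm])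
        (by simp [hwu.symm, h1.1.symm])).congr fun z => ?_
      simp only [mem_insert, mem_erase]
      by_cases hz : z = u
      · subst hz; simp [huS']
      by_cases hz2 : z = w
      · subst hz2; simp [hw]
      tauto

open Classical in
/-- Twice the matching number of the subgraph induced on `S`. -/
noncomputable def mu (r : ι → ι → Prop) (S : Finset ι) : ℕ :=
  (S.powerset.filter (Mat r)).sup card

lemma le_mu {S T : Finset ι} (hT : Mat r T) (h : T ⊆ S) : T.card ≤ mu r S := by
  classical
  unfold mu
  exact Finset.le_sup (f := card) (by simp [h, hT])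

lemma exists_mu (S : Finset ι) : ∃ T, T ⊆ S ∧ Mat r T ∧ T.card = mu r S := by
  classical
  obtain ⟨T, hT, h⟩ := Finset.exists_mem_eq_sup (S.powerset.filter (Mat r))
    ⟨∅, by simp [Mat.nil]⟩ card
  simp only [mem_filter, mem_powerset] at hT
  exact ⟨T, hT.1, hT.2, by unfold mu; convert h.symm⟩

lemma mu_mono {S T : Finset ι} (h : S ⊆ T) : mu r S ≤ mu r T := by
  obtain ⟨U, h1, h2, h3⟩ := exists_mu (r := r) S
  rw [← h3]; exact le_mu h2 (h1.trans h)

lemma mu_even (S : Finset ι) : Even (mu r S) := by
  obtain ⟨U, _, h2, h3⟩ := exists_mu (r := r) S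
  rw [← h3]; exact h2.even

lemma mu_le (S : Finset ι) : mu r S ≤ S.card := by
  obtain ⟨U, h1, _, h3⟩ := exists_mu (r := r) S
  rw [← h3]; exact card_le_card h1

lemma mu_insert_le (hr : ∀ a b, r a b → r b a) (S : Finset ι) (v : ι) :
    mu r (insert v S) ≤ mu r S + 2 := by
  obtain ⟨U, h1, h2, h3⟩ := exists_mu (r := r) (insert v S)
  rw [← h3]
  by_cases hv : v ∈ U
  · obtain ⟨u, hu, huv, _, hm⟩ := h2.inv hr v hv
    have := le_mu (S := S) hm (by
      intro y hy
      simp only [mem_erase] at hy
      have := h1 hy.2.2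
      simp only [mem_insert] at this
      tauto)
    have e1 := card_erase_add_one hv
    have e2 := card_erase_add_one (s := U.erase v) (a := u) (by simp [huv, hu])
    omega
  · have := le_mu (S := S) h2 (by
      intro y hy
      have := h1 hy
      simp only [mem_insert] at this
      rcases this with rfl | h
      · exact absurd hy hv
      · exact h)
    omega

lemma mu_edge {S : Finset ι} {u v : ι} (h : r u v) (hne : u ≠ v) (hu : u ∉ S) (hv : v ∉ S) :
    mu r S + 2 ≤ mu r (insert u (insert v S)) := by
  obtain ⟨U, h1, h2, h3⟩ := exists_mu (r := r) S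
  have hu' : u ∉ U := fun e => hu (h1 e)
  have hv' : v ∉ U := fun e => hv (h1 e)
  have := le_mu (S := insert u (insert v S)) (Mat.cons U u v h2 h hne hu' hv')
    (insert_subset_insert _ (insert_subset_insert _ h1))
  rw [card_insert_of_notMem (by simp [hne, hu']), card_insert_of_notMem hv'] at this
  omega

/-- Twice the number `|S| - ν(S)`. -/
noncomputable def ee (r : ι → ι → Prop) (S : Finset ι) : ℤ := 2 * S.card - mu r S

/-- The deficiency. -/
noncomputable def df (r : ι → ι → Prop) (S : Finset ι) : ℤ := S.card - mu r S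

lemma ee_insert (hr : ∀ a b, r a b → r b a) (S : Finset ι) (v : ι) :
    ee r S ≤ ee r (insert v S) := by
  by_cases hv : v ∈ S
  · rw [insert_eq_of_mem hv]
  · have h2 := mu_insert_le hr S v
    unfold ee
    rw [card_insert_of_notMem hv]
    push_cast
    omega

lemma ee_mono (hr : ∀ a b, r a b → r b a) {S T : Finset ι} (h : S ⊆ T) : ee r S ≤ ee r T := by
  have key : ∀ U : Finset ι, ee r S ≤ ee r (U ∪ S) := by
    intro U
    induction U using Finset.induction_on with
    | empty => simp
    | insert v U _ ih => rw [insert_union]; exact ih.trans (ee_insert hr _ _)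
  have := key T
  rwa [union_eq_left.2 h] at this

/-- A vertex is either dispensable for the deficiency or always increases the matching number. -/
lemma crit (hr : ∀ a b, r a b → r b a) (A B Z0 : Finset ι) (y : ι) (hyA : y ∉ A) (h0 : Z0 ⊆ B) :
    (∃ Z, Z ⊆ B.erase y ∧ df r (A ∪ Z) ≤ df r (A ∪ Z0)) ∨
    (∀ Z, Z ⊆ B.erase y → mu r (insert y (A ∪ Z)) = mu r (A ∪ Z) + 2) := by
  by_contra hc
  push Not at hc
  obtain ⟨hc1, Z, hZ, hc2⟩ := hc
  have hyZ : y ∉ Z := fun h => by simpa using hZ h
  have hmu : mu r (insert y (A ∪ Z)) = mu r (A ∪ Z) := by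
    have a := mu_insert_le hr (A ∪ Z) y
    have b := mu_mono (r := r) (subset_insert y (A ∪ Z))
    obtain ⟨k, hk⟩ := mu_even (r := r) (insert y (A ∪ Z))
    obtain ⟨k', hk'⟩ := mu_even (r := r) (A ∪ Z)
    omega
  obtain ⟨S, hS1, hS2, hS3⟩ := exists_mu (r := r) (A ∪ Z0)
  obtain ⟨S', hS1', hS2', hS3'⟩ := exists_mu (r := r) (A ∪ Z)
  by_cases hyS : y ∈ S
  swap
  · have a := hc1 (Z0.erase y) (erase_subset_erase _ h0)
    have b := le_mu (S := A ∪ Z0.erase y) hS2 (by
      intro z hz
      have := hS1 hz
      simp only [mem_union, mem_erase] at this ⊢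
      exact this.imp id fun h => ⟨fun e => hyS (e ▸ hz), h⟩)
    have c : (A ∪ Z0.erase y).card ≤ (A ∪ Z0).card :=
      card_le_card (union_subset_union (Subset.refl _) (erase_subset _ _))
    unfold df at a
    omega
  have hyS' : y ∉ S' := fun h => by
    have := hS1' h
    simp [hyA, hyZ] at this
  have hcy := card_erase_add_one (hS1 hyS)
  have hcS := card_erase_add_one hyS
  rcases Mat.exchange hr _ S S' y rfl hS2 hS2' hyS hyS' with
    ⟨w, h1, h2, h3, _⟩ | ⟨w, h1, h2, hwy, h3, h4⟩
  · have a := hc1 (insert w (Z0.erase y) ∩ B.erase y) inter_subset_right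
    have b := le_mu (S := A ∪ (insert w (Z0.erase y) ∩ B.erase y)) h3 (by
      intro z hz
      simp only [mem_insert, mem_erase, mem_union, mem_inter] at hz ⊢
      rcases hz with rfl | hz
      · have := hS1' h1
        simp only [mem_union] at this
        exact this.imp id fun h => ⟨Or.inl rfl, by simpa using hZ h⟩
      · have := hS1 hz.2
        simp only [mem_union] at this
        exact this.imp id fun h => ⟨Or.inr ⟨hz.1, h⟩, hz.1, h0 h⟩)
    have c : (A ∪ (insert w (Z0.erase y) ∩ B.erase y)).card ≤
        (insert w ((A ∪ Z0).erase y)).card := card_le_card (by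
      intro z hz
      simp only [mem_insert, mem_erase, mem_union, mem_inter] at hz ⊢
      rcases hz with hz | hz
      · exact Or.inr ⟨fun e => hyA (e ▸ hz), Or.inl hz⟩
      · tauto)
    have c2 := card_insert_le w ((A ∪ Z0).erase y)
    rw [card_insert_of_notMem (by simp [h2])] at b
    unfold df at a
    omega
  · by_cases hw : w ∈ A ∪ Z
    · have b := le_mu (S := insert y (A ∪ Z)) h4
        (insert_subset_insert _ (insert_subset hw hS1'))
      rw [card_insert_of_notMem (by simp [hyS', hwy.symm]), card_insert_of_notMem h2] at b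
      omega
    · have hwA : w ∉ A := fun h => hw (by simp [h])
      have a := hc1 ((Z0.erase y).erase w) ((erase_subset _ _).trans (erase_subset_erase _ h0))
      have e : A ∪ (Z0.erase y).erase w = ((A ∪ Z0).erase y).erase w := by
        ext z
        simp only [mem_erase, mem_union]
        constructor
        · rintro (h | h)
          · exact ⟨fun e => hwA (e ▸ h), fun e => hyA (e ▸ h), Or.inl h⟩
          · tauto
        · tauto
      rw [e] at a
      have b := le_mu (S := ((A ∪ Z0).erase y).erase w) h3
        (erase_subset_erase _ (erase_subset_erase _ hS1))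
      have c1 := card_erase_add_one (s := (A ∪ Z0).erase y) (a := w) (by simp [hwy, hS1 h1])
      have c2 := card_erase_add_one (s := S.erase y) (a := w) (by simp [hwy, h1])
      unfold df at a
      omega

/-- `B` can be built vertex by vertex, where all but `c` vertices have an earlier neighbour. -/
inductive Comp (r : ι → ι → Prop) : Finset ι → ℕ → Prop
  | nil : Comp r ∅ 0
  | new (B : Finset ι) (c : ℕ) (v : ι) : Comp r B c → v ∉ B → Comp r (insert v B) (c + 1)
  | adj (B : Finset ι) (c : ℕ) (v w : ι) : Comp r B c → v ∉ B → w ∈ B → r v w →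
      Comp r (insert v B) c

lemma comp_card (B : Finset ι) : Comp r B B.card := by
  induction B using Finset.induction_on with
  | empty => exact Comp.nil
  | insert v B hv ih => rw [card_insert_of_notMem hv]; exact Comp.new _ _ _ ih hv

lemma df_erase (hr : ∀ a b, r a b → r b a) (S : Finset ι) (v : ι) :
    df r (S.erase v) ≤ df r S + 1 := by
  by_cases hv : v ∈ S
  · have a := mu_insert_le hr (S.erase v) v
    rw [insert_erase hv] at a
    have := card_erase_add_one hv
    unfold df; omega
  · rw [erase_eq_of_notMem hv]; omega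

lemma df_insert (S : Finset ι) (v : ι) : df r (insert v S) ≤ df r S + 1 := by
  have a := mu_mono (r := r) (subset_insert v S)
  have := card_insert_le v S
  unfold df; omega

end mat

section conn
variable {ι : Type} [LinearOrder ι] [Fintype ι] {K : Type} [CommRing K] {r : ι → ι → Prop}

/-- The product of a family `X` with the family of the `Z ⊆ B` with `ee (A ∪ Z) ≥ s`. -/
def PU (r : ι → ι → Prop) (X : Finset ι → Prop) (s : ℤ) (A B : Finset ι) (S : Finset ι) : Prop :=
  X (S \ B) ∧ s ≤ ee r (A ∪ S ∩ B)

omit [Fintype ι] in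
lemma cvx_PU (hr : ∀ a b, r a b → r b a) {X : Finset ι → Prop} (hX : Cvx X) (s : ℤ)
    (A B : Finset ι) : Cvx (PU r X s A B) := fun _ _ _ h12 h23 a c =>
  ⟨hX _ _ _ (sdiff_subset_sdiff h12 (Subset.refl _)) (sdiff_subset_sdiff h23 (Subset.refl _))
    a.1 c.1, a.2.trans (ee_mono hr (union_subset_union (Subset.refl _)
      (inter_subset_inter h12 (Subset.refl _))))⟩

lemma van_PU_cone {X : Finset ι → Prop} (s : ℤ) (A B : Finset ι) (y : ι) (hy : y ∈ B)
    (hyA : y ∉ A)
    (h : ∀ Z, Z ⊆ B.erase y → mu r (insert y (A ∪ Z)) = mu r (A ∪ Z) + 2) (d : ℤ) :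
    Van K (PU r X s A B) d := by
  refine van_cone y (fun S hS => ?_) d
  unfold PU
  have e1 : insert y S \ B = S \ B := insert_sdiff_of_mem _ hy
  have e2 : A ∪ insert y S ∩ B = insert y (A ∪ S ∩ B) := by
    rw [insert_inter_of_mem hy, union_insert]
  have e3 := h (S ∩ B) (by
    intro z hz
    simp only [mem_inter, mem_erase] at hz ⊢
    exact ⟨fun e => hS (e ▸ hz.1), hz.2⟩)
  have e4 : ee r (insert y (A ∪ S ∩ B)) = ee r (A ∪ S ∩ B) := by
    unfold ee
    rw [e3, card_insert_of_notMem (by simp [hyA, hS])]
    push_cast; ring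
  rw [e1, e2, e4]

lemma van_PU_split (hr : ∀ a b, r a b → r b a) {X : Finset ι → Prop} (hX : Cvx X) (s : ℤ)
    (A B : Finset ι) (v : ι) (hv : v ∉ B) (hXv : ∀ S, X S → v ∉ S) (d : ℤ)
    (h1 : Van K (PU r X s A B) d) (h2 : Van K (PU r X s (insert v A) B) (d - 1)) :
    Van K (PU r X s A (insert v B)) d := by
  have hnot : ∀ A' S, PU r X s A' B S → v ∉ S := fun A' S h hvS =>
    hXv _ h.1 (by simp [hvS, hv])
  refine van_mid (cvx_PU hr hX s A _) (B := fun S => v ∈ S) (fun S T h _ _ h2 => h h2) ?_ ?_
  · refine van_congr h1 (fun S => ?_) rfl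
    constructor
    · rintro ⟨⟨a, b⟩, c⟩
      rw [sdiff_insert_of_notMem c] at a
      rw [inter_insert_of_notMem c] at b
      exact ⟨a, b⟩
    · intro h
      have c := hnot _ _ h
      refine ⟨⟨?_, ?_⟩, c⟩
      · rw [sdiff_insert_of_notMem c]; exact h.1
      · rw [inter_insert_of_notMem c]; exact h.2
  · have := (van_shift (K := K) (cvx_PU hr hX s (insert v A) B) v (hnot _) (d - 1)).2 h2
    refine van_congr this (fun S => ?_) (by ring)
    by_cases c : v ∈ S
    · have e1 : S \ insert v B = S.erase v \ B := by
        ext y; simp only [mem_sdiff, mem_insert, mem_erase]; tauto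
      have e2 : A ∪ S ∩ insert v B = insert v A ∪ S.erase v ∩ B := by
        ext y
        simp only [mem_union, mem_inter, mem_insert, mem_erase]
        by_cases hy : y = v
        · subst hy; simp [c]
        · tauto
      unfold PU
      rw [e1, e2]
    · simp [c]

/-- The connectivity theorem. -/
theorem van_PU (hr : ∀ a b, r a b → r b a) {X : Finset ι → Prop} (hX : Cvx X) (s β : ℤ)
    (hV : ∀ d, d < β → Van K X d) {B : Finset ι} {c : ℕ} (hB : Comp r B c) :
    ∀ (A Z0 : Finset ι), Disjoint A B → (∀ S, X S → Disjoint S B) → Z0 ⊆ B →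
      ∀ d, d < β + s - A.card - c - df r (A ∪ Z0) → Van K (PU r X s A B) d := by
  induction hB with
  | nil =>
    intro A Z0 _ _ h0 d hd
    rw [subset_empty.1 h0, union_empty] at hd
    by_cases hs : s ≤ ee r A
    · refine van_congr (hV d ?_) (fun S => by simp [PU, hs]) rfl
      unfold ee at hs; unfold df at hd
      push_cast at hd
      omega
    · exact van_of_no fun S hS => absurd (by simpa using hS.2) hs
  | new B c v _ hv ih =>
    intro A Z0 hA hXB h0 d hd
    have hvA : v ∉ A := fun h => disjoint_left.1 hA h (by simp)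
    have hA' : Disjoint A B := hA.mono_right (subset_insert _ _)
    have hX' : ∀ S, X S → Disjoint S B := fun S h => (hXB S h).mono_right (subset_insert _ _)
    have h0' : Z0.erase v ⊆ B := by
      intro z hz
      simp only [mem_erase] at hz
      have := h0 hz.2
      simp only [mem_insert] at this
      tauto
    refine van_PU_split hr hX s A B v hv (fun S h hvS => disjoint_left.1 (hXB S h) hvS (by simp))
      d (ih A (Z0.erase v) hA' hX' h0' d ?_)
      (ih (insert v A) (Z0.erase v) (by simp [hv, hA']) hX' h0' _ ?_)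
    · have e : A ∪ Z0.erase v = (A ∪ Z0).erase v := by
        rw [erase_union_distrib, erase_eq_of_notMem hvA]
      have := df_erase hr (A ∪ Z0) v
      rw [e]; push_cast at hd; omega
    · have e : insert v A ∪ Z0.erase v = insert v (A ∪ Z0) := by
        ext z
        simp only [mem_union, mem_insert, mem_erase]
        tauto
      have := df_insert (r := r) (A ∪ Z0) v
      rw [e, card_insert_of_notMem hvA]; push_cast at hd ⊢; omega
  | adj B c v w _ hv hw hvw ih =>
    intro A Z0 hA hXB h0 d hd
    have hvA : v ∉ A := fun h => disjoint_left.1 hA h (by simp)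
    have hwA : w ∉ A := fun h => disjoint_left.1 hA h (by simp [hw])
    have hne : v ≠ w := fun e => hv (e ▸ hw)
    have hA' : Disjoint A B := hA.mono_right (subset_insert _ _)
    have hX' : ∀ S, X S → Disjoint S B := fun S h => (hXB S h).mono_right (subset_insert _ _)
    rcases crit hr A (insert v B) Z0 v hvA h0 with ⟨Z1, h1, h1'⟩ | hc
    swap
    · exact van_PU_cone s A _ v (by simp) hvA hc d
    rcases crit hr A (insert v B) Z0 w hwA h0 with ⟨Z3, h3, h3'⟩ | hc
    swap
    · exact van_PU_cone s A _ w (by simp [hw]) hwA hc d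
    rw [erase_insert hv] at h1
    have : ∃ Z2, Z2 ⊆ B ∧ df r (insert v A ∪ Z2) ≤ df r (A ∪ Z0) := by
      by_cases hv3 : v ∈ Z3
      · refine ⟨Z3.erase v, ?_, ?_⟩
        · intro z hz
          simp only [mem_erase] at hz
          have := h3 hz.2
          simp only [mem_insert, mem_erase] at this
          tauto
        · have e : insert v A ∪ Z3.erase v = A ∪ Z3 := by
            ext z
            simp only [mem_union, mem_insert, mem_erase]
            by_cases hz : z = v
            · subst hz; simp [hv3]
            · tauto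
          rw [e]; exact h3'
      · have hw3 : w ∉ Z3 := fun h => by simpa using h3 h
        refine ⟨insert w Z3, ?_, ?_⟩
        · refine insert_subset hw fun z hz => ?_
          have := h3 hz
          simp only [mem_insert, mem_erase] at this
          rcases this.2 with rfl | h
          · exact absurd hz hv3
          · exact h
        · have e : insert v A ∪ insert w Z3 = insert v (insert w (A ∪ Z3)) := by
            rw [insert_union, union_insert]
          have a := mu_edge (S := A ∪ Z3) hvw hne (by simp [hvA, hv3]) (by simp [hwA, hw3])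
          have b := card_insert_le v (insert w (A ∪ Z3))
          have b' := card_insert_le w (A ∪ Z3)
          rw [e]
          unfold df at h3' ⊢
          omega
    obtain ⟨Z2, h2, h2'⟩ := this
    refine van_PU_split hr hX s A B v hv (fun S h hvS => disjoint_left.1 (hXB S h) hvS (by simp))
      d (ih A Z1 hA' hX' h1 d (by omega))
      (ih (insert v A) Z2 (by simp [hv, hA']) hX' h2 _ ?_)
    rw [card_insert_of_notMem hvA]; push_cast; omega

end conn

end Pool.Agent.H538Z
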