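import Mathlib
import Pool.Agent.H538Z.Match

/-!
Multigraded Koszul families of monomial ideals, the passage to degree complexes, and the exponent
vectors of the powers of an edge ideal.
-/

set_option autoImplicit false

namespace Pool.Agent.H538Z

open Finset

section tri
variable {ι : Type} [LinearOrder ι] [Fintype ι] {K : Type} [CommRing K]

/-- The family with parameter `s` when `x` is present and `t` when it is absent. -/
def NT (B : Finset ι → Prop) (Q : ℕ → Finset ι → Prop) (x : ι) (s t : ℕ) (S : Finset ι) : Prop :=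
  B S ∧ (x ∈ S → Q s S) ∧ (x ∉ S → Q t S)

/-- The relative part. -/
def AT (B : Finset ι → Prop) (Q : ℕ → Finset ι → Prop) (x : ι) (s t : ℕ) (S : Finset ι) : Prop :=
  B S ∧ x ∈ S ∧ Q s S ∧ ¬ Q t S

variable {B : Finset ι → Prop} {Q : ℕ → Finset ι → Prop} {x : ι}

lemma van_NT_iff (hB : Dn B) (hBx : Tog B x) (hQ : ∀ r, Up (Q r)) (hQx : ∀ r, Tog (Q r) x)
    (ha : ∀ r r' S, r ≤ r' → Q r' S → Q r S) {s t : ℕ} (hst : s ≤ t) (d : ℤ) :
    Van K (NT B Q x s t) d ↔ Van K (AT B Q x s t) d := by
  have hc : Cvx (NT B Q x s t) := by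
    rintro S1 S2 S3 h12 h23 ⟨_, a2, a3⟩ ⟨c1, _⟩
    refine ⟨hB _ _ h23 c1, fun _ => ?_, fun h => hQ _ _ _ h12 (a3 fun h' => h (h12 h'))⟩
    by_cases h : x ∈ S1
    · exact hQ _ _ _ h12 (a2 h)
    · exact hQ _ _ _ h12 (ha _ _ _ hst (a3 h))
  have hup : UpIn (NT B Q x s t) (Q t) := fun S T h _ _ h2 => hQ _ _ _ h h2
  have hcone : ∀ e, Van K (fun S => NT B Q x s t S ∧ Q t S) e := by
    intro e
    refine van_congr (van_cone (F := fun S => B S ∧ Q t S) x (fun S _ => ?_) e) (fun S => ?_) rfl
    · simp only [hBx S, hQx t S]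
    · have := ha s t S hst
      unfold NT; tauto
  have hiff : ∀ S, AT B Q x s t S ↔ NT B Q x s t S ∧ ¬ Q t S := by
    intro S; unfold AT NT; tauto
  exact ⟨fun h => van_congr (van_sub hc hup h (hcone _)) hiff rfl,
    fun h => van_mid hc hup (van_congr h (fun S => (hiff S).symm) rfl) (hcone _)⟩

omit [Fintype ι] [LinearOrder ι] in
lemma cvx_AT (hB : Dn B) (hQ : ∀ r, Up (Q r)) (s t : ℕ) : Cvx (AT B Q x s t) := by
  rintro S1 S2 S3 h12 h23 ⟨_, a2, a3, _⟩ ⟨c1, _, _, c4⟩
  exact ⟨hB _ _ h23 c1, h12 a2, hQ _ _ _ h12 a3, fun h => c4 (hQ _ _ _ h23 h)⟩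

lemma tri_mid (hB : Dn B) (hBx : Tog B x) (hQ : ∀ r, Up (Q r)) (hQx : ∀ r, Tog (Q r) x)
    (ha : ∀ r r' S, r ≤ r' → Q r' S → Q r S) {s t u : ℕ} (hst : s ≤ t) (htu : t ≤ u) {d : ℤ}
    (h1 : Van K (NT B Q x s t) d) (h2 : Van K (NT B Q x t u) d) : Van K (NT B Q x s u) d := by
  rw [van_NT_iff hB hBx hQ hQx ha (by omega)] at h1 h2 ⊢
  refine van_mid (cvx_AT hB hQ s u) (B := Q t) (fun S T h _ _ h2 => hQ _ _ _ h h2)
    (van_congr h1 (fun S => ?_) rfl) (van_congr h2 (fun S => ?_) rfl)
  · have := ha t u S htu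
    unfold AT; tauto
  · have := ha s t S hst
    unfold AT; tauto

lemma tri_sub (hB : Dn B) (hBx : Tog B x) (hQ : ∀ r, Up (Q r)) (hQx : ∀ r, Tog (Q r) x)
    (ha : ∀ r r' S, r ≤ r' → Q r' S → Q r S) {s t u : ℕ} (hst : s ≤ t) (htu : t ≤ u) {d : ℤ}
    (h1 : Van K (NT B Q x s u) d) (h2 : Van K (NT B Q x t u) (d + 1)) :
    Van K (NT B Q x s t) d := by
  rw [van_NT_iff hB hBx hQ hQx ha (by omega)] at h1 h2 ⊢
  refine van_congr (van_sub (cvx_AT hB hQ s u) (B := Q t) (fun S T h _ _ h2 => hQ _ _ _ h h2) h1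
    (van_congr h2 (fun S => ?_) rfl)) (fun S => ?_) rfl
  · have := ha s t S hst
    unfold AT; tauto
  · have := ha t u S htu
    unfold AT; tauto

lemma tri_refl (hBx : Tog B x) (hQx : ∀ r, Tog (Q r) x) (s : ℕ) (d : ℤ) :
    Van K (NT B Q x s s) d := by
  refine van_congr (van_cone (F := fun S => B S ∧ Q s S) x (fun S _ => ?_) d) (fun S => ?_) rfl
  · simp only [hBx S, hQx s S]
  · unfold NT; tauto

end tri

section proc
variable {V : Type} [LinearOrder V] [Fintype V] (K : Type) [CommRing K]

/-- The sets `τ ⊆ W` such that the exponent vector equal to `lo` on `τ` and to `hi` off `τ` does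
not lie in `P`. -/
def NF (P : (V → ℕ) → Prop) (W : Finset V) (lo hi : V → ℕ) (τ : Finset V) : Prop :=
  τ ⊆ W ∧ ¬ P (fun x => if x ∈ τ then lo x else hi x)

/-- Vanishing of the multigraded Koszul homology of the quotient above weight `R`. -/
def RegC (P : (V → ℕ) → Prop) (R : ℤ) : Prop :=
  ∀ (W : Finset V) (lo : V → ℕ), (∀ x, x ∉ W → lo x = 0) → ∀ d : ℤ,
    R < ∑ x ∈ W, ((lo x : ℤ) + 1) - d →
    Van K (NF P W lo (fun x => if x ∈ W then lo x + 1 else 0)) d

variable {K}

/-- The one-variable slices. -/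
def QF (P : (V → ℕ) → Prop) (lo hi : V → ℕ) (x : V) (r : ℕ) (τ : Finset V) : Prop :=
  ¬ P (fun y => if y = x then r else if y ∈ τ then lo y else hi y)

omit [Fintype V] in
lemma NF_iff (P : (V → ℕ) → Prop) (W : Finset V) (lo hi lo' hi' : V → ℕ) (x : V) (s t : ℕ)
    (h : ∀ y, y ≠ x → lo' y = lo y ∧ hi' y = hi y) (hs : lo' x = s) (ht : hi' x = t)
    (τ : Finset V) : NF P W lo' hi' τ ↔ NT (fun S => S ⊆ W) (QF P lo hi x) x s t τ := by
  unfold NF NT QF
  by_cases hx : x ∈ τ
  · have : (fun y => if y ∈ τ then lo' y else hi' y) =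
        fun y => if y = x then s else if y ∈ τ then lo y else hi y := by
      funext y
      by_cases hy : y = x
      · subst hy; simp [hx, hs]
      · simp [hy, h y hy]
    rw [this]; tauto
  · have : (fun y => if y ∈ τ then lo' y else hi' y) =
        fun y => if y = x then t else if y ∈ τ then lo y else hi y := by
      funext y
      by_cases hy : y = x
      · subst hy; simp [hx, ht]
      · simp [hy, h y hy]
    rw [this]; tauto

omit [Fintype V] in
lemma QF_up {P : (V → ℕ) → Prop} (hP : ∀ b b', (∀ x, b x ≤ b' x) → P b → P b') {lo hi : V → ℕ}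
    (x : V) (h : ∀ y, y ≠ x → lo y ≤ hi y) (r : ℕ) : Up (QF P lo hi x r) := by
  intro S T hST h1 h2
  refine h1 (hP _ _ (fun y => ?_) h2)
  by_cases hy : y = x
  · simp [hy]
  · have := h y hy
    have := @hST y
    simp only [hy, if_false]
    split_ifs <;> first | omega | tauto

omit [Fintype V] in
lemma QF_tog (P : (V → ℕ) → Prop) (lo hi : V → ℕ) (x : V) (r : ℕ) : Tog (QF P lo hi x r) x := by
  intro S
  unfold QF
  have : (fun y => if y = x then r else if y ∈ insert x S then lo y else hi y) =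
      fun y => if y = x then r else if y ∈ S then lo y else hi y := by
    funext y
    by_cases hy : y = x <;> simp [hy]
  rw [this]

omit [Fintype V] in
lemma QF_anti {P : (V → ℕ) → Prop} (hP : ∀ b b', (∀ x, b x ≤ b' x) → P b → P b') (lo hi : V → ℕ)
    (x : V) : ∀ r r' S, r ≤ r' → QF P lo hi x r' S → QF P lo hi x r S := by
  intro r r' S h h1 h2
  refine h1 (hP _ _ (fun y => ?_) h2)
  by_cases hy : y = x <;> simp [hy, h]

omit [Fintype V] in
lemma sum_update_succ (W : Finset V) (lo : V → ℕ) (x : V) (hx : x ∈ W) (t : ℕ) :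
    ∑ y ∈ W, (((Function.update lo x t y : ℕ) : ℤ) + 1) =
      ∑ y ∈ W, ((lo y : ℤ) + 1) + t - lo x := by
  rw [← Finset.add_sum_erase W _ hx, ← Finset.add_sum_erase W (fun y => (lo y : ℤ) + 1) hx]
  have : ∑ y ∈ W.erase x, (((Function.update lo x t y : ℕ) : ℤ) + 1) =
      ∑ y ∈ W.erase x, ((lo y : ℤ) + 1) := by
    refine Finset.sum_congr rfl fun y hy => ?_
    rw [Function.update_of_ne (by simpa using (mem_erase.1 hy).1)]
  rw [this, Function.update_self]; ring

lemma proc_fwd {P : (V → ℕ) → Prop} (hP : ∀ b b', (∀ x, b x ≤ b' x) → P b → P b')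
    (W : Finset V) (N : ℕ) (R : ℤ)
    (H : ∀ a : V → ℕ, (∀ x, x ∉ W → a x = 0) → ∀ d : ℤ, R < ∑ x ∈ W, ((a x : ℤ) + 1) - d →
      Van K (NF P W a (fun x => if x ∈ W then N else 0)) d) (U : Finset V) :
    U ⊆ W → ∀ lo : V → ℕ, (∀ x, x ∉ W → lo x = 0) → (∀ x, lo x ≤ N) →
      (∀ x ∈ U, lo x + 1 ≤ N) → ∀ d : ℤ, R < ∑ x ∈ W, ((lo x : ℤ) + 1) - d →
      Van K (NF P W lo (fun x => if x ∈ U then lo x + 1 else if x ∈ W then N else 0)) d := by
  induction U using Finset.induction_on with
  | empty => intro _ lo h0 _ _ d hd; simpa using H lo h0 d hd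
  | insert x U hx ih =>
    intro hU lo h0 h1 h2 d hd
    have hxW : x ∈ W := hU (by simp)
    have hU' : U ⊆ W := (subset_insert _ _).trans hU
    set hi : V → ℕ := fun y => if y ∈ U then lo y + 1 else if y ∈ W then N else 0 with hhi
    have a1 := ih hU' lo h0 h1 (fun y hy => h2 y (by simp [hy])) d hd
    have a2 := ih hU' (Function.update lo x (lo x + 1)) (by
        intro y hy
        rw [Function.update_of_ne (fun e => hy (by rw [e]; exact hxW))]; exact h0 y hy) (by
        intro y
        by_cases hy : y = x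
        · subst hy; simpa using h2 y (by simp)
        · rw [Function.update_of_ne hy]; exact h1 y) (by
        intro y hy
        rw [Function.update_of_ne (fun e => hx (by rw [← e]; exact hy))]
        exact h2 y (by simp [hy])) (d + 1) (by
        rw [sum_update_succ W lo x hxW]; push_cast; omega)
    have hup := QF_up hP (lo := lo) (hi := hi) x (by
      intro y _
      have := h1 y
      have := h0 y
      simp only [hhi]
      split_ifs <;> first | omega | simp_all)
    have hBx : Tog (fun S => S ⊆ W) x := fun S => by simp [insert_subset_iff, hxW]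
    refine van_congr (tri_sub (fun S T h h' => h.trans h') hBx hup (QF_tog P lo hi x)
      (QF_anti hP lo hi x) (s := lo x) (t := lo x + 1) (u := N) (by omega) (h2 x (by simp))
      (van_congr a1 (fun S => (NF_iff P W lo hi _ _ x _ _ ?_ rfl ?_ S).symm) rfl)
      (van_congr a2 (fun S => (NF_iff P W lo hi _ _ x _ _ ?_ ?_ ?_ S).symm) rfl))
      (fun S => NF_iff P W lo hi _ _ x _ _ ?_ rfl ?_ S) rfl
    · intro y _; exact ⟨rfl, rfl⟩
    · simp [hx, hxW]
    · intro y hy; simp [hhi, hy]
    · simp
    · simp [hx, hxW]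
    · intro y hy; simp [hhi, hy]
    · simp

lemma regC_of_deg {P : (V → ℕ) → Prop} (hP : ∀ b b', (∀ x, b x ≤ b' x) → P b → P b')
    (N0 : ℕ) (R : ℤ)
    (H : ∀ (W : Finset V) (N : ℕ), N0 ≤ N → ∀ a : V → ℕ, (∀ x, x ∉ W → a x = 0) → ∀ d : ℤ,
      R < ∑ x ∈ W, ((a x : ℤ) + 1) - d →
      Van K (NF P W a (fun x => if x ∈ W then N else 0)) d) : RegC K P R := by
  intro W lo h0 d hd
  have hb : ∀ x, lo x + 1 ≤ N0 + (∑ y, lo y + 1) := fun x => by
    have := Finset.single_le_sum (f := lo) (fun y _ => Nat.zero_le _) (mem_univ x)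
    omega
  have := proc_fwd hP W (N0 + (∑ y, lo y + 1)) R (H W _ (by omega)) W (Subset.refl _) lo h0
    (fun x => by have := hb x; omega) (fun x _ => hb x) d hd
  refine van_congr this (fun S => ?_) rfl
  have e : (fun x => if x ∈ W then lo x + 1 else 0) =
      fun x => if x ∈ W then lo x + 1 else if x ∈ W then N0 + (∑ y, lo y + 1) else 0 := by
    funext x; split_ifs <;> rfl
  rw [e]

lemma proc_rev {P : (V → ℕ) → Prop} (hP : ∀ b b', (∀ x, b x ≤ b' x) → P b → P b')
    (W : Finset V) (N : ℕ) (R : ℤ) (H : RegC K P R) (U : Finset V) :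
    U ⊆ W → ∀ lo : V → ℕ, (∀ x, x ∉ W → lo x = 0) → (∀ x ∈ U, lo x ≤ N) →
      ∀ d : ℤ, R < ∑ x ∈ W, ((lo x : ℤ) + 1) - d →
      Van K (NF P W lo (fun x => if x ∈ U then N else if x ∈ W then lo x + 1 else 0)) d := by
  induction U using Finset.induction_on with
  | empty => intro _ lo h0 _ d hd; simpa using H W lo h0 d hd
  | insert x U hx ih =>
    intro hU lo h0 h1 d hd
    have hxW : x ∈ W := hU (by simp)
    have hU' : U ⊆ W := (subset_insert _ _).trans hU
    set hi : V → ℕ := fun y => if y ∈ U then N else if y ∈ W then lo y + 1 else 0 with hhi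
    have hup := QF_up hP (lo := lo) (hi := hi) x (by
      intro y _
      have := h1 y
      have := h0 y
      simp only [hhi]
      split_ifs <;> first | omega | simp_all)
    have hBx : Tog (fun S => S ⊆ W) x := fun S => by simp [insert_subset_iff, hxW]
    have key : ∀ t, lo x ≤ t → Van K (NT (fun S => S ⊆ W) (QF P lo hi x) x (lo x) t) d := by
      intro t ht
      induction t, ht using Nat.le_induction with
      | base => exact tri_refl hBx (QF_tog P lo hi x) _ _
      | succ t ht ih2 =>
        refine tri_mid (fun S T h h' => h.trans h') hBx hup (QF_tog P lo hi x)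
          (QF_anti hP lo hi x) ht (Nat.le_succ t) ih2 ?_
        have a2 := ih hU' (Function.update lo x t) (by
          intro y hy
          rw [Function.update_of_ne (fun e => hy (by rw [e]; exact hxW))]; exact h0 y hy) (by
          intro y hy
          rw [Function.update_of_ne (fun e => hx (by rw [← e]; exact hy))]
          exact h1 y (by simp [hy])) d (by
          rw [sum_update_succ W lo x hxW]; omega)
        refine van_congr a2 (fun S => (NF_iff P W lo hi _ _ x _ _ ?_ ?_ ?_ S).symm) rfl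
        · intro y hy; simp [hhi, hy]
        · simp
        · simp [hx, hxW]
    refine van_congr (key N (h1 x (by simp))) (fun S => NF_iff P W lo hi _ _ x _ _ ?_ rfl ?_ S) rfl
    · intro y hy; simp [hhi, hy]
    · simp

lemma deg_of_regC {P : (V → ℕ) → Prop} (hP : ∀ b b', (∀ x, b x ≤ b' x) → P b → P b')
    {R : ℤ} (H : RegC K P R) (W : Finset V) (N : ℕ) (a : V → ℕ) (h0 : ∀ x, x ∉ W → a x = 0)
    (h1 : ∀ x, a x ≤ N) (d : ℤ) (hd : R < ∑ x ∈ W, ((a x : ℤ) + 1) - d) :
    Van K (NF P W a (fun x => if x ∈ W then N else 0)) d := by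
  have := proc_rev hP W N R H W (Subset.refl _) a h0 (fun x _ => h1 x) d hd
  refine van_congr this (fun S => ?_) rfl
  have e : (fun x => if x ∈ W then N else 0) =
      fun x => if x ∈ W then N else if x ∈ W then a x + 1 else 0 := by
    funext x; split_ifs <;> rfl
  rw [e]

end proc

section inp
variable {V : Type} [DecidableEq V]

/-- The exponent vector `b` dominates a sum of `j` edges. -/
inductive InP (G : SimpleGraph V) : ℕ → (V → ℕ) → Prop
  | zero (b : V → ℕ) : InP G 0 b
  | step (j : ℕ) (b b' : V → ℕ) (u v : V) : G.Adj u v → InP G j b' →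
      (∀ x, b' x + (if x = u then 1 else 0) + (if x = v then 1 else 0) ≤ b x) → InP G (j + 1) b

variable {G : SimpleGraph V}

lemma InP.mono {j : ℕ} {b c : V → ℕ} (h : InP G j b) (hbc : ∀ x, b x ≤ c x) : InP G j c := by
  cases h with
  | zero => exact InP.zero _
  | step j b b' u v h1 h2 h3 => exact InP.step j c b' u v h1 h2 fun x => (h3 x).trans (hbc x)

lemma InP.pred {j : ℕ} {b : V → ℕ} (h : InP G (j + 1) b) : InP G j b := by
  cases h with
  | step j b b' u v h1 h2 h3 => exact h2.mono fun x => by have := h3 x; omega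

lemma InP.down {j j' : ℕ} {b : V → ℕ} (h : InP G j b) (hj : j' ≤ j) : InP G j' b := by
  induction j with
  | zero => rw [Nat.le_zero.1 hj]; exact h
  | succ j ih =>
    rcases Nat.lt_or_ge j' (j + 1) with h1 | h1
    · exact ih h.pred (by omega)
    · have : j' = j + 1 := by omega
      rw [this]; exact h

lemma InP.cap {j : ℕ} {b : V → ℕ} (h : InP G j b) : InP G j (fun x => min (b x) j) := by
  induction h with
  | zero => exact InP.zero _
  | step j b b' u v h1 _ h3 ih =>
    refine InP.step j _ _ u v h1 ih fun x => ?_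
    have := h3 x
    have hne := h1.ne
    by_cases hu : x = u <;> by_cases hv : x = v
    · exact absurd (hu.symm.trans hv) hne
    all_goals simp only [hu, hv, hne, hne.symm, if_true, if_false] at this ⊢; omega

lemma InP.cover {j : ℕ} {b : V → ℕ} (h : InP G j b) (C : Finset V)
    (hC : ∀ u v, G.Adj u v → 1 ≤ b u → 1 ≤ b v → u ∈ C ∨ v ∈ C) : j ≤ ∑ x ∈ C, b x := by
  induction h with
  | zero => exact Nat.zero_le _
  | step j b b' u v h1 _ h3 ih =>
    have a := ih fun x y hxy hx hy => hC x y hxy (by have := h3 x; omega) (by have := h3 y; omega)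
    have b1 : 1 ≤ b u := by have := h3 u; simp at this; omega
    have b2 : 1 ≤ b v := by have := h3 v; simp at this; omega
    have c := Finset.sum_le_sum (s := C) fun x _ => h3 x
    rw [Finset.sum_add_distrib, Finset.sum_add_distrib, Finset.sum_ite_eq', Finset.sum_ite_eq'] at c
    rcases hC u v h1 b1 b2 with h | h
    · rw [if_pos h] at c; omega
    · rw [if_pos h] at c; omega

lemma InP.edge {u v : V} (h : G.Adj u v) (j : ℕ) {b : V → ℕ} (hu : j ≤ b u) (hv : j ≤ b v) :
    InP G j b := by
  induction j generalizing b with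
  | zero => exact InP.zero _
  | succ j ih =>
    have hne := h.ne
    refine InP.step j b (fun x => if x = u ∨ x = v then j else 0) u v h
      (ih (by simp) (by simp)) fun x => ?_
    by_cases h1 : x = u
    · subst h1; simp [hne]; omega
    · by_cases h2 : x = v
      · subst h2; simp [h1]; omega
      · simp [h1, h2]

variable {Ω : Type} [DecidableEq Ω] (π : Ω → V)

/-- The number of tokens over a vertex. -/
def cnt (S : Finset Ω) (x : V) : ℕ := (S.filter (fun w => π w = x)).card

variable {π}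

lemma cnt_insert {S : Finset Ω} {w : Ω} (hw : w ∉ S) (x : V) :
    cnt π (insert w S) x = cnt π S x + if x = π w then 1 else 0 := by
  unfold cnt
  rw [filter_insert]
  by_cases h : π w = x
  · rw [if_pos h, if_pos h.symm, card_insert_of_notMem (by simp [hw])]
  · rw [if_neg h, if_neg (Ne.symm h), add_zero]

lemma cnt_erase {S : Finset Ω} {w : Ω} (hw : w ∈ S) (x : V) :
    cnt π S x = cnt π (S.erase w) x + if x = π w then 1 else 0 := by
  rw [← cnt_insert (by simp), insert_erase hw]

omit [DecidableEq Ω] in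
lemma cnt_pos {S : Finset Ω} {x : V} (h : 1 ≤ cnt π S x) : ∃ w ∈ S, π w = x := by
  obtain ⟨w, hw⟩ := card_pos.1 h
  exact ⟨w, (mem_filter.1 hw).1, (mem_filter.1 hw).2⟩

lemma InP.tok {j : ℕ} {b : V → ℕ} (h : InP G j b) (F : V → Prop) :
    ∀ Y Z : Finset Ω,
    (∀ x, (∃ v, F v ∧ G.Adj x v) → b x ≤ cnt π Y x) →
    (∀ x, ¬ F x → ¬ (∃ v, F v ∧ G.Adj x v) → b x ≤ cnt π Z x) →
    2 * j ≤ 2 * Y.card + mu (fun w w' => G.Adj (π w) (π w')) Z := by
  induction h with
  | zero => intro _ _ _ _; exact Nat.zero_le _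
  | step j b b' u v h1 _ h3 ih =>
    intro Y Z hY hZ
    have b1 : 1 ≤ b u := by have := h3 u; simp at this; omega
    have b2 : 1 ≤ b v := by have := h3 v; simp at this; omega
    have key : ∀ w : V, 1 ≤ b w → (∀ x, b' x + (if x = w then 1 else 0) ≤ b x) →
        (∃ v, F v ∧ G.Adj w v) →
        2 * (j + 1) ≤ 2 * Y.card + mu (fun w w' => G.Adj (π w) (π w')) Z := by
      intro w hw h4 h5
      obtain ⟨o, ho, rfl⟩ := cnt_pos (hw.trans (hY w h5))
      have := ih (Y.erase o) Z (fun x hx => by
        have := hY x hx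
        have := h4 x
        have := cnt_erase (π := π) ho x
        omega) (fun x hx hx' => by
        have := hZ x hx hx'
        have := h4 x
        omega)
      have := card_erase_add_one ho
      omega
    by_cases hu : ∃ x, F x ∧ G.Adj u x
    · exact key u b1 (fun x => by have := h3 x; omega) hu
    by_cases hv : ∃ x, F x ∧ G.Adj v x
    · exact key v b2 (fun x => by have := h3 x; omega) hv
    have hu' : ¬ F u := fun h => hv ⟨u, h, h1.symm⟩
    have hv' : ¬ F v := fun h => hu ⟨v, h, h1⟩
    obtain ⟨o, ho, rfl⟩ := cnt_pos (b1.trans (hZ u hu' hu))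
    obtain ⟨o', ho', rfl⟩ := cnt_pos (b2.trans (hZ v hv' hv))
    have hne : o ≠ o' := fun e => h1.ne (by rw [e])
    have ho2 : o' ∈ Z.erase o := by simp [hne.symm, ho']
    have a := ih Y ((Z.erase o).erase o') (fun x hx => by
        have := hY x hx
        have := h3 x
        omega) (fun x hx hx' => by
        have := hZ x hx hx'
        have := h3 x
        have := cnt_erase (π := π) ho x
        have := cnt_erase (π := π) ho2 x
        omega)
    have c := mu_edge (r := fun w w' => G.Adj (π w) (π w')) (S := (Z.erase o).erase o') h1 hne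
      (by simp) (by simp)
    rw [insert_erase ho2, insert_erase ho] at c
    omega

lemma Mat.inP {S : Finset Ω} (h : Mat (fun w w' => G.Adj (π w) (π w')) S) :
    ∀ j, S.card = 2 * j → InP G j (cnt π S) := by
  induction h with
  | nil => intro j hj; have : j = 0 := by simp at hj; omega
           rw [this]; exact InP.zero _
  | cons S u v _ h1 hne hu hv ih =>
    intro j hj
    have hu' : u ∉ insert v S := by simp [hne, hu]
    rw [card_insert_of_notMem hu', card_insert_of_notMem hv] at hj
    obtain ⟨j', rfl⟩ : ∃ j', j = j' + 1 := ⟨j - 1, by omega⟩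
    refine InP.step j' _ _ _ _ h1 (ih j' (by omega)) fun x => ?_
    rw [cnt_insert hu', cnt_insert hv]
    omega

lemma InP.add_tok {j : ℕ} {b : V → ℕ} (h : InP G j b) (F : V → Prop) [DecidablePred F]
    (Y : Finset Ω) (hY : ∀ w ∈ Y, ∃ v, F v ∧ G.Adj (π w) v) :
    InP G (j + Y.card) (fun x => b x + cnt π Y x + if F x then Y.card else 0) := by
  induction Y using Finset.induction_on with
  | empty => exact h.mono fun x => by simp
  | insert w Y hw ih =>
    obtain ⟨v, hv, hwv⟩ := hY w (by simp)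
    rw [card_insert_of_notMem hw]
    refine InP.step _ _ _ _ _ hwv (ih fun w' h' => hY w' (by simp [h'])) fun x => ?_
    rw [cnt_insert hw]
    by_cases hx : x = v
    · subst hx; simp only [hv, if_true]; omega
    · simp only [hx, if_false]
      split_ifs <;> omega

end inp

end Pool.Agent.H538Z
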