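import Mathlib
import Pool.Agent.H538Z.Proc

/-!
The combinatorial form of the formula for the regularity of powers of edge ideals.
-/

set_option autoImplicit false

namespace Pool.Agent.H538Z

open Finset

section main
variable {V : Type} [LinearOrder V] [Fintype V] (K : Type) [CommRing K] (G : SimpleGraph V)

/-- The sets `τ ⊆ W` with independent complement in `W`. -/
def N1 (W τ : Finset V) : Prop := τ ⊆ W ∧ ∀ u v, u ∈ W → u ∉ τ → v ∈ W → v ∉ τ → ¬ G.Adj u v

/-- Bound for the regularity of the quotient by the edge ideal. -/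
def H1 (l : ℤ) : Prop := ∀ (W : Finset V) (d : ℤ), l < W.card - d → Van K (N1 G W) d

/-- The same bound for the vertex sets outside the neighbourhood of an edge. -/
def H2 (l : ℤ) : Prop := ∀ u v, G.Adj u v → ∀ (W : Finset V),
  (∀ w ∈ W, ¬ G.Adj u w ∧ ¬ G.Adj v w) → ∀ d : ℤ, l < W.card - d → Van K (N1 G W) d

variable {K G}

omit [Fintype V] [LinearOrder V] in
lemma cvx_N1 (W : Finset V) : Cvx (N1 G W) := fun _ _ _ h12 h23 a c =>
  ⟨h23.trans c.1, fun u v h1 h2 h3 h4 => a.2 u v h1 (fun h => h2 (h12 h)) h3 (fun h => h4 (h12 h))⟩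

lemma susp {u v : V} (h : G.Adj u v) {W : Finset V} (hW : ∀ w ∈ W, ¬ G.Adj u w ∧ ¬ G.Adj v w)
    {d : ℤ} (hV : Van K (N1 G (insert u (insert v W))) (d + 1)) : Van K (N1 G W) d := by
  have hu : u ∉ W := fun e => (hW u e).2 h.symm
  have hv : v ∉ W := fun e => (hW v e).1 h
  have hne := h.ne
  have h2 : Van K (fun S => N1 G (insert u (insert v W)) S ∧ u ∈ S) (d + 1 + 1) := by
    refine van_cone v (fun S hS => ?_) _
    unfold N1
    simp only [insert_subset_iff, mem_insert, hne, true_or, or_true, true_and, false_or, not_or]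
    constructor
    · rintro ⟨⟨a, b⟩, c⟩
      refine ⟨⟨a, fun x y h1 h2 h3 h4 hxy => ?_⟩, c⟩
      by_cases hx : x = v
      · subst hx
        rcases h3 with rfl | rfl | h3
        · exact h4 c
        · exact hxy.ne rfl
        · exact (hW y h3).2 hxy
      by_cases hy : y = v
      · subst hy
        rcases h1 with rfl | rfl | h1
        · exact h2 c
        · exact hxy.ne rfl
        · exact (hW x h1).2 hxy.symm
      exact b x y h1 ⟨hx, h2⟩ h3 ⟨hy, h4⟩ hxy
    · rintro ⟨⟨a, b⟩, c⟩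
      exact ⟨⟨a, fun x y h1 h2 h3 h4 => b x y h1 h2.2 h3 h4.2⟩, c⟩
  have h3 := van_sub (cvx_N1 _) (B := fun S => u ∈ S) (fun S T h _ _ h2 => h h2) hV h2
  rw [← van_shift (cvx_N1 W) v (fun S hS e => hv (hS.1 e))]
  refine van_congr h3 (fun S => ?_) rfl
  constructor
  · rintro ⟨⟨a, b⟩, c⟩
    have huS : u ∉ S := fun e => hu (a (by simp [e, hne]))
    refine ⟨⟨fun x hx => ?_, fun x y k1 k2 k3 k4 hxy => ?_⟩, huS⟩
    · by_cases e : x = v
      · simp [e]
      · simp [a (mem_erase.2 ⟨e, hx⟩)]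
    · simp only [mem_insert] at k1 k3
      rcases k1 with rfl | rfl | k1
      · rcases k3 with rfl | rfl | k3
        · exact hxy.ne rfl
        · exact k4 c
        · exact (hW y k3).1 hxy
      · exact k2 c
      · rcases k3 with rfl | rfl | k3
        · exact (hW x k1).1 hxy.symm
        · exact k4 c
        · exact b x y k1 (by simp [k2]) k3 (by simp [k4]) hxy
  · rintro ⟨⟨a, b⟩, c⟩
    have hvS : v ∈ S := by
      by_contra e
      exact b u v (by simp) c (by simp) e h
    refine ⟨⟨fun x hx => ?_, fun x y h1 h2 h3 h4 => ?_⟩, hvS⟩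
    · have := a (mem_erase.1 hx).2
      simp only [mem_insert] at this
      rcases this with rfl | rfl | h'
      · exact absurd (mem_erase.1 hx).2 c
      · simp at hx
      · exact h'
    · refine b x y (by simp [h1]) (fun e => h2 ?_) (by simp [h3]) (fun e => h4 ?_)
      · exact mem_erase.2 ⟨fun e' => hv (e' ▸ h1), e⟩
      · exact mem_erase.2 ⟨fun e' => hv (e' ▸ h3), e⟩

lemma H2_of_H1 {l : ℤ} (h : H1 K G (l + 1)) : H2 K G l := by
  intro u v huv W hW d hd
  have hu : u ∉ W := fun e => (hW u e).2 huv.symm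
  have hv : v ∉ W := fun e => (hW v e).1 huv
  refine susp huv hW (h _ _ ?_)
  rw [card_insert_of_notMem (by simp [hu, huv.ne]), card_insert_of_notMem hv]
  push_cast; omega

lemma comp_bound {Ω : Type} [DecidableEq Ω] (π : Ω → V) {l : ℤ} (h2 : H2 K G l) :
    ∀ (n : ℕ) (B : Finset Ω), B.card = n → B.Nonempty →
      (∀ b ∈ B, ∃ b' ∈ B, G.Adj (π b) (π b')) →
      ∃ c : ℕ, Comp (fun w w' => G.Adj (π w) (π w')) B c ∧ ∀ W : Finset V,
        (∀ w ∈ W, ∀ b ∈ B, ¬ G.Adj (π b) w) → ∀ d : ℤ, l - c + 1 < W.card - d →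
          Van K (N1 G W) d := by
  classical
  intro n
  induction n using Nat.strong_induction_on with
  | _ n ih =>
  intro B hn hB hiso
  set r : Ω → Ω → Prop := fun w w' => G.Adj (π w) (π w') with hr
  let Ext : Finset Ω → Prop := fun C => C.Nonempty ∧
    ∀ B' c, Disjoint C B' → Comp r B' c → Comp r (C ∪ B') (c + 1)
  obtain ⟨b0, hb0⟩ := hB
  obtain ⟨C, hC, hmax⟩ := Finset.exists_max_image (B.powerset.filter Ext) card ⟨{b0}, by
    simp only [mem_filter, mem_powerset, singleton_subset_iff, hb0, true_and]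
    refine ⟨singleton_nonempty _, fun B' c hd hc => ?_⟩
    rw [singleton_union]
    exact Comp.new _ _ _ hc (by simpa using hd)⟩
  simp only [mem_filter, mem_powerset] at hC hmax
  obtain ⟨hCB, hCne, hCe⟩ := hC
  have hcl : ∀ v ∈ B, ∀ w ∈ C, r v w → v ∈ C := by
    intro v hv w hw hvw
    by_contra hvC
    have := hmax (insert v C) ⟨insert_subset hv hCB, insert_nonempty _ _, fun B' c hd hc => by
      rw [insert_union]
      rw [disjoint_insert_left] at hd
      exact Comp.adj _ _ v w (hCe B' c hd.2 hc) (by simp [hvC, hd.1]) (by simp [hw]) hvw⟩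
    rw [card_insert_of_notMem hvC] at this
    omega
  obtain ⟨u, hu⟩ := hCne
  obtain ⟨v, hvB, huv⟩ := hiso u (hCB hu)
  have hv : v ∈ C := hcl v hvB u hu huv.symm
  by_cases he : B \ C = ∅
  · have hBC : B = C := Subset.antisymm (sdiff_eq_empty_iff_subset.1 he) hCB
    refine ⟨1, ?_, fun W hW d hd => ?_⟩
    · have := hCe ∅ 0 (by simp) Comp.nil
      rw [union_empty] at this
      rw [hBC]; exact this
    · exact h2 _ _ huv W (fun w hw => ⟨hW w hw u (hCB hu), hW w hw v hvB⟩) d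
        (by push_cast at hd; omega)
  · obtain ⟨c, hc1, hc2⟩ := ih (B \ C).card (by
      rw [← hn]
      exact card_lt_card (sdiff_ssubset hCB ⟨u, hu⟩)) (B \ C) rfl (nonempty_iff_ne_empty.2 he) (by
      intro b hb
      obtain ⟨b', hb', h⟩ := hiso b (mem_sdiff.1 hb).1
      exact ⟨b', mem_sdiff.2 ⟨hb', fun e => (mem_sdiff.1 hb).2 (hcl b (mem_sdiff.1 hb).1 b' e h)⟩,
        h⟩)
    refine ⟨c + 1, ?_, fun W hW d hd => ?_⟩
    · have := hCe (B \ C) c disjoint_sdiff hc1
      rwa [union_sdiff_of_subset hCB] at this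
    · have hW' : ∀ w ∈ W, ¬ G.Adj (π u) w ∧ ¬ G.Adj (π v) w :=
        fun w hw => ⟨hW w hw u (hCB hu), hW w hw v hvB⟩
      have h1 : π u ∉ W := fun e => (hW' _ e).2 huv.symm
      have h3 : π v ∉ W := fun e => (hW' _ e).1 huv
      refine susp huv hW' (hc2 _ ?_ _ ?_)
      · intro w hw b hb
        simp only [mem_insert, mem_sdiff] at hw hb
        rcases hw with rfl | rfl | hw
        · exact fun e => hb.2 (hcl b hb.1 u hu e)
        · exact fun e => hb.2 (hcl b hb.1 v hv e)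
        · exact hW w hw b hb.1
      · rw [card_insert_of_notMem (by simp [h1, huv.ne]), card_insert_of_notMem h3]
        push_cast at hd ⊢; omega

end main

section tokens
variable {V : Type} [LinearOrder V] [Fintype V] {K : Type} [CommRing K] (G : SimpleGraph V)
  {Ω : Type} [LinearOrder Ω] [Fintype Ω] {T : Type} [DecidableEq T] [Fintype T]
  (f : V ↪o Ω) (z y : T → Ω) (π : Ω → V) (W : Finset V)

/-- The complement in `W` is independent. -/
def Ind (S : Finset Ω) : Prop := ∀ u v, u ∈ W → f u ∉ S → v ∈ W → f v ∉ S → ¬ G.Adj u v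

/-- The token `t` lies over a neighbour of the complement. -/
def YF (S : Finset Ω) (t : T) : Prop := ∃ v, (v ∈ W ∧ f v ∉ S) ∧ G.Adj (π (z t)) v

open Classical in
/-- The current set of tokens. -/
noncomputable def Zs (P Q : Finset T) (S : Finset Ω) : Finset Ω :=
  (univ.filter (fun t => (t ∈ P ∧ z t ∈ S) ∨ (t ∉ Q ∧ ¬ YF G f z π W S t))).image z

/-- The family after processing the tokens in `P`. -/
def MM (s : ℤ) (P : Finset T) (S : Finset Ω) : Prop :=
  (S ⊆ W.image f ∪ P.image z ∪ P.image y ∧ ∀ t ∈ P, ¬ (z t ∈ S ∧ y t ∈ S)) ∧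
  (Ind G f W S ∧ ∀ t ∈ P, YF G f z π W S t → y t ∈ S) ∧
  s ≤ ee (fun w w' => G.Adj (π w) (π w')) (Zs G f z π W P P S)

variable {G f z y π W}

omit [Fintype V] [Fintype Ω] in
lemma Ind.mono {S S' : Finset Ω} (h : S ⊆ S') (h1 : Ind G f W S) : Ind G f W S' :=
  fun u v a b c d => h1 u v a (fun e => b (h e)) c (fun e => d (h e))

omit [Fintype V] [Fintype Ω] [DecidableEq T] [Fintype T] in
lemma YF.anti {S S' : Finset Ω} (h : S ⊆ S') {t : T} (h1 : YF G f z π W S' t) :
    YF G f z π W S t := by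
  obtain ⟨v, ⟨a, b⟩, c⟩ := h1
  exact ⟨v, ⟨a, fun e => b (h e)⟩, c⟩

omit [Fintype V] [Fintype Ω] in
lemma mem_Zs {P Q : Finset T} {S : Finset Ω} {w : Ω} : w ∈ Zs G f z π W P Q S ↔
    ∃ t, ((t ∈ P ∧ z t ∈ S) ∨ (t ∉ Q ∧ ¬ YF G f z π W S t)) ∧ z t = w := by
  simp [Zs]

omit [Fintype V] [Fintype Ω] in
lemma Zs_mono {P Q : Finset T} {S S' : Finset Ω} (h : S ⊆ S') :
    Zs G f z π W P Q S ⊆ Zs G f z π W P Q S' := by
  intro w hw
  rw [mem_Zs] at hw ⊢
  obtain ⟨t, h1, h2⟩ := hw
  exact ⟨t, h1.imp (fun a => ⟨a.1, h a.2⟩) (fun a => ⟨a.1, fun e => a.2 (e.anti h)⟩), h2⟩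

omit [Fintype V] [Fintype Ω] in
lemma Ind_insert {S : Finset Ω} {w : Ω} (hw : ∀ v, f v ≠ w) :
    Ind G f W (insert w S) ↔ Ind G f W S := by
  simp [Ind, hw]

omit [Fintype V] [Fintype Ω] [DecidableEq T] [Fintype T] in
lemma YF_insert {S : Finset Ω} {w : Ω} (hw : ∀ v, f v ≠ w) (t : T) :
    YF G f z π W (insert w S) t ↔ YF G f z π W S t := by
  simp [YF, hw]

omit [Fintype V] [Fintype Ω] in
lemma Zs_insert {P Q : Finset T} {S : Finset Ω} {w : Ω} (hw : ∀ v, f v ≠ w)
    (hw2 : ∀ t ∈ P, z t ≠ w) : Zs G f z π W P Q (insert w S) = Zs G f z π W P Q S := by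
  ext a
  simp only [mem_Zs, YF_insert hw, mem_insert]
  refine exists_congr fun t => and_congr_left fun _ => or_congr_left ?_
  have := hw2 t
  tauto

omit [Fintype V] in
lemma MM_step (hz : Function.Injective z) (hy : Function.Injective y) (hfz : ∀ v t, f v ≠ z t)
    (hfy : ∀ v t, f v ≠ y t) (hzy : ∀ t t', z t ≠ y t') (s : ℤ) (P : Finset T) (t0 : T)
    (ht0 : t0 ∉ P) (d : ℤ) (h : Van K (MM G f z y π W s (insert t0 P)) (d + 1)) :
    Van K (MM G f z y π W s P) d := by
  set r : Ω → Ω → Prop := fun w w' => G.Adj (π w) (π w') with hr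
  have hrs : ∀ a b, r a b → r b a := fun a b h => h.symm
  have z0 : ∀ t ∈ P, z t ≠ z t0 := fun t ht e => ht0 (hz e ▸ ht)
  have y0 : ∀ t ∈ P, y t ≠ y t0 := fun t ht e => ht0 (hy e ▸ ht)
  let Pd : Finset Ω → Prop := fun S =>
    S ⊆ W.image f ∪ (insert t0 P).image z ∪ (insert t0 P).image y ∧ ∀ t ∈ P, ¬ (z t ∈ S ∧ y t ∈ S)
  let U : Finset Ω → Prop := fun S => Ind G f W S ∧ ∀ t ∈ P, YF G f z π W S t → y t ∈ S
  let A : Finset Ω → Prop := fun S => U S ∧ s ≤ ee r (Zs G f z π W P (insert t0 P) S)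
  let B : Finset Ω → Prop := fun S => U S ∧ ¬ YF G f z π W S t0 ∧
    s ≤ ee r (insert (z t0) (Zs G f z π W P (insert t0 P) S))
  have hU : Up U := fun S S' h a => ⟨a.1.mono h, fun t ht b => h (a.2 t ht (b.anti h))⟩
  have Uz : ∀ w, (∀ v, f v ≠ w) → (∀ t ∈ P, y t ≠ w) → Tog U w := by
    intro w h1 h2 S
    simp only [U, Ind_insert h1, YF_insert h1, mem_insert]
    refine and_congr_right fun _ => forall_congr' fun t => forall_congr' fun ht => ?_
    simp [h2 t ht]
  have Uz1 := Uz (z t0) (fun v => hfz v t0) (fun t _ => (hzy t0 t).symm)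
  have Uz2 := Uz (y t0) (fun v => hfy v t0) y0
  have key := van_cyl (K := K) (P := Pd) (A := A) (B := B) (z := z t0) (y := y t0) (d := d)
    (fun S S' h a => ⟨h.trans a.1, fun t ht b => a.2 t ht ⟨h b.1, h b.2⟩⟩)
    (fun S S' h a => ⟨hU _ _ h a.1, a.2.trans (ee_mono hrs (Zs_mono h))⟩)
    (fun S S' h a => ⟨hU _ _ h a.1, fun e => a.2.1 (e.anti h),
      a.2.2.trans (ee_mono hrs (insert_subset_insert _ (Zs_mono h)))⟩)
    (hzy t0 t0)
    (fun S => by
      simp only [Pd, insert_subset_iff, mem_insert]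
      refine and_congr (by simp) (forall_congr' fun t => forall_congr' fun ht => ?_)
      simp [z0 t ht, (hzy t0 t).symm])
    (fun S => by
      simp only [Pd, insert_subset_iff, mem_insert]
      refine and_congr (by simp) (forall_congr' fun t => forall_congr' fun ht => ?_)
      simp [y0 t ht, hzy t t0])
    (fun S => by simp only [A, Uz1 S, Zs_insert (fun v => hfz v t0) z0])
    (fun S => by simp only [A, Uz2 S, Zs_insert (fun v => hfy v t0) (fun t _ => hzy t t0)])
    (fun S => by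
      simp only [B, Uz1 S, Zs_insert (fun v => hfz v t0) z0, YF_insert (fun v => hfz v t0)])
    (fun S => by
      simp only [B, Uz2 S, Zs_insert (fun v => hfy v t0) (fun t _ => hzy t t0),
        YF_insert (fun v => hfy v t0)])
    (van_congr h (fun S => by
      have e1 : z t0 ∈ S → Zs G f z π W (insert t0 P) (insert t0 P) S =
          insert (z t0) (Zs G f z π W P (insert t0 P) S) := by
        intro hS
        ext a
        simp only [mem_Zs, mem_insert]
        constructor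
        · rintro ⟨t, h1, rfl⟩
          by_cases e : t = t0
          · simp [e]
          · exact Or.inr ⟨t, by tauto, rfl⟩
        · rintro (rfl | ⟨t, h1, rfl⟩)
          · exact ⟨t0, Or.inl ⟨Or.inl rfl, hS⟩, rfl⟩
          · exact ⟨t, by tauto, rfl⟩
      have e2 : z t0 ∉ S → Zs G f z π W (insert t0 P) (insert t0 P) S =
          Zs G f z π W P (insert t0 P) S := by
        intro hS
        ext a
        simp only [mem_Zs, mem_insert]
        refine exists_congr fun t => and_congr_left fun _ => or_congr_left ?_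
        constructor
        · rintro ⟨rfl | h1, h2⟩
          · exact absurd h2 hS
          · exact ⟨h1, h2⟩
        · tauto
      have e3 := ee_insert hrs (Zs G f z π W P (insert t0 P) S) (z t0)
      simp only [MM, Pd, A, B, U, forall_mem_insert]
      by_cases hS : z t0 ∈ S
      · rw [e1 hS]
        constructor
        · rintro ⟨⟨a1, a2⟩, a3, _, a5⟩
          have a6 := a5 fun e => a3 ⟨hS, e⟩
          exact ⟨⟨a1, a3, a2⟩, ⟨a6.1.1, fun e => absurd e a6.2.1, a6.1.2⟩, a6.2.2⟩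
        · rintro ⟨⟨a1, a2, a3⟩, ⟨a4, a5, a6⟩, a7⟩
          exact ⟨⟨a1, a3⟩, a2, fun e => absurd hS e,
            fun e => ⟨⟨a4, a6⟩, fun e' => e (a5 e'), a7⟩⟩
      · rw [e2 hS]
        constructor
        · rintro ⟨⟨a1, a2⟩, a3, a4, a5⟩
          have a6 := a4 hS
          exact ⟨⟨a1, a3, a2⟩, ⟨a6.1.1, fun e => by_contra fun e' => (a5 e').2.1 e, a6.1.2⟩, a6.2⟩
        · rintro ⟨⟨a1, a2, a3⟩, ⟨a4, a5, a6⟩, a7⟩
          exact ⟨⟨a1, a3⟩, a2, fun _ => ⟨⟨a4, a6⟩, a7⟩,
            fun e => ⟨⟨a4, a6⟩, fun e' => e (a5 e'), a7.trans e3⟩⟩) rfl)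
  refine van_congr key (fun S => ?_) rfl
  have e1 : YF G f z π W S t0 → Zs G f z π W P P S = Zs G f z π W P (insert t0 P) S := by
    intro hS
    ext a
    simp only [mem_Zs, mem_insert]
    refine exists_congr fun t => and_congr_left fun _ => or_congr_right ?_
    constructor
    · rintro ⟨h1, h2⟩
      refine ⟨?_, h2⟩
      rintro (rfl | e)
      · exact h2 hS
      · exact h1 e
    · tauto
  have e2 : ¬ YF G f z π W S t0 → Zs G f z π W P P S =
      insert (z t0) (Zs G f z π W P (insert t0 P) S) := by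
    intro hS
    ext a
    simp only [mem_Zs, mem_insert]
    constructor
    · rintro ⟨t, h1, rfl⟩
      by_cases e : t = t0
      · simp [e]
      · exact Or.inr ⟨t, by tauto, rfl⟩
    · rintro (rfl | ⟨t, h1, rfl⟩)
      · exact ⟨t0, Or.inr ⟨ht0, hS⟩, rfl⟩
      · exact ⟨t, by tauto, rfl⟩
  have e3 := ee_insert hrs (Zs G f z π W P (insert t0 P) S) (z t0)
  have e4 : S ⊆ W.image f ∪ P.image z ∪ P.image y ↔
      S ⊆ W.image f ∪ (insert t0 P).image z ∪ (insert t0 P).image y ∧ z t0 ∉ S ∧ y t0 ∉ S := by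
    constructor
    · intro h
      refine ⟨h.trans (by gcongr <;> exact subset_insert _ _), fun e => ?_, fun e => ?_⟩
      · have := h e
        simp only [mem_union, mem_image] at this
        rcases this with (⟨v, _, h1⟩ | ⟨t, h0, h1⟩) | ⟨t, _, h1⟩
        · exact hfz _ _ h1
        · exact z0 t h0 h1
        · exact hzy _ _ h1.symm
      · have := h e
        simp only [mem_union, mem_image] at this
        rcases this with (⟨v, _, h1⟩ | ⟨t, _, h1⟩) | ⟨t, h0, h1⟩
        · exact hfy _ _ h1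
        · exact hzy _ _ h1
        · exact y0 t h0 h1
    · rintro ⟨h, h1, h2⟩ a ha
      have := h ha
      simp only [image_insert, mem_union, mem_insert] at this ⊢
      rcases this with (h3 | rfl | h3) | rfl | h3
      · exact Or.inl (Or.inl h3)
      · exact absurd ha h1
      · exact Or.inl (Or.inr h3)
      · exact absurd ha h2
      · exact Or.inr h3
  simp only [MM, Pd, A, B, U, e4]
  by_cases hS : YF G f z π W S t0
  · rw [e1 hS]
    constructor
    · rintro ⟨⟨⟨a1, a2, a3⟩, a4⟩, a5, a6⟩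
      exact ⟨⟨a1, a4⟩, a2, a3, Or.inl ⟨a5, a6⟩⟩
    · rintro ⟨⟨a1, a2⟩, a3, a4, a5 | a5⟩
      · exact ⟨⟨⟨a1, a3, a4⟩, a2⟩, a5.1, a5.2⟩
      · exact absurd hS a5.2.1
  · rw [e2 hS]
    constructor
    · rintro ⟨⟨⟨a1, a2, a3⟩, a4⟩, a5, a6⟩
      exact ⟨⟨a1, a4⟩, a2, a3, Or.inr ⟨a5, hS, a6⟩⟩
    · rintro ⟨⟨a1, a2⟩, a3, a4, a5 | a5⟩
      · exact ⟨⟨⟨a1, a3, a4⟩, a2⟩, a5.1, a5.2.trans e3⟩
      · exact ⟨⟨⟨a1, a3, a4⟩, a2⟩, a5.1, a5.2.2⟩

end tokens

end Pool.Agent.H538Z
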