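import Mathlib
import Pool.Agent.H538Z.Main

/-!
The combinatorial form of the formula for the regularity of powers of edge ideals, conclusion.
-/

set_option autoImplicit false

namespace Pool.Agent.H538Z

open Finset

section tokens
variable {V : Type} [LinearOrder V] [Fintype V] {K : Type} [CommRing K] {G : SimpleGraph V}
  {Ω : Type} [LinearOrder Ω] [Fintype Ω] {T : Type} [DecidableEq T] [Fintype T]
  {f : V ↪o Ω} {z y : T → Ω} {π : Ω → V} {W : Finset V}

/-- The part of a fibre that does not involve the first copy of the tokens. -/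
def XX (G : SimpleGraph V) (f : V ↪o Ω) (z y : T → Ω) (π : Ω → V) (W : Finset V) (Y : Finset T)
    (S : Finset Ω) : Prop :=
  S ⊆ W.image f ∪ Y.image y ∧ Y.image y ⊆ S ∧ Ind G f W S ∧ ∀ t, YF G f z π W S t → t ∈ Y

omit [Fintype V] [Fintype Ω] [DecidableEq T] [Fintype T] in
lemma cvx_XX (Y : Finset T) : Cvx (XX G f z y π W Y) := fun _ _ _ h12 h23 a c =>
  ⟨h23.trans c.1, a.2.1.trans h12, a.2.2.1.mono h12, fun t h => a.2.2.2 t (h.anti h12)⟩

omit [Fintype T] in
lemma van_XX (hy : Function.Injective y) (hfy : ∀ v t, f v ≠ y t) (Y : Finset T) (W' : Finset V)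
    (hW' : ∀ v, v ∈ W' ↔ v ∈ W ∧ ∀ t, t ∉ Y → ¬ G.Adj (π (z t)) v) (d : ℤ)
    (h : Van K (N1 G W') d) : Van K (XX G f z y π W Y) (d + Y.card + W.card - W'.card) := by
  have hsub : W' ⊆ W := fun v hv => ((hW' v).1 hv).1
  have h1 := (van_map (K := K) f (N1 G W') d).2 h
  have hc : Cvx (fun S' : Finset Ω => ∃ S, N1 G W' S ∧ S' = S.map f.toEmbedding) := by
    rintro _ S2 _ h12 h23 ⟨A, hA, rfl⟩ ⟨C, hC, rfl⟩
    obtain ⟨B, hB, rfl⟩ := Finset.subset_map_iff.1 h23
    exact ⟨B, cvx_N1 W' A B C (Finset.map_subset_map.1 h12) hB hA hC, rfl⟩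
  have h2 := (van_shift_set (K := K) hc (Y.image y ∪ (W \ W').image f) (by
    rintro _ ⟨A, hA, rfl⟩
    rw [disjoint_left]
    intro a ha hb
    obtain ⟨v, hv, rfl⟩ := mem_map.1 ha
    simp only [mem_union, mem_image, mem_sdiff] at hb
    rcases hb with ⟨t, _, e⟩ | ⟨w, hw, e⟩
    · exact hfy v t e.symm
    · have : w = v := f.injective e
      exact hw.2 (this ▸ hA.1 hv)) d).2 h1
  refine van_congr h2 (fun S => ?_) ?_
  · constructor
    · rintro ⟨a1, a2, a3, a4⟩
      have a5 : ∀ v ∈ W, v ∉ W' → f v ∈ S := by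
        intro v hv hv'
        by_contra e
        apply hv'
        rw [hW']
        exact ⟨hv, fun t ht h => ht (a4 t ⟨v, ⟨hv, e⟩, h⟩)⟩
      refine ⟨⟨W'.filter (fun v => f v ∈ S), ⟨filter_subset _ _, ?_⟩, ?_⟩, ?_⟩
      · intro u v b1 b2 b3 b4
        exact a3 u v (hsub b1) (fun e => b2 (by simp [b1, e])) (hsub b3)
          (fun e => b4 (by simp [b3, e]))
      · ext a
        simp only [mem_sdiff, mem_union, mem_image, mem_map, mem_filter, not_or, not_exists,
          not_and]
        constructor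
        · rintro ⟨b1, b2, b3⟩
          have := a1 b1
          simp only [mem_union, mem_image] at this
          rcases this with ⟨v, hv, rfl⟩ | ⟨t, ht, rfl⟩
          · refine ⟨v, ⟨?_, b1⟩, rfl⟩
            by_contra e
            exact b3 v ⟨hv, e⟩ rfl
          · exact absurd rfl (b2 t ht)
        · rintro ⟨v, ⟨b1, b2⟩, rfl⟩
          refine ⟨b2, fun t _ e => hfy v t e.symm, fun w hw e => ?_⟩
          have : w = v := f.injective e
          exact hw.2 (this ▸ b1)
      · refine union_subset a2 fun a ha => ?_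
        obtain ⟨v, hv, rfl⟩ := mem_image.1 ha
        exact a5 v (mem_sdiff.1 hv).1 (mem_sdiff.1 hv).2
    · rintro ⟨⟨A, hA, e⟩, a2⟩
      have a5 : ∀ v ∈ W, f v ∉ S → v ∈ W' ∧ v ∉ A := by
        intro v hv hS
        refine ⟨?_, fun h => ?_⟩
        · by_contra e'
          exact hS (a2 (mem_union_right _ (mem_image_of_mem _ (mem_sdiff.2 ⟨hv, e'⟩))))
        · have : f v ∈ A.map f.toEmbedding := mem_map_of_mem _ h
          rw [← e] at this
          exact hS (mem_sdiff.1 this).1
      refine ⟨fun a ha => ?_, subset_union_left.trans a2, fun u v b1 b2 b3 b4 => ?_,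
        fun t ⟨v, hv, h⟩ => ?_⟩
      · by_cases hb : a ∈ Y.image y ∪ (W \ W').image f
        · rcases mem_union.1 hb with h | h
          · exact mem_union_right _ h
          · exact mem_union_left _ (image_subset_image sdiff_subset h)
        · have : a ∈ A.map f.toEmbedding := by rw [← e]; exact mem_sdiff.2 ⟨ha, hb⟩
          obtain ⟨v, hv, rfl⟩ := mem_map.1 this
          exact mem_union_left _ (mem_image_of_mem _ (hsub (hA.1 hv)))
      · exact hA.2 u v (a5 u b1 b2).1 (a5 u b1 b2).2 (a5 v b3 b4).1 (a5 v b3 b4).2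
      · by_contra e'
        exact ((hW' v).1 (a5 v hv.1 hv.2).1).2 t e' h
  · rw [card_union_of_disjoint (by
      rw [disjoint_left]
      intro a ha hb
      obtain ⟨t, _, rfl⟩ := mem_image.1 ha
      obtain ⟨v, _, e⟩ := mem_image.1 hb
      exact hfy v t e), card_image_of_injective _ hy, card_image_of_injective _ f.injective,
      card_sdiff_of_subset hsub]
    have := card_le_card hsub
    push_cast [this]
    ring

lemma MM_final (hz : Function.Injective z) (hy : Function.Injective y) (hfz : ∀ v t, f v ≠ z t)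
    (hfy : ∀ v t, f v ≠ y t) (hzy : ∀ t t', z t ≠ y t') (hπ : ∀ t, π (z t) ∈ W) {l : ℤ}
    (h2 : H2 K G l) (s : ℤ) (hs : 0 < s) (d : ℤ) (hd : d < W.card - l - 1 + s) :
    Van K (MM G f z y π W s univ) d := by
  classical
  set r : Ω → Ω → Prop := fun w w' => G.Adj (π w) (π w') with hr
  have hrs : ∀ a b, r a b → r b a := fun a b h => h.symm
  refine van_filter (fun S => univ.filter (fun t => y t ∈ S)) (fun S S' h t ht => by
    simp only [mem_filter, mem_univ, true_and] at ht ⊢; exact h ht) d _ ?_ ?_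
  · rintro S1 S2 S3 h12 h23 ⟨_, a2, a3⟩ ⟨c1, _⟩
    exact ⟨⟨h23.trans c1.1, fun t ht b => c1.2 t ht ⟨h23 b.1, h23 b.2⟩⟩,
      ⟨a2.1.mono h12, fun t ht b => h12 (a2.2 t ht (b.anti h12))⟩,
      a3.trans (ee_mono hrs (Zs_mono h12))⟩
  intro Y
  set B : Finset Ω := (univ \ Y).image z with hB
  have hmB : ∀ a, a ∈ B ↔ ∃ t, t ∉ Y ∧ z t = a := by intro a; simp [hB]
  have hfB : ∀ v, f v ∉ B := fun v h => by
    obtain ⟨t, _, e⟩ := (hmB _).1 h
    exact hfz v t e.symm
  have hyB : ∀ t, y t ∉ B := fun t h => by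
    obtain ⟨t', _, e⟩ := (hmB _).1 h
    exact hzy t' t e
  have hXB : ∀ S, XX G f z y π W Y S → Disjoint S B := by
    intro S hS
    rw [disjoint_left]
    intro a ha hb
    rcases mem_union.1 (hS.1 ha) with h | h
    · obtain ⟨v, _, rfl⟩ := mem_image.1 h
      exact hfB v hb
    · obtain ⟨v, _, rfl⟩ := mem_image.1 h
      exact hyB v hb
  have hiff : ∀ S, (MM G f z y π W s univ S ∧ univ.filter (fun t => y t ∈ S) = Y) ↔
      PU r (XX G f z y π W Y) s ∅ B S := by
    intro S
    have e1 : Ind G f W (S \ B) ↔ Ind G f W S := by simp [Ind, hfB]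
    have e2 : ∀ t, YF G f z π W (S \ B) t ↔ YF G f z π W S t := by simp [YF, hfB]
    have e3 : (∀ t, z t ∈ S → t ∉ Y) → Zs G f z π W univ univ S = S ∩ B := by
      intro h
      ext a
      simp only [mem_Zs, mem_univ, true_and, not_true, false_and, or_false, mem_inter, hmB]
      constructor
      · rintro ⟨t, h1, rfl⟩; exact ⟨h1, t, h t h1, rfl⟩
      · rintro ⟨h1, t, _, rfl⟩; exact ⟨t, h1, rfl⟩
    unfold PU XX MM
    rw [empty_union, e1]
    simp only [e2]
    constructor
    · rintro ⟨⟨⟨a1, a2⟩, ⟨a3, a4⟩, a5⟩, a6⟩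
      have a7 : ∀ t, t ∈ Y ↔ y t ∈ S := by intro t; rw [← a6]; simp
      have a8 : ∀ t, z t ∈ S → t ∉ Y := fun t h h' => a2 t (mem_univ _) ⟨h, (a7 t).1 h'⟩
      rw [e3 a8] at a5
      refine ⟨⟨fun a ha => ?_, fun a ha => ?_, a3, fun t h => (a7 t).2 (a4 t (mem_univ _) h)⟩, a5⟩
      · obtain ⟨b1, b2⟩ := mem_sdiff.1 ha
        have := a1 b1
        simp only [mem_union] at this ⊢
        rcases this with (h | h) | h
        · exact Or.inl h
        · obtain ⟨t, _, rfl⟩ := mem_image.1 h
          exact absurd ((hmB _).2 ⟨t, a8 t b1, rfl⟩) b2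
        · obtain ⟨t, _, rfl⟩ := mem_image.1 h
          exact Or.inr (mem_image_of_mem _ ((a7 t).2 b1))
      · obtain ⟨t, ht, rfl⟩ := mem_image.1 ha
        exact mem_sdiff.2 ⟨(a7 t).1 ht, hyB t⟩
    · rintro ⟨⟨a1, a2, a3, a4⟩, a5⟩
      have a7 : ∀ t, t ∈ Y ↔ y t ∈ S := by
        intro t
        constructor
        · intro h; exact (mem_sdiff.1 (a2 (mem_image_of_mem _ h))).1
        · intro h
          rcases mem_union.1 (a1 (mem_sdiff.2 ⟨h, hyB t⟩)) with h' | h'
          · obtain ⟨v, _, e⟩ := mem_image.1 h'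
            exact absurd e (hfy v t)
          · obtain ⟨v, hv, e⟩ := mem_image.1 h'
            exact hy e ▸ hv
      have a8 : ∀ t, z t ∈ S → z t ∈ B := by
        intro t h
        by_contra e'
        rcases mem_union.1 (a1 (mem_sdiff.2 ⟨h, e'⟩)) with h' | h'
        · obtain ⟨v, _, e⟩ := mem_image.1 h'
          exact absurd e (hfz v t)
        · obtain ⟨v, _, e⟩ := mem_image.1 h'
          exact absurd e.symm (hzy t v)
      have a9 : ∀ t, z t ∈ S → t ∉ Y := by
        intro t h
        obtain ⟨t', h1, h2⟩ := (hmB _).1 (a8 t h)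
        exact hz h2 ▸ h1
      rw [e3 a9]
      refine ⟨⟨⟨fun a ha => ?_, fun t _ h => a9 t h.1 ((a7 t).2 h.2)⟩,
        ⟨a3, fun t _ h => (a7 t).1 (a4 t h)⟩, a5⟩, ?_⟩
      · by_cases hb : a ∈ B
        · obtain ⟨t, _, rfl⟩ := (hmB _).1 hb
          simp
        · rcases mem_union.1 (a1 (mem_sdiff.2 ⟨ha, hb⟩)) with h | h
          · exact mem_union_left _ (mem_union_left _ h)
          · obtain ⟨t, _, rfl⟩ := mem_image.1 h
            simp
      · ext t; simp [a7]
  refine van_congr (F := PU r (XX G f z y π W Y) s ∅ B) ?_ hiff rfl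
  have hdf : df r (∅ ∪ ∅ : Finset Ω) = 0 := by
    have := mu_le (r := r) (∅ : Finset Ω)
    simp only [card_empty, Nat.le_zero] at this
    simp [df, this]
  by_cases hB0 : B = ∅
  · refine van_of_no fun S hS => ?_
    have := hS.2
    rw [hB0] at this
    have e := mu_le (r := r) (∅ : Finset Ω)
    simp only [card_empty, Nat.le_zero] at e
    simp [ee, e] at this
    omega
  by_cases hiso : ∀ b ∈ B, ∃ b' ∈ B, G.Adj (π b) (π b')
  · obtain ⟨c, hc1, hc2⟩ := comp_bound π h2 _ B rfl (nonempty_iff_ne_empty.2 hB0) hiso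
    refine van_PU hrs (cvx_XX Y) s (Y.card + W.card - (l - c + 1)) (fun e he => ?_) hc1 ∅ ∅
      (by simp) hXB (by simp) d (by rw [hdf]; simp only [card_empty]; omega)
    set W' := W.filter (fun v => ∀ t, t ∉ Y → ¬ G.Adj (π (z t)) v) with hW'
    have := van_XX (K := K) (G := G) (f := f) (z := z) (π := π) (W := W) hy hfy Y W'
      (fun v => by simp [hW']) (e - Y.card - W.card + W'.card) (hc2 W' (by
        intro w hw b hb
        obtain ⟨t, ht, rfl⟩ := (hmB _).1 hb
        exact (mem_filter.1 hw).2 t ht) _ (by omega))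
    exact van_congr this (fun _ => Iff.rfl) (by ring)
  · push Not at hiso
    obtain ⟨b, hb, hiso⟩ := hiso
    obtain ⟨t0, ht0, rfl⟩ := (hmB _).1 hb
    refine van_PU hrs (cvx_XX Y) s (d + 1 - s + B.card) (fun e _ => ?_) (comp_card B) ∅ ∅
      (by simp) hXB (by simp) d (by rw [hdf]; simp only [card_empty]; omega)
    refine van_cone (f (π (z t0))) (fun S hS => ?_) e
    unfold XX
    constructor
    · rintro ⟨a1, a2, a3, a4⟩
      refine ⟨(subset_insert _ _).trans a1, fun a ha => ?_, fun u v b1 b2 b3 b4 huv => ?_,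
        fun t ⟨v, hv, h⟩ => ?_⟩
      · rcases mem_insert.1 (a2 ha) with rfl | h
        · obtain ⟨t, _, e⟩ := mem_image.1 ha
          exact absurd e.symm (hfy _ _)
        · exact h
      · by_cases hu : u = π (z t0)
        · refine ht0 (a4 t0 ⟨v, ⟨b3, ?_⟩, hu ▸ huv⟩)
          simp only [mem_insert, b4, or_false]
          exact fun e => huv.ne (hu.trans (f.injective e).symm)
        by_cases hv : v = π (z t0)
        · refine ht0 (a4 t0 ⟨u, ⟨b1, ?_⟩, hv ▸ huv.symm⟩)
          simp only [mem_insert, b2, or_false]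
          exact fun e => hu (f.injective e)
        exact a3 u v b1 (by simp [b2, hu]) b3 (by simp [b4, hv]) huv
      · by_contra e'
        by_cases hv' : v = π (z t0)
        · exact hiso (z t) ((hmB _).2 ⟨t, e', rfl⟩) (hv' ▸ h.symm)
        · exact e' (a4 t ⟨v, ⟨hv.1, by simp [hv.2, hv']⟩, h⟩)
    · rintro ⟨a1, a2, a3, a4⟩
      exact ⟨insert_subset (mem_union_left _ (mem_image_of_mem _ (hπ t0))) a1,
        a2.trans (subset_insert _ _), a3.mono (subset_insert _ _),
        fun t h => a4 t (h.anti (subset_insert _ _))⟩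

omit [Fintype V] in
lemma MM_all (hz : Function.Injective z) (hy : Function.Injective y) (hfz : ∀ v t, f v ≠ z t)
    (hfy : ∀ v t, f v ≠ y t) (hzy : ∀ t t', z t ≠ y t') (s : ℤ) (P : Finset T) :
    ∀ d : ℤ, Van K (MM G f z y π W s P) (d + P.card) → Van K (MM G f z y π W s ∅) d := by
  induction P using Finset.induction_on with
  | empty => intro d h; simpa using h
  | insert t P ht ih =>
    intro d h
    refine ih d (MM_step hz hy hfz hfy hzy s P t ht _ (van_congr h (fun _ => Iff.rfl) ?_))
    rw [card_insert_of_notMem ht]; push_cast; ring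

omit [Fintype V] [Fintype Ω] in
lemma MM_zero (hz : Function.Injective z) (a : V → ℕ) (ha : ∀ x, cnt π (univ.image z) x = a x)
    (h0 : ∀ x, x ∉ W → a x = 0) (q N : ℕ) (hN : q ≤ N) (τ : Finset V) :
    ¬ InP G q (fun x => if x ∈ τ then a x else if x ∈ W then N else 0) ↔
      Ind G f W (τ.map f.toEmbedding) ∧ 2 * (Fintype.card T : ℤ) - 2 * q + 2 ≤
        ee (fun w w' => G.Adj (π w) (π w')) (Zs G f z π W ∅ ∅ (τ.map f.toEmbedding)) := by
  classical
  set r : Ω → Ω → Prop := fun w w' => G.Adj (π w) (π w') with hr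
  set S := τ.map f.toEmbedding with hS
  have hfS : ∀ v, f v ∈ S ↔ v ∈ τ := fun v => by simp [hS]
  set F : V → Prop := fun v => v ∈ W ∧ v ∉ τ with hF
  set Y := (univ.image z).filter (fun w => ∃ v, F v ∧ G.Adj (π w) v) with hY
  have hZ : Zs G f z π W ∅ ∅ S = (univ.image z).filter (fun w => ¬ ∃ v, F v ∧ G.Adj (π w) v) := by
    ext w
    simp only [mem_Zs, YF, hfS, hF, mem_filter, mem_image, mem_univ, true_and, notMem_empty,
      false_and, false_or, not_false_eq_true]
    constructor
    · rintro ⟨t, h, rfl⟩; exact ⟨⟨t, rfl⟩, h⟩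
    · rintro ⟨⟨t, rfl⟩, h⟩; exact ⟨t, h, rfl⟩
  set Z := Zs G f z π W ∅ ∅ S with hZ'
  have hcard : Y.card + Z.card = Fintype.card T := by
    rw [hZ, hY, card_filter_add_card_filter_not, card_image_of_injective _ hz, card_univ]
  have hcY : ∀ x, (∃ v, F v ∧ G.Adj x v) → cnt π Y x = a x := by
    intro x hx
    rw [← ha x, hY]
    unfold cnt
    rw [filter_filter]
    congr 1
    refine filter_congr fun w _ => ⟨fun h => h.2, fun h => ⟨h ▸ hx, h⟩⟩
  have hcZ : ∀ x, ¬ (∃ v, F v ∧ G.Adj x v) → cnt π Z x = a x := by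
    intro x hx
    rw [← ha x, hZ]
    unfold cnt
    rw [filter_filter]
    congr 1
    refine filter_congr fun w _ => ⟨fun h => h.2, fun h => ⟨h ▸ hx, h⟩⟩
  have hInd : Ind G f W S ↔ ∀ u v, F u → F v → ¬ G.Adj u v := by
    simp only [Ind, hfS, hF]
    exact ⟨fun h u v a b => h u v a.1 a.2 b.1 b.2, fun h u v a b c d => h u v ⟨a, b⟩ ⟨c, d⟩⟩
  have heven := mu_even (r := r) Z
  rw [hInd]
  unfold ee
  constructor
  · intro h
    refine ⟨fun u v hu hv huv => h (InP.edge huv q (by simp [hu.1, hu.2, hN])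
      (by simp [hv.1, hv.2, hN])), ?_⟩
    by_contra hc
    apply h
    obtain ⟨M, hM1, hM2, hM3⟩ := exists_mu (r := r) Z
    obtain ⟨k, hk⟩ := heven
    have h1 := (hM2.inP k (by omega)).add_tok (π := π) F Y (fun w hw => (mem_filter.1 hw).2)
    refine ((h1.down (j' := q) (by omega)).cap).mono fun x => ?_
    have h2 : cnt π M x + cnt π Y x ≤ a x := by
      rw [← ha x]
      unfold cnt
      rw [← card_union_of_disjoint (by
        rw [disjoint_left]
        intro w h1 h2
        have := hM1 (mem_filter.1 h1).1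
        rw [hZ] at this
        exact (mem_filter.1 this).2 (mem_filter.1 (mem_filter.1 h2).1).2), ← filter_union]
      refine card_le_card (filter_subset_filter _ (union_subset (hM1.trans ?_) ?_))
      · rw [hZ]; exact filter_subset _ _
      · exact filter_subset _ _
    have := h0 x
    by_cases h3 : x ∈ τ
    · simp only [hF, h3, not_true, and_false, if_true, if_false]; omega
    · by_cases h4 : x ∈ W
      · simp only [h3, h4, if_true, if_false]; omega
      · simp only [hF, h3, h4, false_and, if_false]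
        have := h0 x h4
        omega
  · rintro ⟨h1, h2⟩ h
    have := h.tok (π := π) F Y Z (by
      intro x hx
      rw [hcY x hx]
      obtain ⟨v, hv, hxv⟩ := hx
      by_cases h3 : x ∈ τ
      · simp [h3]
      · by_cases h4 : x ∈ W
        · exact absurd hxv (h1 x v ⟨h4, h3⟩ hv)
        · simp [h3, h4]) (by
      intro x hx hx'
      rw [hcZ x hx']
      by_cases h3 : x ∈ τ
      · simp [h3]
      · by_cases h4 : x ∈ W
        · exact absurd ⟨h4, h3⟩ hx
        · simp [h3, h4])
    rw [← hr] at this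
    omega

lemma upper_tok (hz : Function.Injective z) (hy : Function.Injective y) (hfz : ∀ v t, f v ≠ z t)
    (hfy : ∀ v t, f v ≠ y t) (hzy : ∀ t t', z t ≠ y t') (hπ : ∀ t, π (z t) ∈ W)
    (a : V → ℕ) (ha' : ∀ x, (univ.filter (fun t => π (z t) = x)).card = a x)
    (h0 : ∀ x, x ∉ W → a x = 0) (q N : ℕ) (hN : q ≤ N) (hq : q ≤ Fintype.card T) {l : ℤ} (h2 : H2 K G l) (d : ℤ)
    (hd : l + 2 * q - 1 < W.card + Fintype.card T - d) :
    Van K (NF (InP G q) W a (fun x => if x ∈ W then N else 0)) d := by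
  have ha : ∀ x, cnt π (univ.image z) x = a x := by
    intro x
    unfold cnt
    rw [filter_image, card_image_of_injective _ hz, ha' x]
  have h1 := MM_all (K := K) (G := G) (π := π) (W := W) hz hy hfz hfy hzy
    (2 * (Fintype.card T : ℤ) - 2 * q + 2) univ d
    (MM_final hz hy hfz hfy hzy hπ h2 _ (by omega) _ (by rw [card_univ]; omega))
  rw [← van_map f]
  refine van_congr h1 (fun S => ?_) rfl
  unfold MM NF
  simp only [image_empty, union_empty, notMem_empty, false_implies, implies_true, and_true]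
  constructor
  · rintro ⟨τ, ⟨h3, h4⟩, rfl⟩
    refine ⟨?_, (MM_zero hz a ha h0 q N hN τ).1 h4⟩
    intro w hw
    obtain ⟨v, hv, rfl⟩ := mem_map.1 hw
    exact mem_image_of_mem _ (h3 hv)
  · rintro ⟨h3, h4⟩
    have : S ⊆ W.map f.toEmbedding := by rw [map_eq_image]; exact h3
    obtain ⟨τ, hτ, rfl⟩ := Finset.subset_map_iff.1 this
    exact ⟨τ, ⟨hτ, (MM_zero hz a ha h0 q N hN τ).2 h4⟩, rfl⟩

end tokens

section thm
variable {V : Type} [LinearOrder V] [Fintype V] {K : Type} [CommRing K] {G : SimpleGraph V}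

omit [Fintype V] in
lemma NF_small {W : Finset V} {a : V → ℕ} {q N : ℕ} (hN : q ≤ N) (ha : ∑ x ∈ W, a x < q)
    (τ : Finset V) : NF (InP G q) W a (fun x => if x ∈ W then N else 0) τ ↔ N1 G W τ := by
  unfold NF N1
  refine and_congr_right fun hτ => ⟨fun h u v a1 a2 a3 a4 huv => h (InP.edge huv q
    (by simp [a1, a2, hN]) (by simp [a3, a4, hN])), fun h h' => ?_⟩
  have h1 := h'.cover τ (by
    intro u v huv b1 b2
    by_contra hc
    push Not at hc
    simp only [hc.1, hc.2, if_false] at b1 b2
    refine h u v ?_ hc.1 ?_ hc.2 huv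
    · by_contra e; simp [e] at b1
    · by_contra e; simp [e] at b2)
  have h2 : ∑ x ∈ τ, (if x ∈ τ then a x else if x ∈ W then N else 0) = ∑ x ∈ τ, a x :=
    Finset.sum_congr rfl fun x hx => by simp [hx]
  have h3 := Finset.sum_le_sum_of_subset (f := a) hτ
  beta_reduce at h1
  omega

/-- An order embedding from a strictly monotone map. -/
def mkEmb {A B : Type} [LinearOrder A] [LinearOrder B] (g : A → B)
    (h : ∀ a b, a < b → g a < g b) : A ↪o B := OrderEmbedding.ofStrictMono g h

lemma mkEmb_apply {A B : Type} [LinearOrder A] [LinearOrder B] (g : A → B)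
    (h : ∀ a b, a < b → g a < g b) (a : A) : mkEmb g h a = g a := rfl

theorem regC_upper {q : ℕ} {R : ℤ} (h1 : H1 K G (R - q + 1)) (h2 : H2 K G (R - 2 * q + 1)) :
    RegC K (InP G q) R := by
  classical
  refine regC_of_deg (fun b b' h hb => hb.mono h) q R fun W N hN a h0 d hd => ?_
  have hsum : ∑ x ∈ W, ((a x : ℤ) + 1) = (∑ x ∈ W, a x : ℕ) + W.card := by
    rw [Finset.sum_add_distrib]; simp
  rw [hsum] at hd
  by_cases hq : ∑ x ∈ W, a x < q
  · exact van_congr (h1 W d (by omega)) (NF_small hN hq) rfl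
  let T := Σ x : V, Fin (a x)
  have hT : Fintype.card T = ∑ x ∈ W, a x := by
    simp only [T, Fintype.card_sigma, Fintype.card_fin]
    exact (Finset.sum_subset (subset_univ _) fun x _ hx => h0 x hx).symm
  let e := Fintype.equivFin (T × Bool)
  let Ω := V ⊕ₗ Fin (Fintype.card (T × Bool))
  let f := mkEmb (B := Ω) (fun v : V => toLex (Sum.inl v))
    (fun a b h => Sum.Lex.inl_lt_inl_iff.2 h)
  let π : Ω → V := fun w => Sum.elim id (fun p => (e.symm p).1.1) (ofLex w)
  refine upper_tok (Ω := Ω) (T := T) (f := f) (z := fun t => toLex (Sum.inr (e (t, true))))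
    (y := fun t => toLex (Sum.inr (e (t, false)))) (π := π) ?_ ?_ ?_ ?_ ?_ ?_ a ?_ h0 q N hN
    (by omega) h2 d (by rw [hT]; omega)
  · intro t t' h; simpa using h
  · intro t t' h; simpa using h
  · intro v t h; simp [f, mkEmb_apply] at h
  · intro v t h; simp [f, mkEmb_apply] at h
  · intro t t' h; simp at h
  · rintro ⟨x, i⟩
    simp only [π, ofLex_toLex, Sum.elim_inr, Equiv.symm_apply_apply]
    by_contra e
    have := h0 x e
    have := i.2
    omega
  · intro x
    have : (univ.filter fun t : T => π (toLex (Sum.inr (e (t, true)))) = x) =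
        univ.map ⟨Sigma.mk x, sigma_mk_injective⟩ := by
      ext ⟨y, i⟩
      simp only [π, mem_filter, mem_univ, true_and, ofLex_toLex, Sum.elim_inr, mem_map,
        Function.Embedding.coeFn_mk, Equiv.symm_apply_apply]
      constructor
      · rintro rfl; exact ⟨i, rfl⟩
      · rintro ⟨j, h⟩; exact (congrArg Sigma.fst h).symm
    rw [this]; simp

theorem H1_of_regC {q : ℕ} (hq : 1 ≤ q) {R : ℤ} (h : RegC K (InP G q) R) (hR : (q : ℤ) ≤ R + 1) :
    H1 K G (R - q + 1) := by
  intro W d hd
  by_cases hW : W = ∅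
  · refine van_of_no fun S hS => ?_
    subst hW
    simp only [card_empty] at hd
    omega
  obtain ⟨x, hx⟩ := nonempty_iff_ne_empty.2 hW
  have hs : ∑ y ∈ W, (if y = x then q - 1 else 0) = q - 1 := by
    rw [Finset.sum_ite_eq', if_pos hx]
  refine van_congr (deg_of_regC (fun b b' h hb => hb.mono h) h W q
    (fun y => if y = x then q - 1 else 0) (fun y hy => by
      rw [if_neg (fun e => hy (by rw [e]; exact hx))]) (fun y => by split_ifs <;> omega) d ?_)
    (fun S => (NF_small (le_refl q) (by omega) S).symm) rfl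
  rw [Finset.sum_add_distrib, ← Nat.cast_sum, hs]
  simp only [sum_const, nsmul_eq_mul, mul_one]
  omega

theorem H2_of_regC {q : ℕ} (hq : 1 ≤ q) {R : ℤ} (h : RegC K (InP G q) R) :
    H2 K G (R - 2 * q + 1) := by
  intro u v huv W hW d hd
  have hu : u ∉ W := fun e => (hW u e).2 huv.symm
  have hv : v ∉ W := fun e => (hW v e).1 huv
  have hne := huv.ne
  refine susp huv hW ?_
  obtain ⟨p, rfl⟩ : ∃ p, q = p + 1 := ⟨q - 1, by omega⟩
  refine van_congr (h (insert u (insert v W)) (fun y => if y = u ∨ y = v then p else 0)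
    (fun y hy => by rw [if_neg (by simp only [mem_insert, not_or] at hy; tauto)]) (d + 1) ?_)
    (fun S => ?_) rfl
  · rw [sum_insert (by simp [hu, hne]), sum_insert hv]
    have : ∑ x ∈ W, (((if x = u ∨ x = v then p else 0 : ℕ) : ℤ) + 1) = W.card := by
      rw [Finset.sum_congr rfl (g := fun _ => 1)]
      · simp
      · intro x hx
        rw [if_neg (by rintro (rfl | rfl) <;> contradiction)]; simp
    rw [this]
    simp only [true_or, or_true, if_true]
    push_cast at hd ⊢; omega
  · unfold N1 NF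
    refine and_congr_right fun hS => ⟨fun h1 h2 => ?_, fun h1 a b a1 a2 b1 b2 hab => h1 ?_⟩
    · have key : ∀ u' v', G.Adj u' v' → u' ∈ S → (u' = u ∨ u' = v) →
          (∀ x, x = u ∨ x = v → x = u' ∨ x = v') → False := by
        intro u' v' _ k2 k3 k4
        have := h2.cover {u'} (by
          intro a b hab b1 b2
          by_contra hc
          simp only [mem_singleton, not_or] at hc
          have k5 : ∀ x, 1 ≤ (if x ∈ S then if x = u ∨ x = v then p else 0 else
              if x ∈ insert u (insert v W) then (if x = u ∨ x = v then p else 0) + 1 else 0) →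
              (x = u ∨ x = v) ∨ (x ∈ W ∧ x ∉ S) := by
            intro x hx
            by_cases e : x = u ∨ x = v
            · exact Or.inl e
            · right
              simp only [e, if_false] at hx
              by_cases e2 : x ∈ S
              · simp [e2] at hx
              · refine ⟨?_, e2⟩
                by_contra e3
                rw [if_neg e2, if_neg (by simp only [mem_insert]; tauto)] at hx
                omega
          rcases k5 a b1 with ka | ka <;> rcases k5 b b2 with kb | kb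
          · have e1 := (k4 a ka).resolve_left hc.1
            have e2 := (k4 b kb).resolve_left hc.2
            exact hab.ne (e1.trans e2.symm)
          · rcases ka with rfl | rfl
            · exact (hW b kb.1).1 hab
            · exact (hW b kb.1).2 hab
          · rcases kb with rfl | rfl
            · exact (hW a ka.1).1 hab.symm
            · exact (hW a ka.1).2 hab.symm
          · exact h1 a b (by simp [ka.1]) ka.2 (by simp [kb.1]) kb.2 hab)
        simp [k2, k3] at this
      by_cases e1 : u ∈ S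
      · exact key u v huv e1 (Or.inl rfl) (fun _ h => h)
      by_cases e2 : v ∈ S
      · exact key v u huv.symm e2 (Or.inr rfl) (fun _ h => h.symm)
      exact h1 u v (by simp) e1 (by simp) e2 huv
    · refine InP.step p _ (fun x => if x = u ∨ x = v then p else 0) a b hab
        (InP.edge huv p (by simp) (by simp)) fun x => ?_
      have := hab.ne
      by_cases e1 : x = a
      · subst e1; simp [a1, a2, this]
      by_cases e2 : x = b
      · subst e2; simp [b1, b2, e1]
      simp only [e1, e2, if_false, add_zero]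
      by_cases e3 : x = u ∨ x = v
      · have : x ∈ insert u (insert v W) := by simp only [mem_insert]; tauto
        simp only [e3, this, if_true]
        split_ifs <;> omega
      · simp [e3]

omit [Fintype V] [LinearOrder V] in
lemma N1_empty (S : Finset V) : N1 G ∅ S ↔ S = ∅ := by simp [N1]

lemma not_van_empty [Nontrivial K] : ¬ Van K (N1 G ∅) 0 := by
  intro h
  obtain ⟨u, hu, hu2⟩ := h (fun S => if S = ∅ then 1 else 0) (by
    intro S hS
    have : S = ∅ := by by_contra e; simp [e] at hS
    subst this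
    simp [N1_empty]) (by
    intro S _
    exact bd_eq_zero _ fun t _ => by simp)
  have h1 := hu2 ∅ (by simp [N1_empty])
  have h2 : D u ∅ = 0 := bd_eq_zero _ fun t _ => by
    by_contra e
    have := (hu _ e).1
    simp [N1_empty] at this
  rw [h2] at h1
  simp at h1

lemma H2_nonneg [Nontrivial K] (hG : ∃ u v, G.Adj u v) {l : ℤ} (h : H2 K G l) : 0 ≤ l := by
  obtain ⟨u, v, huv⟩ := hG
  by_contra hc
  exact not_van_empty (h u v huv ∅ (by simp) 0 (by simp; omega))

/-- The formula for the regularity of the powers of an edge ideal, combinatorial form. -/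
theorem regC_iff [Nontrivial K] (hG : ∃ u v, G.Adj u v) {q : ℕ} (hq : 1 ≤ q) (R : ℤ) :
    RegC K (InP G q) R ↔ H1 K G (R - q + 1) ∧ H2 K G (R - 2 * q + 1) := by
  refine ⟨fun h => ?_, fun h => regC_upper h.1 h.2⟩
  have h2 := H2_of_regC hq h
  have := H2_nonneg hG h2
  exact ⟨H1_of_regC hq h (by omega), h2⟩

end thm

end Pool.Agent.H538Z
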