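import Mathlib

/-!
Definitions: edge ideal, Castelnuovo-Mumford regularity of an ideal, stabilization index.
-/

set_option autoImplicit false

namespace Pool.Agent.H538Z

/-- The edge ideal of a graph: generated by the products `x_i x_j` over the edges. -/
noncomputable def edgeIdeal {V : Type} (K : Type) [Field K] (G : SimpleGraph V) :
    Ideal (MvPolynomial V K) :=
  Ideal.span {f : MvPolynomial V K |
    ∃ i j : V, G.Adj i j ∧ f = MvPolynomial.X i * MvPolynomial.X j}

/-- The ideal `J` has a graded free resolution by free modules of finite rank `b i`, with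
homogeneous generators `g` of `J` and homogeneous matrices `d i`, in which all basis elements of
the `i`-th free module have degree at most `r + i`. -/
def HasRes {V K : Type} [Field K] (J : Ideal (MvPolynomial V K)) (r : ℕ) : Prop :=
  ∃ (b : ℕ → ℕ) (deg : ∀ i : ℕ, Fin (b i) → ℕ) (g : Fin (b 0) → MvPolynomial V K)
    (d : ∀ i : ℕ, Matrix (Fin (b i)) (Fin (b (i + 1))) (MvPolynomial V K)),
    Ideal.span (Set.range g) = J ∧
    (∀ k : Fin (b 0), (g k).IsHomogeneous (deg 0 k)) ∧
    (∀ (i : ℕ) (s : Fin (b i)) (c : Fin (b (i + 1))),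
      d i s c = 0 ∨
        (deg i s ≤ deg (i + 1) c ∧ (d i s c).IsHomogeneous (deg (i + 1) c - deg i s))) ∧
    (∀ v : Fin (b 0) → MvPolynomial V K,
      (∑ k, g k * v k = 0) ↔ ∃ w, Matrix.mulVec (d 0) w = v) ∧
    (∀ (i : ℕ) (v : Fin (b (i + 1)) → MvPolynomial V K),
      Matrix.mulVec (d i) v = 0 ↔ ∃ w, Matrix.mulVec (d (i + 1)) w = v) ∧
    (∀ (i : ℕ) (k : Fin (b i)), deg i k ≤ r + i)

/-- The Castelnuovo-Mumford regularity of the homogeneous ideal `J`: the least `r` such that `J`
has a graded free resolution whose `i`-th module is generated in degrees at most `r + i`. -/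
noncomputable def reg {V K : Type} [Field K] (J : Ideal (MvPolynomial V K)) : ℕ :=
  sInf {r : ℕ | HasRes J r}

/-- The least `q₀ ≥ 1` such that the regularity of `J ^ q` is a linear function of `q` for all
`q ≥ q₀`. -/
noncomputable def stabIndex {V K : Type} [Field K] (J : Ideal (MvPolynomial V K)) : ℕ :=
  sInf {q₀ : ℕ | 1 ≤ q₀ ∧ ∃ a b : ℤ, ∀ q : ℕ, q₀ ≤ q → (reg (J ^ q) : ℤ) = a * q + b}

/-- No two disjoint edges form an induced subgraph. -/
def GapFree {V : Type} (G : SimpleGraph V) : Prop :=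
  ∀ a b c d : V, G.Adj a b → G.Adj c d → a ≠ c → a ≠ d → b ≠ c → b ≠ d →
    G.Adj a c ∨ G.Adj a d ∨ G.Adj b c ∨ G.Adj b d

end Pool.Agent.H538Z
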