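import Mathlib
import Pool.Agent.H538Z.Proc

/-!
Koszul homology of graded pieces: dimension shifting, and the multigraded description for monomial
ideals.
-/

set_option autoImplicit false

namespace Pool.Agent.H538Z

open Finset MvPolynomial

section abstr
variable {ι : Type} [LinearOrder ι] [Fintype ι] {R : Type} [CommRing R]
  {E : Type} [AddCommGroup E] [Module R E] {F : Type} [AddCommGroup F] [Module R F]

/-- Koszul cycles of homological degree `i` with coefficients in `A (p + 1)` are boundaries of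
chains with coefficients in `A p`. -/
def KV (x : ι → R) (A : ℕ → AddSubgroup E) (i p : ℕ) : Prop :=
  ∀ c : Finset ι → E, (∀ T, T.card ≠ i → c T = 0) → (∀ T, c T ∈ A (p + 1)) →
    (∀ S, bd x c S = 0) →
    ∃ g : Finset ι → E, (∀ U, U.card ≠ i + 1 → g U = 0) ∧ (∀ U, g U ∈ A p) ∧
      ∀ T, c T = bd x g T

lemma bd_mem {x : ι → R} {A B : AddSubgroup E} (h : ∀ t, ∀ v ∈ A, x t • v ∈ B)
    {g : Finset ι → E} (hg : ∀ U, g U ∈ A) (T : Finset ι) : bd x g T ∈ B := by
  unfold bd
  refine B.sum_mem fun t _ => ?_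
  rw [mul_smul]
  unfold sgn
  rcases neg_one_pow_eq_or R (T.filter (· < t)).card with e | e
  · rw [e, one_smul]; exact h t _ (hg _)
  · rw [e, neg_one_smul]; exact B.neg_mem (h t _ (hg _))

lemma bd_card (x : ι → R) {g : Finset ι → E} {i : ℕ} (hg : ∀ U, U.card ≠ i + 1 → g U = 0)
    (T : Finset ι) (hT : T.card ≠ i) : bd x g T = 0 :=
  bd_eq_zero x fun t ht => hg _ (by rw [card_insert_of_notMem ht]; omega)

lemma bd_map (x : ι → R) (φ : F →ₗ[R] E) (g : Finset ι → F) (T : Finset ι) :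
    φ (bd x g T) = bd x (fun U => φ (g U)) T := by
  simp [bd, map_sum]

omit [LinearOrder ι] [Fintype ι] in
lemma lift_chain (φ : F →ₗ[R] E) {A : AddSubgroup F} {B : AddSubgroup E}
    (h : ∀ w ∈ B, ∃ v ∈ A, φ v = w) {c : Finset ι → E} {i : ℕ} (hc : ∀ T, T.card ≠ i → c T = 0)
    (hc2 : ∀ T, c T ∈ B) : ∃ c' : Finset ι → F, (∀ T, T.card ≠ i → c' T = 0) ∧
      (∀ T, c' T ∈ A) ∧ ∀ T, φ (c' T) = c T := by
  choose v hv1 hv2 using fun T => h _ (hc2 T)
  refine ⟨fun T => if T.card = i then v T else 0, fun T hT => if_neg hT, fun T => ?_, fun T => ?_⟩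
  · beta_reduce; split_ifs
    · exact hv1 T
    · exact A.zero_mem
  · beta_reduce; split_ifs with e
    · exact hv2 T
    · rw [map_zero, hc T e]

variable {x : ι → R} {φ : F →ₗ[R] E} {AF AN : ℕ → AddSubgroup F} {AM : ℕ → AddSubgroup E}

lemma kv_zero (hM1 : ∀ p, ∀ v ∈ AF p, φ v ∈ AM p) (hM2 : ∀ p, ∀ w ∈ AM p, ∃ v ∈ AF p, φ v = w)
    {p : ℕ} (h : KV x AF 0 p) : KV x AM 0 p := by
  intro c h1 h2 _
  obtain ⟨c', k1, k2, k3⟩ := lift_chain φ (hM2 _) h1 h2
  obtain ⟨g, g1, g2, g3⟩ := h c' k1 k2 fun S => bd_eq_zero x fun t ht => k1 _ (by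
    rw [card_insert_of_notMem ht]; omega)
  exact ⟨fun U => φ (g U), fun U hU => by simp [g1 U hU], fun U => hM1 _ _ (g2 U),
    fun T => by rw [← bd_map, ← g3, k3]⟩

lemma kv_surj (hN : ∀ p v, v ∈ AN p ↔ v ∈ AF p ∧ φ v = 0)
    (hM1 : ∀ p, ∀ v ∈ AF p, φ v ∈ AM p) (hM2 : ∀ p, ∀ w ∈ AM p, ∃ v ∈ AF p, φ v = w)
    (hx : ∀ p t, ∀ v ∈ AF p, x t • v ∈ AF (p + 1)) {i p : ℕ}
    (h1 : KV x AN i (p + 1)) (h2 : KV x AF (i + 1) p) : KV x AM (i + 1) p := by
  intro c c1 c2 c3
  obtain ⟨c', k1, k2, k3⟩ := lift_chain φ (hM2 _) c1 c2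
  obtain ⟨n, n1, n2, n3⟩ := h1 (bd x c') (bd_card x k1) (fun T => (hN _ _).2
    ⟨bd_mem (hx _) k2 T, by rw [bd_map]; simp only [k3]; exact c3 T⟩) (bd_bd x c')
  obtain ⟨g, g1, g2, g3⟩ := h2 (c' - n) (fun T hT => by simp [k1 T hT, n1 T hT])
    (fun T => (AF _).sub_mem (k2 T) ((hN _ _).1 (n2 T)).1) (fun S => by
      rw [bd_sub, n3 S, sub_self])
  refine ⟨fun U => φ (g U), fun U hU => by simp [g1 U hU], fun U => hM1 _ _ (g2 U), fun T => ?_⟩
  rw [← bd_map, ← g3, Pi.sub_apply, map_sub, k3, ((hN _ _).1 (n2 T)).2, sub_zero]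

lemma kv_ker (hN : ∀ p v, v ∈ AN p ↔ v ∈ AF p ∧ φ v = 0)
    (hM1 : ∀ p, ∀ v ∈ AF p, φ v ∈ AM p) (hM2 : ∀ p, ∀ w ∈ AM p, ∃ v ∈ AF p, φ v = w)
    (hx : ∀ p t, ∀ v ∈ AF p, x t • v ∈ AF (p + 1)) {i p : ℕ}
    (h1 : KV x AM (i + 1) p) (h2 : KV x AF i (p + 1)) : KV x AN i (p + 1) := by
  intro c c1 c2 c3
  obtain ⟨g, g1, g2, g3⟩ := h2 c c1 (fun T => ((hN _ _).1 (c2 T)).1) c3
  obtain ⟨m, m1, m2, m3⟩ := h1 (fun U => φ (g U)) (fun U hU => by simp [g1 U hU])
    (fun U => hM1 _ _ (g2 U)) (fun S => by rw [← bd_map, ← g3, ((hN _ _).1 (c2 S)).2])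
  obtain ⟨m', k1, k2, k3⟩ := lift_chain φ (hM2 _) m1 m2
  refine ⟨g - bd x m', fun U hU => by simp [g1 U hU, bd_card x k1 U hU], fun U => (hN _ _).2
    ⟨(AF _).sub_mem (g2 U) (bd_mem (hx _) k2 U), ?_⟩, fun T => ?_⟩
  · rw [Pi.sub_apply, map_sub, bd_map]
    simp only [k3]
    rw [← m3 U, sub_self]
  · rw [bd_sub, bd_bd, sub_zero, g3]

lemma kv_iso (hinj : Function.Injective φ) (hM1 : ∀ p, ∀ v ∈ AF p, φ v ∈ AM p)
    (hM2 : ∀ p, ∀ w ∈ AM p, ∃ v ∈ AF p, φ v = w) {i p : ℕ} : KV x AF i p ↔ KV x AM i p := by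
  constructor
  · intro h c c1 c2 c3
    obtain ⟨c', k1, k2, k3⟩ := lift_chain φ (hM2 _) c1 c2
    obtain ⟨g, g1, g2, g3⟩ := h c' k1 k2 fun S => hinj (by
      rw [bd_map, map_zero]; simp only [k3]; exact c3 S)
    exact ⟨fun U => φ (g U), fun U hU => by simp [g1 U hU], fun U => hM1 _ _ (g2 U),
      fun T => by rw [← bd_map, ← g3, k3]⟩
  · intro h c c1 c2 c3
    obtain ⟨m, m1, m2, m3⟩ := h (fun U => φ (c U)) (fun U hU => by simp [c1 U hU])
      (fun U => hM1 _ _ (c2 U)) (fun S => by rw [← bd_map, c3, map_zero])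
    obtain ⟨m', k1, k2, k3⟩ := lift_chain φ (hM2 _) m1 m2
    exact ⟨m', k1, k2, fun T => hinj (by rw [bd_map]; simp only [k3]; exact m3 T)⟩

end abstr

section multi
variable {V : Type} [LinearOrder V] [Fintype V] {K : Type} [CommRing K]

/-- The exponent vector `b` lowered by one on `τ`. -/
noncomputable def low (b : V →₀ ℕ) (τ : Finset V) : V →₀ ℕ :=
  Finsupp.equivFunOnFinite.symm (fun x => if x ∈ τ then b x - 1 else b x)

/-- The exponent vector `m` raised by one on `τ`. -/
noncomputable def rai (m : V →₀ ℕ) (τ : Finset V) : V →₀ ℕ :=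
  Finsupp.equivFunOnFinite.symm (fun x => if x ∈ τ then m x + 1 else m x)

@[simp] lemma low_apply (b : V →₀ ℕ) (τ : Finset V) (x : V) :
    low b τ x = if x ∈ τ then b x - 1 else b x := rfl

@[simp] lemma rai_apply (b : V →₀ ℕ) (τ : Finset V) (x : V) :
    rai b τ x = if x ∈ τ then b x + 1 else b x := rfl

lemma low_rai (m : V →₀ ℕ) (τ : Finset V) : low (rai m τ) τ = m := by
  ext x; by_cases h : x ∈ τ <;> simp [h]

lemma sub_rai (m : V →₀ ℕ) (τ : Finset V) : τ ⊆ (rai m τ).support := by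
  intro x hx; simp [hx]

lemma rai_low {b : V →₀ ℕ} {τ : Finset V} (h : τ ⊆ b.support) : rai (low b τ) τ = b := by
  ext x
  by_cases hx : x ∈ τ
  · have := Finsupp.mem_support_iff.1 (h hx)
    simp only [rai_apply, low_apply, hx, if_true]; omega
  · simp [hx]

lemma degree_rai (m : V →₀ ℕ) (τ : Finset V) : (rai m τ).degree = m.degree + τ.card := by
  rw [Finsupp.degree_eq_sum, Finsupp.degree_eq_sum]
  have : ∀ x, rai m τ x = m x + if x ∈ τ then 1 else 0 := by
    intro x; by_cases h : x ∈ τ <;> simp [h]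
  simp only [this, Finset.sum_add_distrib]
  simp

lemma low_insert {b : V →₀ ℕ} {S : Finset V} {t : V} (ht : t ∉ S) (hb : t ∈ b.support) :
    Finsupp.single t 1 + low b (insert t S) = low b S := by
  ext x
  have := Finsupp.mem_support_iff.1 hb
  by_cases h : x = t
  · subst h; simp [ht]; omega
  · simp [h]

/-- The upper Koszul complex. -/
def KB (P : (V → ℕ) → Prop) (b : V →₀ ℕ) (τ : Finset V) : Prop := τ ⊆ b.support ∧ P (low b τ)

/-- The elements of `J` of degree `p - δ`. -/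
def AJ (J : Ideal (MvPolynomial V K)) (δ p : ℕ) : AddSubgroup (MvPolynomial V K) where
  carrier := {f | f ∈ J ∧ ∀ m, coeff m f ≠ 0 → m.degree + δ = p}
  zero_mem' := ⟨J.zero_mem, fun m h => absurd rfl h⟩
  add_mem' := by
    rintro a b ⟨a1, a2⟩ ⟨b1, b2⟩
    refine ⟨J.add_mem a1 b1, fun m h => ?_⟩
    by_cases e : coeff m a = 0
    · exact b2 m (by simpa [e] using h)
    · exact a2 m e
  neg_mem' := by
    rintro a ⟨a1, a2⟩
    exact ⟨J.neg_mem a1, fun m h => a2 m (by simpa using h)⟩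

omit [LinearOrder V] [Fintype V] in
lemma mem_AJ {J : Ideal (MvPolynomial V K)} {δ p : ℕ} {f : MvPolynomial V K} :
    f ∈ AJ J δ p ↔ f ∈ J ∧ ∀ m, coeff m f ≠ 0 → m.degree + δ = p := Iff.rfl

omit [Fintype V] in
lemma sgn_C (S : Finset V) (t : V) : sgn (MvPolynomial V K) S t = C (sgn K S t) := by
  simp [sgn]

lemma bd_monomial (b : V →₀ ℕ) {u : Finset V → K} (hu : ∀ τ, u τ ≠ 0 → τ ⊆ b.support)
    (S : Finset V) : bd (X : V → MvPolynomial V K) (fun τ => monomial (low b τ) (u τ)) S =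
      monomial (low b S) (D u S) := by
  unfold D bd
  rw [map_sum]
  refine Finset.sum_congr rfl fun t ht => ?_
  by_cases h : u (insert t S) = 0
  · simp [h]
  · have h1 : t ∈ b.support := hu _ h (by simp)
    rw [← low_insert (by simpa using ht) h1, sgn_C, smul_eq_mul, smul_eq_mul, mul_one, X,
      mul_assoc, monomial_mul, C_mul_monomial, one_mul]

/-- The multigraded part of a Koszul chain. -/
noncomputable def prj (b : V →₀ ℕ) (c : Finset V → MvPolynomial V K) (τ : Finset V) : K :=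
  if τ ⊆ b.support then coeff (low b τ) (c τ) else 0

lemma D_prj (b : V →₀ ℕ) (c : Finset V → MvPolynomial V K) {S : Finset V} (hS : S ⊆ b.support) :
    D (prj b c) S = coeff (low b S) (bd (X : V → MvPolynomial V K) c S) := by
  unfold D bd
  rw [coeff_sum]
  refine Finset.sum_congr rfl fun t ht => ?_
  have ht' : t ∉ S := by simpa using ht
  rw [sgn_C, smul_eq_mul, smul_eq_mul, mul_one, mul_assoc, coeff_C_mul]
  congr 1
  unfold prj
  by_cases h : t ∈ b.support
  · rw [if_pos (insert_subset h hS), ← low_insert ht' h, coeff_X_mul]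
  · rw [if_neg (fun e => h (e (by simp))), coeff_X_mul', if_neg]
    simpa [ht'] using h

lemma KB_dn {P : (V → ℕ) → Prop} (hP : ∀ b b', (∀ x, b x ≤ b' x) → P b → P b') (b : V →₀ ℕ) :
    Dn (KB P b) := by
  rintro S T h ⟨h1, h2⟩
  refine ⟨h.trans h1, hP _ _ (fun x => ?_) h2⟩
  have := @h x
  simp only [low_apply]
  split_ifs <;> first | omega | tauto

lemma D_dn {F : Finset V → Prop} (hF : Dn F) {u : Finset V → K} (hu : ∀ τ, u τ ≠ 0 → F τ)
    {S : Finset V} (hS : ¬ F S) : D u S = 0 :=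
  bd_eq_zero _ fun t _ => by
    by_contra e
    exact hS (hF _ _ (subset_insert _ _) (hu _ e))

lemma supp_prj {P : (V → ℕ) → Prop} {J : Ideal (MvPolynomial V K)}
    (hJ : ∀ f, f ∈ J ↔ ∀ m, coeff m f ≠ 0 → P m) (b : V →₀ ℕ) {c : Finset V → MvPolynomial V K}
    {i : ℕ} (c1 : ∀ T, T.card ≠ i → c T = 0) (c2 : ∀ T, c T ∈ J) :
    Supp (KB P b) (i : ℤ) (prj b c) := by
  intro S hS
  unfold prj at hS
  split_ifs at hS with h
  · refine ⟨⟨h, (hJ _).1 (c2 S) _ hS⟩, ?_⟩
    by_contra e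
    rw [c1 S (fun e' => e (by rw [e']))] at hS
    exact hS rfl
  · exact absurd rfl hS

lemma mono_mem {P : (V → ℕ) → Prop} {J : Ideal (MvPolynomial V K)}
    (hJ : ∀ f, f ∈ J ↔ ∀ m, coeff m f ≠ 0 → P m) {b : V →₀ ℕ} {u : Finset V → K} {i δ p : ℕ}
    (hu : Supp (KB P b) (i : ℤ) u) (hb : b.degree + δ = p + i) (τ : Finset V) :
    monomial (low b τ) (u τ) ∈ AJ J δ p := by
  have key : ∀ m, coeff m (monomial (low b τ) (u τ)) ≠ 0 → m = low b τ ∧ u τ ≠ 0 := by
    intro m hm
    rw [coeff_monomial] at hm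
    split_ifs at hm with e
    · exact ⟨e.symm, hm⟩
    · exact absurd rfl hm
  refine ⟨(hJ _).2 fun m hm => ?_, fun m hm => ?_⟩
  · obtain ⟨rfl, h⟩ := key m hm
    exact (hu _ h).1.2
  · obtain ⟨rfl, h⟩ := key m hm
    have h1 := degree_rai (low b τ) τ
    rw [rai_low (hu _ h).1.1] at h1
    have := (hu _ h).2
    omega

theorem kv_iff {P : (V → ℕ) → Prop} (hP : ∀ b b', (∀ x, b x ≤ b' x) → P b → P b')
    {J : Ideal (MvPolynomial V K)} (hJ : ∀ f, f ∈ J ↔ ∀ m, coeff m f ≠ 0 → P m) (δ i p : ℕ) :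
    KV (X : V → MvPolynomial V K) (AJ J δ) i p ↔
      ∀ b : V →₀ ℕ, b.degree + δ = p + 1 + i → Van K (KB P b) i := by
  classical
  constructor
  · intro h b hb u hu hcyc
    have hu' : ∀ τ, u τ ≠ 0 → τ ⊆ b.support := fun τ e => (hu τ e).1.1
    obtain ⟨g, g1, g2, g3⟩ := h (fun τ => monomial (low b τ) (u τ)) (by
      intro T hT
      have : u T = 0 := by
        by_contra e
        exact hT (by exact_mod_cast (hu T e).2)
      simp [this]) (mono_mem hJ hu hb) (by
      intro S
      rw [bd_monomial b hu']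
      by_cases e : KB P b S
      · simp [hcyc S e]
      · simp [D_dn (KB_dn hP b) (fun τ e => (hu τ e).1) e])
    refine ⟨prj b g, supp_prj hJ b g1 fun T => (g2 T).1, fun S hS => ?_⟩
    rw [D_prj b g hS.1, ← g3]
    simp
  · intro h c c1 c2 c3
    have key : ∀ b : V →₀ ℕ, ∃ u : Finset V → K, b.degree + δ = p + 1 + i →
        Supp (KB P b) ((i + 1 : ℕ) : ℤ) u ∧ ∀ S, D u S = prj b c S := by
      intro b
      by_cases hb : b.degree + δ = p + 1 + i
      · have hs := supp_prj hJ b c1 fun T => (c2 T).1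
        obtain ⟨u, u1, u2⟩ := h b hb (prj b c) hs (fun S hS => by rw [D_prj b c hS.1, c3]; rfl)
        refine ⟨u, fun _ => ⟨u1, fun S => ?_⟩⟩
        by_cases e : KB P b S
        · exact u2 S e
        · rw [D_dn (KB_dn hP b) (fun τ e => (u1 τ e).1) e]
          by_contra e'
          exact e (hs S (Ne.symm e')).1
      · exact ⟨0, fun e => absurd e hb⟩
    choose u hu using key
    set Bs : Finset (V →₀ ℕ) := univ.biUnion (fun τ => (c τ).support.image (fun m => rai m τ))
      with hBs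
    have hdeg : ∀ b ∈ Bs, b.degree + δ = p + 1 + i := by
      intro b hb
      simp only [hBs, mem_biUnion, mem_univ, true_and, mem_image, mem_support_iff] at hb
      obtain ⟨τ, m, hm, rfl⟩ := hb
      have h1 := (c2 τ).2 m hm
      have h2 : τ.card = i := by
        by_contra e
        rw [c1 τ e] at hm
        exact hm rfl
      rw [degree_rai]; omega
    refine ⟨fun τ => ∑ b ∈ Bs, monomial (low b τ) (u b τ), fun U hU => ?_, fun U => ?_,
      fun T => ?_⟩
    · refine Finset.sum_eq_zero fun b hb => ?_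
      have : u b U = 0 := by
        by_contra e
        exact hU (by exact_mod_cast ((hu b (hdeg b hb)).1 U e).2)
      simp [this]
    · exact AddSubgroup.sum_mem _ fun b hb =>
        mono_mem hJ (hu b (hdeg b hb)).1 (by have := hdeg b hb; omega) U
    · have e1 : bd (X : V → MvPolynomial V K) (fun τ => ∑ b ∈ Bs, monomial (low b τ) (u b τ)) T =
          ∑ b ∈ Bs, bd (X : V → MvPolynomial V K) (fun τ => monomial (low b τ) (u b τ)) T := by
        unfold bd
        simp only [Finset.smul_sum]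
        exact Finset.sum_comm
      rw [e1, Finset.sum_congr rfl fun b hb => by
        rw [bd_monomial b (fun τ e => ((hu b (hdeg b hb)).1 τ e).1.1), (hu b (hdeg b hb)).2]]
      ext m
      rw [coeff_sum, Finset.sum_eq_single (rai m T)]
      · simp [prj, low_rai, sub_rai]
      · intro b _ hne
        rw [coeff_monomial]
        unfold prj
        split_ifs with e1 e2
        · exact absurd (by rw [← e1, rai_low e2]) hne
        · rfl
        · rfl
      · intro hn
        have : coeff m (c T) = 0 := by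
          by_contra e
          exact hn (by
            simp only [hBs, mem_biUnion, mem_univ, true_and, mem_image, mem_support_iff]
            exact ⟨T, m, e, rfl⟩)
        simp [prj, low_rai, this]

lemma van_KB_iff {P : (V → ℕ) → Prop} (hP : ∀ b b', (∀ x, b x ≤ b' x) → P b → P b')
    (b : V →₀ ℕ) (hb : b.support.Nonempty) (d : ℤ) :
    Van K (KB P b) d ↔ Van K (fun τ => τ ⊆ b.support ∧ ¬ P (low b τ)) (d + 1) := by
  obtain ⟨x, hx⟩ := hb
  have hc : Cvx (fun τ : Finset V => τ ⊆ b.support) := fun _ _ _ _ h _ h' => h.trans h'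
  have hv : ∀ e, Van K (fun τ : Finset V => τ ⊆ b.support) e := fun e =>
    van_cone x (fun S _ => by simp only [insert_subset_iff, hx, true_and]) e
  have hup : UpIn (fun τ : Finset V => τ ⊆ b.support) (fun τ => ¬ P (low b τ)) :=
    fun S T h _ h2 h3 h4 => h3 (KB_dn hP b S T h ⟨h2, h4⟩).2
  exact ⟨fun h => van_quot hc hup (hv _) (van_congr h (fun S => by simp [KB]) rfl),
    fun h => van_congr (van_sub hc hup (hv _) h) (fun S => by simp [KB]) rfl⟩

theorem kv_all_iff {P : (V → ℕ) → Prop} (hP : ∀ b b', (∀ x, b x ≤ b' x) → P b → P b')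
    {J : Ideal (MvPolynomial V K)} (hJ : ∀ f, f ∈ J ↔ ∀ m, coeff m f ≠ 0 → P m) (r : ℕ) :
    (∀ i p, r + 1 ≤ p → KV (X : V → MvPolynomial V K) (AJ J 0) i p) ↔ RegC K P r := by
  simp only [kv_iff hP hJ]
  constructor
  · intro h W lo h0 d hd
    by_cases hW : W = ∅
    · subst hW
      exact van_of_no fun S _ => by simp only [sum_empty] at hd; omega
    let b : V →₀ ℕ := Finsupp.equivFunOnFinite.symm (fun x => if x ∈ W then lo x + 1 else 0)
    have hb : ∀ x, b x = if x ∈ W then lo x + 1 else 0 := fun _ => rfl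
    have hs : b.support = W := by
      ext x; rw [Finsupp.mem_support_iff, hb]; split_ifs <;> simp [*]
    have hdeg : (b.degree : ℤ) = ∑ x ∈ W, ((lo x : ℤ) + 1) := by
      rw [Finsupp.degree_apply, hs]
      push_cast
      exact Finset.sum_congr rfl fun x hx => by simp [hb, hx]
    have h1 : Van K (KB P b) (d - 1) := by
      by_cases hd0 : d - 1 < 0
      · exact van_of_no fun S _ => by omega
      · obtain ⟨i, hi⟩ := Int.eq_ofNat_of_zero_le (not_lt.1 hd0)
        rw [hi]
        exact h i (b.degree - i - 1) (by omega) b (by omega)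
    rw [van_KB_iff hP b (by rw [hs]; exact nonempty_iff_ne_empty.2 hW), hs] at h1
    refine van_congr h1 (fun S => ?_) (by ring)
    unfold NF
    refine and_congr_right fun hS => ?_
    have : (fun x => if x ∈ S then lo x else if x ∈ W then lo x + 1 else 0) = low b S := by
      funext x
      by_cases e : x ∈ S
      · simp [e, hb, hS e]
      · simp [e, hb]
    rw [this]
  · intro h i p hp b hb
    have hne : b.support.Nonempty := by
      rw [Finsupp.support_nonempty_iff]
      rintro rfl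
      simp at hb
      omega
    rw [van_KB_iff hP b hne]
    refine van_congr (h b.support (fun x => b x - 1) (fun x hx => by
      simp [Finsupp.notMem_support_iff.1 hx]) (i + 1) ?_) (fun S => ?_) rfl
    · have : ∑ x ∈ b.support, (((b x - 1 : ℕ) : ℤ) + 1) = b.degree := by
        rw [Finsupp.degree_apply]
        push_cast
        refine Finset.sum_congr rfl fun x hx => ?_
        have := Finsupp.mem_support_iff.1 hx
        omega
      rw [this]; omega
    · unfold NF
      have : (fun x => if x ∈ S then b x - 1 else if x ∈ b.support then b x - 1 + 1 else 0) =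
          low b S := by
        funext x
        by_cases e : x ∈ S
        · simp [e]
        · by_cases e2 : b x = 0
          · simp [e, e2]
          · simp only [e, Finsupp.mem_support_iff, ne_eq, e2, not_false_eq_true, if_true,
              if_false, low_apply]
            omega
      rw [this]

lemma kv_top (δ i p : ℕ) (h : 1 ≤ i ∨ δ ≤ p) :
    KV (X : V → MvPolynomial V K) (AJ (⊤ : Ideal (MvPolynomial V K)) δ) i p := by
  rw [kv_iff (P := fun _ => True) (J := ⊤) (fun _ _ _ _ => trivial) (fun f => by simp)]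
  intro b hb
  by_cases h0 : b = 0
  · subst h0
    refine van_of_no fun S hS => ?_
    have : S = ∅ := by simpa using hS.1
    subst this
    simp at hb ⊢
    omega
  · obtain ⟨x, hx⟩ := Finsupp.support_nonempty_iff.2 h0
    exact van_cone x (fun S _ => by simp only [KB, insert_subset_iff, hx, true_and]) _

end multi

end Pool.Agent.H538Z
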