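import Mathlib
import Pool.Agent.H538Z.Kos
import Pool.Agent.H538Z.Defs

/-!
Graded free resolutions with bounded degrees exist exactly when the Koszul homology vanishes in
the corresponding degrees.
-/

set_option autoImplicit false

namespace Pool.Agent.H538Z

open Finset MvPolynomial

section res
variable {V : Type} [LinearOrder V] [Fintype V] {K : Type} [Field K]

/-- Homogeneous vectors of degree `p` in the free module with basis degrees `deg`. -/
noncomputable def HV (V K : Type) [Field K] {κ : Type} (deg : κ → ℕ) (p : ℕ) :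
    AddSubgroup (κ → MvPolynomial V K) :=
  AddSubgroup.pi Set.univ (fun k => AJ ⊤ (deg k) p)

omit [LinearOrder V] [Fintype V] in
lemma mem_HV {κ : Type} {deg : κ → ℕ} {p : ℕ} {v : κ → MvPolynomial V K} :
    v ∈ HV V K deg p ↔ ∀ k m, coeff m (v k) ≠ 0 → m.degree + deg k = p := by
  simp [HV, AddSubgroup.mem_pi, mem_AJ]

/-- The homogeneous elements of a submodule. -/
noncomputable def AM {κ : Type} (deg : κ → ℕ) (M : Submodule (MvPolynomial V K) (κ → MvPolynomial V K))
    (p : ℕ) : AddSubgroup (κ → MvPolynomial V K) := HV V K deg p ⊓ M.toAddSubgroup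

omit [LinearOrder V] [Fintype V] in
lemma mem_AM {κ : Type} {deg : κ → ℕ} {M : Submodule (MvPolynomial V K) (κ → MvPolynomial V K)}
    {p : ℕ} {v : κ → MvPolynomial V K} : v ∈ AM deg M p ↔ v ∈ HV V K deg p ∧ v ∈ M := Iff.rfl

/-- The homogeneous component of a vector. -/
noncomputable def cmp {κ : Type} (deg : κ → ℕ) (j : ℕ) (v : κ → MvPolynomial V K) (k : κ) :
    MvPolynomial V K := if deg k ≤ j then homogeneousComponent (j - deg k) (v k) else 0

omit [LinearOrder V] [Fintype V] in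
lemma coeff_cmp {κ : Type} (deg : κ → ℕ) (j : ℕ) (v : κ → MvPolynomial V K) (k : κ)
    (m : V →₀ ℕ) : coeff m (cmp deg j v k) =
      if m.degree + deg k = j then coeff m (v k) else 0 := by
  unfold cmp
  split_ifs with h1 h2 h2
  · rw [coeff_homogeneousComponent, if_pos (by omega)]
  · rw [coeff_homogeneousComponent, if_neg (by omega)]
  · omega
  · rfl

omit [LinearOrder V] [Fintype V] in
lemma cmp_mem {κ : Type} (deg : κ → ℕ) (j : ℕ) (v : κ → MvPolynomial V K) :
    cmp deg j v ∈ HV V K deg j := by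
  rw [mem_HV]
  intro k m h
  rw [coeff_cmp] at h
  by_contra e
  exact h (if_neg e)

omit [LinearOrder V] [Fintype V] in
lemma cmp_eq {κ : Type} {deg : κ → ℕ} {j : ℕ} {v : κ → MvPolynomial V K}
    (h : v ∈ HV V K deg j) : cmp deg j v = v := by
  funext k
  ext m
  rw [coeff_cmp]
  split_ifs with e
  · rfl
  · by_contra e'
    exact e (mem_HV.1 h k m (Ne.symm e'))

omit [LinearOrder V] [Fintype V] in
lemma sum_cmp {κ : Type} [Fintype κ] (deg : κ → ℕ) (v : κ → MvPolynomial V K) :
    ∃ B, v = ∑ j ∈ range B, cmp deg j v := by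
  refine ⟨univ.sup (fun k => (v k).totalDegree + deg k) + 1, ?_⟩
  funext k
  ext m
  rw [Finset.sum_apply, coeff_sum]
  simp only [coeff_cmp]
  rw [Finset.sum_ite_eq]
  split_ifs with h
  · rfl
  · by_contra e
    apply h
    have h1 := le_totalDegree (mem_support_iff.2 e)
    have h2 := Finset.le_sup (f := fun k => (v k).totalDegree + deg k) (mem_univ k)
    have h3 : m.degree = m.sum fun _ e => e := rfl
    rw [mem_range]
    omega

/-- A homogeneous matrix. -/
def MH {κ κ' : Type} (d : Matrix κ κ' (MvPolynomial V K)) (deg : κ → ℕ) (deg' : κ' → ℕ) : Prop :=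
  ∀ s c m, coeff m (d s c) ≠ 0 → m.degree + deg s = deg' c

omit [Fintype V] in
lemma mulVec_cmp {κ κ' : Type} [Fintype κ'] {d : Matrix κ κ' (MvPolynomial V K)} {deg : κ → ℕ}
    {deg' : κ' → ℕ} (h : MH d deg deg') (j : ℕ) (w : κ' → MvPolynomial V K) :
    d.mulVec (cmp deg' j w) = cmp deg j (d.mulVec w) := by
  funext s
  ext m
  rw [coeff_cmp]
  simp only [Matrix.mulVec, dotProduct, coeff_sum, coeff_mul, coeff_cmp]
  split_ifs with e
  · refine Finset.sum_congr rfl fun c _ => Finset.sum_congr rfl fun p hp => ?_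
    by_cases h0 : coeff p.1 (d s c) = 0
    · simp [h0]
    · have h1 := h s c _ h0
      have h2 : p.1.degree + p.2.degree = m.degree := by
        rw [← map_add, Finset.HasAntidiagonal.mem_antidiagonal.1 hp]
      rw [if_pos (by omega)]
  · refine Finset.sum_eq_zero fun c _ => Finset.sum_eq_zero fun p hp => ?_
    by_cases h0 : coeff p.1 (d s c) = 0
    · simp [h0]
    · have h1 := h s c _ h0
      have h2 : p.1.degree + p.2.degree = m.degree := by
        rw [← map_add, Finset.HasAntidiagonal.mem_antidiagonal.1 hp]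
      rw [if_neg (by omega), mul_zero]

omit [Fintype V] in
lemma X_smul_HV {κ : Type} (deg : κ → ℕ) (p : ℕ) (t : V) (v : κ → MvPolynomial V K)
    (hv : v ∈ HV V K deg p) : (X t : MvPolynomial V K) • v ∈ HV V K deg (p + 1) := by
  rw [mem_HV] at hv ⊢
  intro k m h
  rw [Pi.smul_apply, smul_eq_mul, coeff_X_mul'] at h
  split_ifs at h with e
  · have h1 := hv k _ h
    have h2 : m = (m - Finsupp.single t 1) + Finsupp.single t 1 := by
      rw [tsub_add_cancel_of_le]
      rw [Finsupp.single_le_iff]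
      exact Nat.one_le_iff_ne_zero.2 (Finsupp.mem_support_iff.1 e)
    rw [h2, map_add, Finsupp.degree_single]
    omega
  · exact absurd rfl h

lemma kv_free {κ : Type} (deg : κ → ℕ) (i p : ℕ) (h : 1 ≤ i ∨ ∀ k, deg k ≤ p) :
    KV (X : V → MvPolynomial V K) (HV V K deg) i p := by
  intro c c1 c2 c3
  have key := fun k => kv_top (V := V) (K := K) (deg k) i p (h.imp id fun h => h k)
    (fun T => c T k) (fun T hT => by simp [c1 T hT]) (fun T => c2 T k trivial) (fun S => by
      have := congrFun (c3 S) k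
      simpa [bd, Finset.sum_apply] using this)
  choose g g1 g2 g3 using key
  refine ⟨fun U k => g k U, fun U hU => funext fun k => g1 k U hU, fun U k _ => g2 k U,
    fun T => funext fun k => ?_⟩
  rw [g3 k T]
  simp [bd, Finset.sum_apply]

section mat
variable {κ κ' : Type} [Fintype κ'] {d : Matrix κ κ' (MvPolynomial V K)} {deg : κ → ℕ}
  {deg' : κ' → ℕ} {M : Submodule (MvPolynomial V K) (κ → MvPolynomial V K)}
  {N : Submodule (MvPolynomial V K) (κ' → MvPolynomial V K)}

omit [Fintype V] in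
lemma mat_M1 (h : MH d deg deg') (hM : ∀ v, v ∈ M ↔ ∃ w, d.mulVec w = v) (p : ℕ) :
    ∀ v ∈ HV V K deg' p, d.mulVecLin v ∈ AM deg M p := by
  intro v hv
  refine ⟨?_, (hM _).2 ⟨v, rfl⟩⟩
  rw [Matrix.mulVecLin_apply, ← cmp_eq hv, mulVec_cmp h]
  exact cmp_mem _ _ _

omit [Fintype V] in
lemma mat_M2 (h : MH d deg deg') (hM : ∀ v, v ∈ M ↔ ∃ w, d.mulVec w = v) (p : ℕ) :
    ∀ w ∈ AM deg M p, ∃ v ∈ HV V K deg' p, d.mulVecLin v = w := by
  intro w hw
  obtain ⟨v, rfl⟩ := (hM w).1 hw.2
  exact ⟨cmp deg' p v, cmp_mem _ _ _, by rw [Matrix.mulVecLin_apply, mulVec_cmp h, cmp_eq hw.1]⟩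

omit [Fintype V] [LinearOrder V] in
lemma mat_N (hN : ∀ v, v ∈ N ↔ d.mulVec v = 0) (p : ℕ) (v : κ' → MvPolynomial V K) :
    v ∈ AM deg' N p ↔ v ∈ HV V K deg' p ∧ d.mulVecLin v = 0 := by
  rw [mem_AM, hN, Matrix.mulVecLin_apply]

end mat

lemma res_step {κ : Type} [Fintype κ] (deg : κ → ℕ)
    (M : Submodule (MvPolynomial V K) (κ → MvPolynomial V K))
    (hgr : ∀ v ∈ M, ∀ j, cmp deg j v ∈ M) (ρ : ℕ)
    (hK : ∀ i p, ρ ≤ p → KV (X : V → MvPolynomial V K) (AM deg M) i p) :
    ∃ (b : ℕ) (deg' : Fin b → ℕ) (d : Matrix κ (Fin b) (MvPolynomial V K)),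
      MH d deg deg' ∧ (∀ c, deg' c ≤ ρ) ∧ (∀ v, v ∈ M ↔ ∃ w, d.mulVec w = v) ∧
      (∀ v ∈ LinearMap.ker d.mulVecLin, ∀ j, cmp deg' j v ∈ LinearMap.ker d.mulVecLin) ∧
      ∀ i p, ρ + 1 ≤ p →
        KV (X : V → MvPolynomial V K) (AM deg' (LinearMap.ker d.mulVecLin)) i p := by
  classical
  set H : Set (κ → MvPolynomial V K) := {v | ∃ j ≤ ρ, v ∈ AM deg M j} with hH
  have h1 : ∀ j, ∀ v ∈ AM deg M j, v ∈ Submodule.span (MvPolynomial V K) H := by
    intro j
    induction j with
    | zero => intro v hv; exact Submodule.subset_span ⟨0, Nat.zero_le _, hv⟩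
    | succ j ih =>
      intro v hv
      by_cases hj : j + 1 ≤ ρ
      · exact Submodule.subset_span ⟨_, hj, hv⟩
      obtain ⟨g, _, g2, g3⟩ := hK 0 j (by omega) (fun T => if T = ∅ then v else 0)
        (fun T hT => if_neg (by rintro rfl; simp at hT))
        (fun T => by
          split_ifs
          · exact hv
          · exact AddSubgroup.zero_mem _)
        (fun S => bd_eq_zero _ fun t _ => if_neg (by simp))
      have := g3 ∅
      simp only [if_true] at this
      rw [this]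
      exact Submodule.sum_mem _ fun t _ => Submodule.smul_mem _ _ (ih _ (g2 _))
  have h2 : M = Submodule.span (MvPolynomial V K) H := by
    apply le_antisymm
    · intro v hv
      obtain ⟨B, hB⟩ := sum_cmp deg v
      rw [hB]
      exact Submodule.sum_mem _ fun j _ => h1 j _ ⟨cmp_mem _ _ _, hgr v hv j⟩
    · rw [Submodule.span_le]
      rintro v ⟨j, _, hv⟩
      exact hv.2
  obtain ⟨s, hs1, hs2⟩ := (Submodule.fg_span_iff_fg_span_finset_subset
    (R := MvPolynomial V K) H).1 (IsNoetherian.noetherian _)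
  let e : Fin s.card → (κ → MvPolynomial V K) := fun c => (s.equivFin.symm c).1
  have he : ∀ c, e c ∈ H := fun c => hs1 (s.equivFin.symm c).2
  choose dg hdg1 hdg2 using he
  let d : Matrix κ (Fin s.card) (MvPolynomial V K) := fun k c => e c k
  have hd : MH d deg dg := fun k c m h => mem_HV.1 (hdg2 c).1 k m h
  have hM : ∀ v, v ∈ M ↔ ∃ w, d.mulVec w = v := by
    intro v
    have : (s : Set (κ → MvPolynomial V K)) = Set.range e := by
      ext x
      constructor
      · intro hx; exact ⟨s.equivFin ⟨x, hx⟩, by simp [e]⟩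
      · rintro ⟨c, rfl⟩; exact (s.equivFin.symm c).2
    rw [h2, hs2, this, Submodule.mem_span_range_iff_exists_fun]
    refine exists_congr fun w => ?_
    have : d.mulVec w = ∑ c, w c • e c := by
      funext k
      simp [Matrix.mulVec, dotProduct, d, Finset.sum_apply, mul_comm]
    rw [this]
  refine ⟨s.card, dg, d, hd, hdg1, hM, fun v hv j => ?_, fun i p hp => ?_⟩
  · rw [LinearMap.mem_ker, Matrix.mulVecLin_apply] at hv ⊢
    rw [mulVec_cmp hd, hv]
    exact cmp_eq (AddSubgroup.zero_mem _)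
  · obtain ⟨p, rfl⟩ : ∃ p', p = p' + 1 := ⟨p - 1, by omega⟩
    exact kv_ker (φ := d.mulVecLin) (mat_N (fun v => by simp)) (mat_M1 hd hM) (mat_M2 hd hM)
      (X_smul_HV dg) (hK _ _ (by omega))
      (kv_free dg i _ (Or.inr fun c => by have := hdg1 c; omega))

/-- A stage of the construction of a resolution. -/
structure St (V K : Type) [LinearOrder V] [Fintype V] [Field K] where
  ρ : ℕ
  b : ℕ
  deg : Fin b → ℕ
  M : Submodule (MvPolynomial V K) (Fin b → MvPolynomial V K)
  gr : ∀ v ∈ M, ∀ j, cmp deg j v ∈ M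
  kv : ∀ i p, ρ ≤ p → KV (X : V → MvPolynomial V K) (AM deg M) i p

lemma St.next (s : St V K) : ∃ (s' : St V K) (d : Matrix (Fin s.b) (Fin s'.b) (MvPolynomial V K)),
    s'.ρ = s.ρ + 1 ∧ MH d s.deg s'.deg ∧ (∀ c, s'.deg c ≤ s.ρ) ∧
    (∀ v, v ∈ s.M ↔ ∃ w, d.mulVec w = v) ∧ ∀ v, v ∈ s'.M ↔ d.mulVec v = 0 := by
  obtain ⟨b, dg, d, h1, h2, h3, h4, h5⟩ := res_step s.deg s.M s.gr s.ρ s.kv
  exact ⟨⟨s.ρ + 1, b, dg, _, h4, h5⟩, d, rfl, h1, h2, h3, fun v => by simp⟩

omit [LinearOrder V] [Fintype V] in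
lemma isHom_iff (f : MvPolynomial V K) (n : ℕ) :
    f.IsHomogeneous n ↔ ∀ m, coeff m f ≠ 0 → m.degree = n := by
  unfold IsHomogeneous IsWeightedHomogeneous
  simp only [Finsupp.degree_eq_weight_one]
  rfl

omit [LinearOrder V] [Fintype V] in
lemma hom_iff (f : MvPolynomial V K) (a b : ℕ) :
    (f = 0 ∨ (a ≤ b ∧ f.IsHomogeneous (b - a))) ↔ ∀ m, coeff m f ≠ 0 → m.degree + a = b := by
  rw [isHom_iff]
  constructor
  · rintro (rfl | ⟨h1, h2⟩) m hm
    · exact absurd rfl hm
    · have := h2 m hm; omega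
  · intro h
    by_cases h0 : f = 0
    · exact Or.inl h0
    · obtain ⟨m, hm⟩ := ne_zero_iff.1 h0
      have := h m hm
      exact Or.inr ⟨by omega, fun m' hm' => by have := h m' hm'; omega⟩

/-- The ideal as a submodule of a free module of rank one. -/
noncomputable def one1 (J : Ideal (MvPolynomial V K)) :
    Submodule (MvPolynomial V K) (Fin 1 → MvPolynomial V K) :=
  Submodule.comap (LinearMap.proj (R := MvPolynomial V K)
    (φ := fun _ : Fin 1 => MvPolynomial V K) 0) J

lemma kv_one1 (J : Ideal (MvPolynomial V K)) (i p : ℕ) :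
    KV (X : V → MvPolynomial V K) (AM (fun _ => 0) (one1 J)) i p ↔
      KV (X : V → MvPolynomial V K) (AJ J 0) i p := by
  refine kv_iso (φ := LinearMap.proj (R := MvPolynomial V K)
    (φ := fun _ : Fin 1 => MvPolynomial V K) 0) ?_ ?_ ?_
  · intro v w h
    funext k
    rw [Subsingleton.elim k 0]; exact h
  · intro p v hv
    exact ⟨hv.2, mem_HV.1 hv.1 0⟩
  · intro p w hw
    exact ⟨fun _ => w, ⟨mem_HV.2 fun _ => hw.2, hw.1⟩, rfl⟩

theorem kv_of_hasRes {J : Ideal (MvPolynomial V K)} {r : ℕ} (h : HasRes J r) (i p : ℕ)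
    (hp : r ≤ p) : KV (X : V → MvPolynomial V K) (AJ J 0) i p := by
  obtain ⟨b, deg, g, d, h1, h2, h3, h4, h5, h6⟩ := h
  have hd : ∀ k, MH (d k) (deg k) (deg (k + 1)) := fun k s c => (hom_iff _ _ _).1 (h3 k s c)
  have hr : ∀ k v, v ∈ LinearMap.range (d k).mulVecLin ↔ ∃ w, (d k).mulVec w = v :=
    fun k v => Iff.rfl
  have key : ∀ i k p, r + k + 1 ≤ p →
      KV (X : V → MvPolynomial V K) (AM (deg k) (LinearMap.range (d k).mulVecLin)) i p := by
    intro i
    induction i with
    | zero =>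
      intro k p hp
      exact kv_zero (mat_M1 (hd k) (hr k)) (mat_M2 (hd k) (hr k))
        (kv_free _ _ _ (Or.inr fun c => by have := h6 _ c; omega))
    | succ i ih =>
      intro k p hp
      exact kv_surj (mat_N (fun v => by rw [hr, h5])) (mat_M1 (hd k) (hr k))
        (mat_M2 (hd k) (hr k)) (X_smul_HV _) (ih (k + 1) (p + 1) (by omega))
        (kv_free _ _ _ (Or.inl (by omega)))
  rw [← kv_one1]
  let D : Matrix (Fin 1) (Fin (b 0)) (MvPolynomial V K) := fun _ k => g k
  have hD : MH D (fun _ => 0) (deg 0) := fun s c m hm => by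
    simpa using (isHom_iff _ _).1 (h2 c) m hm
  have hDv : ∀ w, D.mulVec w = fun _ => ∑ k, g k * w k := fun w => rfl
  have hM : ∀ v, v ∈ one1 J ↔ ∃ w, D.mulVec w = v := by
    intro v
    change v 0 ∈ J ↔ _
    rw [← h1, Ideal.mem_span_range_iff_exists_fun]
    refine exists_congr fun w => ?_
    rw [hDv]
    constructor
    · intro e
      funext k
      rw [Subsingleton.elim k 0, ← e]
      exact Finset.sum_congr rfl fun k _ => mul_comm _ _
    · intro e
      rw [← e]
      exact Finset.sum_congr rfl fun k _ => mul_comm _ _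
  cases i with
  | zero =>
    exact kv_zero (mat_M1 hD hM) (mat_M2 hD hM)
      (kv_free _ _ _ (Or.inr fun c => by have := h6 _ c; omega))
  | succ i =>
    refine kv_surj (mat_N (fun v => ?_)) (mat_M1 hD hM) (mat_M2 hD hM) (X_smul_HV _)
      (key i 0 (p + 1) (by omega)) (kv_free _ _ _ (Or.inl (by omega)))
    rw [hr, ← h4, hDv]
    exact ⟨fun e => funext fun _ => e, fun e => congrFun e 0⟩

theorem hasRes_of_kv {J : Ideal (MvPolynomial V K)} {r : ℕ}
    (hJ : ∀ f ∈ J, ∀ j, homogeneousComponent j f ∈ J)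
    (h : ∀ i p, r ≤ p → KV (X : V → MvPolynomial V K) (AJ J 0) i p) : HasRes J r := by
  let s0 : St V K := ⟨r, 1, fun _ => 0, one1 J, fun v hv j => by
    change cmp (fun _ => 0) j v 0 ∈ J
    simpa [cmp] using hJ _ hv j, fun i p hp => (kv_one1 J i p).2 (h i p hp)⟩
  choose nxt D n1 n2 n3 n4 n5 using St.next (V := V) (K := K)
  let sq : ℕ → St V K := fun k => Nat.rec s0 (fun _ s => nxt s) k
  have hρ : ∀ k, (sq k).ρ = r + k := by
    intro k
    induction k with
    | zero => rfl
    | succ k ih => exact (n1 (sq k)).trans (by rw [ih]; rfl)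
  have hDv : ∀ w, (D s0).mulVec w = fun _ => ∑ k, D s0 (0 : Fin 1) k * w k := by
    intro w
    funext k
    rw [Subsingleton.elim (α := Fin 1) k 0]
    rfl
  refine ⟨fun i => (sq (i + 1)).b, fun i => (sq (i + 1)).deg, fun k => D s0 (0 : Fin 1) k,
    fun i => D (sq (i + 1)), ?_, fun k => ?_, fun i s c => (hom_iff _ _ _).2 (n2 _ s c),
    fun v => ?_, fun i v => ?_, fun i k => ?_⟩
  · ext f
    rw [Ideal.mem_span_range_iff_exists_fun]
    have : f ∈ J ↔ (fun _ : Fin 1 => f) ∈ s0.M := Iff.rfl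
    rw [this, n4]
    refine exists_congr fun w => ?_
    rw [hDv]
    constructor
    · intro e
      funext k
      rw [← e]
      exact Finset.sum_congr rfl fun k _ => mul_comm _ _
    · intro e
      rw [← congrFun e (0 : Fin 1)]
      exact Finset.sum_congr rfl fun k _ => mul_comm _ _
  · rw [isHom_iff]
    intro m hm
    exact n2 s0 (0 : Fin 1) k m hm
  · refine Iff.trans ?_ (n4 (sq 1) v)
    refine Iff.trans ?_ (n5 s0 v).symm
    rw [hDv]
    exact ⟨fun e => funext fun _ => e, fun e => congrFun e (0 : Fin 1)⟩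
  · exact (n5 (sq (i + 1)) v).symm.trans (n4 (sq (i + 2)) v)
  · have := n3 (sq i) k
    rw [hρ] at this
    exact this

theorem hasRes_iff {P : (V → ℕ) → Prop} (hP : ∀ b b', (∀ x, b x ≤ b' x) → P b → P b')
    {J : Ideal (MvPolynomial V K)} (hJ : ∀ f, f ∈ J ↔ ∀ m, coeff m f ≠ 0 → P m) (r : ℕ) :
    HasRes J (r + 1) ↔ RegC K P r := by
  rw [← kv_all_iff hP hJ]
  refine ⟨kv_of_hasRes, hasRes_of_kv fun f hf j => (hJ _).2 fun m hm => (hJ _).1 hf m ?_⟩
  rw [coeff_homogeneousComponent] at hm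
  split_ifs at hm
  · exact hm
  · exact absurd rfl hm

omit [LinearOrder V] [Fintype V] in
lemma HasRes.mono {J : Ideal (MvPolynomial V K)} {r r' : ℕ} (h : HasRes J r) (hr : r ≤ r') :
    HasRes J r' := by
  obtain ⟨b, deg, g, d, h1, h2, h3, h4, h5, h6⟩ := h
  exact ⟨b, deg, g, d, h1, h2, h3, h4, h5, fun i k => by have := h6 i k; omega⟩

end res

end Pool.Agent.H538Z
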