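import Mathlib
import Pool.Agent.H538Z.Final
import Pool.Agent.H538Z.Res

/-!
The regularity of the powers of an edge ideal.
-/

set_option autoImplicit false

namespace Pool.Agent.H538Z

open Finset MvPolynomial

section edge
variable {V : Type} [LinearOrder V] [Fintype V] {K : Type} [Field K] {G : SimpleGraph V}

lemma pow_eq_span (q : ℕ) : edgeIdeal K G ^ q =
    Ideal.span ((fun s => monomial s (1 : K)) '' {m : V →₀ ℕ | InP G q m}) := by
  induction q with
  | zero =>
    rw [pow_zero, Ideal.one_eq_top, eq_comm, Ideal.eq_top_iff_one]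
    exact Ideal.subset_span ⟨0, InP.zero _, rfl⟩
  | succ q ih =>
    rw [pow_succ, ih, edgeIdeal, Ideal.span_mul_span']
    apply le_antisymm
    · rw [Ideal.span_le]
      rintro _ ⟨_, ⟨m, hm, rfl⟩, _, ⟨i, j, hij, rfl⟩, rfl⟩
      refine Ideal.subset_span ⟨m + Finsupp.single i 1 + Finsupp.single j 1, ?_, ?_⟩
      · refine InP.step q _ m i j hij hm fun x => ?_
        simp [Finsupp.single_apply, eq_comm]
      · simp [X, monomial_mul, add_assoc]
    · rw [Ideal.span_le]
      rintro _ ⟨m, hm, rfl⟩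
      cases hm with
      | step j b b' u v h1 h2 h3 =>
        let m' : V →₀ ℕ := Finsupp.equivFunOnFinite.symm b'
        have hle : m' + Finsupp.single u 1 + Finsupp.single v 1 ≤ m := fun x => by
          have := h3 x
          simpa [m', Finsupp.single_apply, eq_comm] using this
        have e : monomial m (1 : K) = monomial (m - (m' + Finsupp.single u 1 + Finsupp.single v 1))
            (1 : K) * (monomial m' 1 * (X u * X v)) := by
          simp only [X, monomial_mul, mul_one]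
          rw [← add_assoc m', tsub_add_cancel_of_le hle]
        beta_reduce
        rw [e]
        exact Ideal.mul_mem_left _ _ (Ideal.subset_span
          ⟨_, ⟨m', h2, rfl⟩, _, ⟨u, v, h1, rfl⟩, rfl⟩)

lemma mem_pow (q : ℕ) (f : MvPolynomial V K) :
    f ∈ edgeIdeal K G ^ q ↔ ∀ m, coeff m f ≠ 0 → InP G q m := by
  rw [pow_eq_span, mem_ideal_span_monomial_image]
  simp only [mem_support_iff]
  exact forall_congr' fun m => forall_congr' fun _ =>
    ⟨fun ⟨s, h1, h2⟩ => InP.mono h1 h2, fun h => ⟨m, h, le_refl _⟩⟩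

lemma H1_card : H1 K G (Fintype.card V : ℕ) := by
  intro W d hd
  have := card_le_univ W
  exact van_of_no fun S _ => by omega

lemma H2_card : H2 K G (Fintype.card V : ℕ) := fun _ _ _ W _ d hd => H1_card W d hd

lemma H1_nonneg {l : ℤ} (h : H1 K G l) : 0 ≤ l := by
  by_contra hc
  exact not_van_empty (h ∅ 0 (by simp; omega))

variable (K G)

/-- The regularity of the quotient by the edge ideal. -/
noncomputable def L1 : ℕ := sInf {l : ℕ | H1 K G l}

/-- The largest regularity of the quotient for the graphs obtained by deleting the closed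
neighbourhood of an edge. -/
noncomputable def L2 : ℕ := sInf {l : ℕ | H2 K G l}

variable {K G}

lemma H1_iff (l : ℤ) : H1 K G l ↔ (L1 K G : ℤ) ≤ l := by
  constructor
  · intro h
    obtain ⟨n, rfl⟩ := Int.eq_ofNat_of_zero_le (H1_nonneg h)
    exact_mod_cast Nat.sInf_le h
  · intro h W d hd
    exact Nat.sInf_mem (s := {l : ℕ | H1 K G l}) ⟨_, H1_card⟩ W d (by unfold L1 at h; omega)

lemma H2_iff (hG : ∃ u v, G.Adj u v) (l : ℤ) : H2 K G l ↔ (L2 K G : ℤ) ≤ l := by
  constructor
  · intro h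
    obtain ⟨n, rfl⟩ := Int.eq_ofNat_of_zero_le (H2_nonneg hG h)
    exact_mod_cast Nat.sInf_le h
  · intro h u v huv W hW d hd
    exact Nat.sInf_mem (s := {l : ℕ | H2 K G l}) ⟨_, H2_card⟩ u v huv W hW d
      (by unfold L2 at h; omega)

lemma L2_lt (hG : ∃ u v, G.Adj u v) : L2 K G + 1 ≤ L1 K G := by
  have := (H2_iff hG _).1 (H2_of_H1 (K := K) (G := G) (l := L1 K G - 1) ((H1_iff _).2 (by omega)))
  omega

theorem hasRes_pow_iff (hG : ∃ u v, G.Adj u v) {q : ℕ} (hq : 1 ≤ q) (R : ℕ) :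
    HasRes (edgeIdeal K G ^ q) R ↔ L1 K G + q ≤ R ∧ L2 K G + 2 * q ≤ R := by
  have key : ∀ r : ℕ, HasRes (edgeIdeal K G ^ q) (r + 1) ↔
      L1 K G + q ≤ r + 1 ∧ L2 K G + 2 * q ≤ r + 1 := by
    intro r
    rw [hasRes_iff (fun b b' h hb => InP.mono hb h) (mem_pow q), regC_iff hG hq, H1_iff,
      H2_iff hG]
    omega
  cases R with
  | zero =>
    constructor
    · intro h
      have := (key 0).1 (h.mono (by omega))
      omega
    · intro h; omega
  | succ r => exact key r

/-- The formula for the regularity of the powers of an edge ideal. -/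
theorem reg_pow (hG : ∃ u v, G.Adj u v) {q : ℕ} (hq : 1 ≤ q) :
    reg (edgeIdeal K G ^ q) = max (L1 K G + q) (L2 K G + 2 * q) := by
  unfold reg
  apply le_antisymm
  · exact Nat.sInf_le ((hasRes_pow_iff hG hq _).2 ⟨le_max_left _ _, le_max_right _ _⟩)
  · exact max_le_iff.2 ((hasRes_pow_iff hG hq _).1 (Nat.sInf_mem (s := {r | HasRes _ r})
      ⟨_, (hasRes_pow_iff hG hq _).2 ⟨le_max_left _ _, le_max_right _ _⟩⟩))

theorem reg_one (hG : ∃ u v, G.Adj u v) : reg (edgeIdeal K G) = L1 K G + 1 := by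
  have := reg_pow (K := K) hG (le_refl 1)
  have h := L2_lt (K := K) hG
  rw [pow_one] at this
  omega

theorem L2_gapFree (hG : ∃ u v, G.Adj u v) (h : GapFree G) : L2 K G = 0 := by
  have : H2 K G 0 := by
    intro u v huv W hW d hd
    by_cases h0 : W = ∅
    · subst h0
      exact van_of_no fun S _ => by simp only [card_empty] at hd; omega
    obtain ⟨x, hx⟩ := nonempty_iff_ne_empty.2 h0
    have hind : ∀ a ∈ W, ∀ b ∈ W, ¬ G.Adj a b := by
      intro a ha b hb hab
      have hu : u ∉ W := fun e => (hW u e).2 huv.symm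
      have hv : v ∉ W := fun e => (hW v e).1 huv
      rcases h u v a b huv hab (fun e => hu (e ▸ ha)) (fun e => hu (e ▸ hb))
        (fun e => hv (e ▸ ha)) (fun e => hv (e ▸ hb)) with k | k | k | k
      · exact (hW a ha).1 k
      · exact (hW b hb).1 k
      · exact (hW a ha).2 k
      · exact (hW b hb).2 k
    refine van_cone x (fun S _ => ?_) d
    unfold N1
    rw [insert_subset_iff]
    exact ⟨fun a => ⟨a.1.2, fun p q h1 _ h2 _ => hind p h1 q h2⟩,
      fun a => ⟨⟨hx, a.1⟩, fun p q h1 _ h2 _ => hind p h1 q h2⟩⟩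
  have := (H2_iff hG 0).1 this
  omega

/-- Deletion and link of a vertex. -/
lemma van_N1_step {R : Type} [CommRing R] {W : Finset V} {x : V} (hx : x ∈ W) {d : ℤ}
    [DecidableRel G.Adj] (h1 : Van R (N1 G (W.erase x)) (d - 1))
    (h2 : Van R (N1 G ((W.erase x).filter (fun y => ¬ G.Adj x y)))
      (d - (W.filter (G.Adj x)).card)) : Van R (N1 G W) d := by
  refine van_mid (cvx_N1 W) (B := fun S => x ∈ S) (fun S T h _ _ h2 => h h2) ?_ ?_
  · have := (van_shift_set (K := R) (cvx_N1 _) (W.filter (G.Adj x)) (by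
      intro S hS
      rw [disjoint_left]
      intro a ha hb
      exact (mem_filter.1 (hS.1 ha)).2 (mem_filter.1 hb).2) _).2 h2
    refine van_congr this (fun S => ?_) (by ring)
    constructor
    · rintro ⟨⟨a, b⟩, c⟩
      refine ⟨⟨fun y hy => ?_, fun u v k1 k2 k3 k4 => ?_⟩, fun y hy => ?_⟩
      · simp only [mem_sdiff, mem_filter, mem_erase, not_and] at hy ⊢
        exact ⟨⟨fun e => c (e ▸ hy.1), a hy.1⟩, hy.2 (a hy.1)⟩
      · simp only [mem_filter, mem_erase] at k1 k3
        exact b u v k1.1.2 (fun e => k2 (by simp [e, k1.2])) k3.1.2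
          (fun e => k4 (by simp [e, k3.2]))
      · by_contra e
        exact b x y hx c (mem_filter.1 hy).1 e (mem_filter.1 hy).2
    · rintro ⟨⟨a, b⟩, c⟩
      have hxS : x ∉ S := fun e => by
        have := a (mem_sdiff.2 ⟨e, by simp⟩)
        simp at this
      have k : ∀ y ∈ W, y ∉ S → ¬ G.Adj x y := fun y h1 h2 e => h2 (c (mem_filter.2 ⟨h1, e⟩))
      refine ⟨⟨fun y hy => ?_, fun u v k1 k2 k3 k4 huv => ?_⟩, hxS⟩
      · by_cases e : y ∈ W.filter (G.Adj x)
        · exact (mem_filter.1 e).1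
        · exact (mem_erase.1 (mem_filter.1 (a (mem_sdiff.2 ⟨hy, e⟩))).1).2
      · by_cases e1 : u = x
        · exact k v k3 k4 (e1 ▸ huv)
        by_cases e2 : v = x
        · exact k u k1 k2 (e2 ▸ huv.symm)
        exact b u v (by simp [e1, k1, k u k1 k2]) (by simp [k2]) (by simp [e2, k3, k v k3 k4])
          (by simp [k4]) huv
  · have := (van_shift (K := R) (cvx_N1 (W.erase x)) x (fun S hS e => by
      simpa using hS.1 e) _).2 h1
    refine van_congr this (fun S => ?_) (by ring)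
    refine and_congr_left fun c => ?_
    unfold N1
    constructor
    · rintro ⟨a, b⟩
      refine ⟨erase_subset_erase _ a, fun u v k1 k2 k3 k4 => ?_⟩
      simp only [mem_erase, not_and] at k1 k2 k3 k4
      exact b u v k1.2 (k2 k1.1) k3.2 (k4 k3.1)
    · rintro ⟨a, b⟩
      refine ⟨fun y hy => ?_, fun u v k1 k2 k3 k4 => ?_⟩
      · by_cases e : y = x
        · exact e ▸ hx
        · exact (mem_erase.1 (a (mem_erase.2 ⟨e, hy⟩))).2
      · exact b u v (mem_erase.2 ⟨fun e => k2 (e ▸ c), k1⟩) (by simp [k2])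
          (mem_erase.2 ⟨fun e => k4 (e ▸ c), k3⟩) (by simp [k4])

omit [Fintype V] in
lemma card_link {W : Finset V} {x : V} (hx : x ∈ W) [DecidableRel G.Adj] :
    ((W.erase x).filter (fun y => ¬ G.Adj x y)).card + (W.filter (G.Adj x)).card + 1 = W.card := by
  have e : W.filter (G.Adj x) = (W.erase x).filter (G.Adj x) := by
    ext y
    simp only [mem_filter, mem_erase]
    exact ⟨fun h => ⟨⟨h.2.ne.symm, h.1⟩, h.2⟩, fun h => ⟨h.1.2, h.2⟩⟩
  have := card_filter_add_card_filter_not (s := W.erase x) (G.Adj x)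
  have := card_erase_add_one hx
  rw [e]; omega

lemma H1_of_loc {R : Type} [CommRing R] {l : ℤ} (hl : 0 ≤ l + 1)
    (h : ∀ (x : V) (W : Finset V), x ∉ W → (∀ w ∈ W, ¬ G.Adj x w) → ∀ d : ℤ,
      l < W.card - d → Van R (N1 G W) d) : H1 R G (l + 1) := by
  classical
  intro W
  induction W using Finset.induction_on with
  | empty => intro d hd; exact van_of_no fun S _ => by simp only [card_empty] at hd; omega
  | insert x W hx ih =>
    intro d hd
    have hc := card_link (G := G) (mem_insert_self x W)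
    refine van_N1_step (mem_insert_self x W) ?_ (h x _ (by simp) (fun w hw => (mem_filter.1 hw).2)
      _ (by omega))
    rw [erase_insert hx]
    rw [card_insert_of_notMem hx] at hd
    exact ih _ (by push_cast at hd; omega)

lemma not_van_single {R : Type} [CommRing R] [Nontrivial R] {F : Finset V → Prop}
    (hF : ∀ S, F S ↔ S = ∅) : ¬ Van R F 0 := fun h =>
  not_van_empty (G := (⊥ : SimpleGraph V)) (van_congr h (fun S => by rw [N1_empty, hF]) rfl)

omit [Fintype V] in
lemma InP_one {b : V → ℕ} : InP G 1 b ↔ ∃ u v, G.Adj u v ∧ 1 ≤ b u ∧ 1 ≤ b v := by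
  constructor
  · intro h
    cases h with
    | step j b b' u v h1 _ h3 =>
      exact ⟨u, v, h1, by have := h3 u; simp at this; omega, by have := h3 v; simp at this; omega⟩
  · rintro ⟨u, v, h, h1, h2⟩
    exact InP.edge h 1 h1 h2

/-- The exponent vectors of the colon ideal. -/
def PC (G : SimpleGraph V) (x : V) (b : V → ℕ) : Prop :=
  ∃ u v, G.Adj u v ∧ (u = x ∨ 1 ≤ b u) ∧ (v = x ∨ 1 ≤ b v)

omit [LinearOrder V] [Fintype V] in
lemma PC_mono (x : V) : ∀ b b' : V → ℕ, (∀ y, b y ≤ b' y) → PC G x b → PC G x b' := by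
  rintro b b' h ⟨u, v, h1, h2, h3⟩
  exact ⟨u, v, h1, h2.imp id fun e => e.trans (h u), h3.imp id fun e => e.trans (h v)⟩

lemma mem_colon (x : V) (f : MvPolynomial V K) :
    f ∈ (edgeIdeal K G).colon {X x} ↔ ∀ m, coeff m f ≠ 0 → PC G x m := by
  rw [Submodule.mem_colon_singleton, smul_eq_mul, ← pow_one (edgeIdeal K G), mem_pow]
  have e : ∀ m : V →₀ ℕ, InP G 1 (m + Finsupp.single x 1 : V →₀ ℕ) ↔ PC G x m := by
    intro m
    rw [InP_one]
    have : ∀ y, 1 ≤ (m + Finsupp.single x 1 : V →₀ ℕ) y ↔ (y = x ∨ 1 ≤ m y) := by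
      intro y
      by_cases h : y = x
      · subst h; simp
      · simp [h]
    simp only [this, PC]
  constructor
  · intro h m hm
    exact (e m).1 (h _ (by rwa [coeff_mul_X]))
  · intro h m hm
    rw [coeff_mul_X'] at hm
    split_ifs at hm with k
    · have := (e _).2 (h _ hm)
      rwa [tsub_add_cancel_of_le (by
        rw [Finsupp.single_le_iff]
        exact Nat.one_le_iff_ne_zero.2 (Finsupp.mem_support_iff.1 k))] at this
    · exact absurd rfl hm

lemma regC_PC (x : V) : RegC K (PC G x) (Fintype.card V : ℕ) := by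
  intro W lo _ d hd
  by_cases h : ∃ y ∈ W, 1 ≤ lo y
  · obtain ⟨y, hy, h1⟩ := h
    refine van_cone y (fun S hS => ?_) d
    unfold NF PC
    have : ∀ u, (1 ≤ if u ∈ insert y S then lo u else if u ∈ W then lo u + 1 else 0) ↔
        (1 ≤ if u ∈ S then lo u else if u ∈ W then lo u + 1 else 0) := by
      intro u
      by_cases e : u = y
      · subst e; simp [hS, hy, h1]
      · simp [e]
    simp only [this, insert_subset_iff, hy, true_and]
  · push Not at h
    have : ∑ y ∈ W, ((lo y : ℤ) + 1) = W.card := by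
      rw [Finset.sum_congr rfl (g := fun _ => 1)]
      · simp
      · intro y hy
        have := h y hy
        omega
    have := card_le_univ W
    exact van_of_no fun S _ => by omega

lemma hasRes_colon (x : V) :
    HasRes ((edgeIdeal K G).colon {X x}) (reg ((edgeIdeal K G).colon {X x})) :=
  Nat.sInf_mem (s := {r | HasRes _ r})
    ⟨_, (hasRes_iff (PC_mono x) (mem_colon x) _).2 (regC_PC x)⟩

lemma reg_colon_pos {x y : V} (h : G.Adj x y) : 1 ≤ reg ((edgeIdeal K G).colon {X x}) := by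
  by_contra hc
  have h1 := hasRes_colon (K := K) (G := G) x
  have h2 := (kv_iff (PC_mono x) (mem_colon x) 0 0 0).1 (kv_of_hasRes h1 0 0 (by omega))
    (Finsupp.single y 1) (by simp)
  refine not_van_single (fun S => ?_) h2
  unfold KB
  rw [Finsupp.support_single _ one_ne_zero, subset_singleton_iff]
  constructor
  · rintro ⟨rfl | rfl, u, v, h1, h2, h3⟩
    · rfl
    · exfalso
      have : ∀ w, ¬ 1 ≤ low (Finsupp.single y 1) {y} w := by
        intro w
        by_cases e : w = y <;> simp [e]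
      exact h1.ne ((h2.resolve_right (this u)).trans (h3.resolve_right (this v)).symm)
  · rintro rfl
    exact ⟨Or.inl rfl, x, y, h, Or.inl rfl, Or.inr (by simp)⟩

lemma loc_of_colon {r : ℕ} (x : V) (h : reg ((edgeIdeal K G).colon {X x}) ≤ r + 1)
    (W : Finset V) (hx : x ∉ W) (hW : ∀ w ∈ W, ¬ G.Adj x w) (d : ℤ) (hd : r < W.card - d) :
    Van K (N1 G W) d := by
  have h1 := (hasRes_iff (PC_mono x) (mem_colon x) r).1 ((hasRes_colon x).mono h) W (fun _ => 0)
    (fun _ _ => rfl) d (by simpa using hd)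
  refine van_congr h1 (fun S => ?_) rfl
  unfold N1 NF PC
  have : ∀ u, (1 ≤ if u ∈ S then 0 else if u ∈ W then 0 + 1 else 0) ↔ u ∈ W ∧ u ∉ S := by
    intro u
    by_cases e1 : u ∈ S <;> by_cases e2 : u ∈ W <;> simp [e1, e2]
  simp only [this]
  refine and_congr_right fun _ => ⟨?_, fun h u v a b c d e => h ⟨u, v, e, Or.inr ⟨a, b⟩,
    Or.inr ⟨c, d⟩⟩⟩
  rintro h ⟨u, v, e, rfl | h2, rfl | h3⟩
  · exact e.ne rfl
  · exact hW v h3.1 e
  · exact hW u h2.1 e.symm
  · exact h u v h2.1 h2.2 h3.1 h3.2 e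

theorem reg_pow_le_loc (hG : ∃ u v, G.Adj u v) (r : ℤ)
    (h : ∀ x, (reg ((edgeIdeal K G).colon {X x}) : ℤ) ≤ r) {q : ℕ} (hq : 1 ≤ q) :
    (reg (edgeIdeal K G ^ q) : ℤ) ≤ 2 * q + r - 1 := by
  obtain ⟨u, v, huv⟩ := hG
  have h0 := reg_colon_pos (K := K) huv
  have h1 := h u
  obtain ⟨s, rfl⟩ : ∃ s : ℕ, r = s + 1 := ⟨(r - 1).toNat, by omega⟩
  have hloc := fun x => loc_of_colon (K := K) (G := G) (r := s) x (by have := h x; omega)
  have a1 := (H1_iff _).1 (H1_of_loc (by omega) hloc)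
  have a2 := (H2_iff ⟨u, v, huv⟩ s).1 (fun a b hab W hW d hd =>
    hloc a W (fun e => (hW a e).2 hab.symm) (fun w hw => (hW w hw).1) d hd)
  rw [reg_pow ⟨u, v, huv⟩ hq]
  omega

theorem stab_eq (hG : ∃ u v, G.Adj u v) :
    stabIndex (edgeIdeal K G) = max 1 (L1 K G - L2 K G) := by
  have hmem : max 1 (L1 K G - L2 K G) ∈ {q₀ : ℕ | 1 ≤ q₀ ∧ ∃ a b : ℤ, ∀ q : ℕ, q₀ ≤ q →
      (reg (edgeIdeal K G ^ q) : ℤ) = a * q + b} := by
    refine ⟨le_max_left _ _, 2, L2 K G, fun q hq => ?_⟩
    rw [reg_pow hG (by omega)]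
    omega
  apply le_antisymm (Nat.sInf_le hmem)
  obtain ⟨h1, a, b, h⟩ := Nat.sInf_mem ⟨_, hmem⟩
  generalize sInf {q₀ : ℕ | 1 ≤ q₀ ∧ ∃ a b : ℤ, ∀ q : ℕ, q₀ ≤ q →
      (reg (edgeIdeal K G ^ q) : ℤ) = a * q + b} = q0 at h1 h ⊢
  have e0 := h q0 (le_refl _)
  have e1 := h (q0 + L1 K G) (by omega)
  have e2 := h (q0 + L1 K G + 1) (by omega)
  rw [reg_pow hG (by omega)] at e0 e1 e2
  have f1 : max (L1 K G + (q0 + L1 K G)) (L2 K G + 2 * (q0 + L1 K G)) =
      L2 K G + 2 * (q0 + L1 K G) := by omega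
  have f2 : max (L1 K G + (q0 + L1 K G + 1)) (L2 K G + 2 * (q0 + L1 K G + 1)) =
      L2 K G + 2 * (q0 + L1 K G + 1) := by omega
  rw [f1] at e1
  rw [f2] at e2
  push_cast at e1 e2
  have ha : a = 2 := by linarith
  subst ha
  omega

end edge

end Pool.Agent.H538Z
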