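import Mathlib
import Pool.Agent.H538Z.Edge

/-!
Certificates for vanishing and non-vanishing of the homology of independence complexes.
-/

set_option autoImplicit false

namespace Pool.Agent.H538Z

open Finset

section cert
variable {V : Type} [LinearOrder V] [Fintype V] {K : Type} [CommRing K]

omit [Fintype V] in
lemma sgn_cast (S : Finset V) (t : V) : ((sgn ℤ S t : ℤ) : K) = sgn K S t := by
  simp [sgn]

/-- Coefficient of `σ` in the transpose of `D` applied to a list of weighted sets. -/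
def wt (L : List (Finset V × ℤ)) (σ : Finset V) : ℤ :=
  (L.map fun p => ∑ t ∈ σ, if σ.erase t = p.1 then p.2 * sgn ℤ p.1 t else 0).sum

/-- The function given by a list of weighted sets. -/
def ev (L : List (Finset V × ℤ)) (σ : Finset V) : ℤ :=
  (L.map fun p => if p.1 = σ then p.2 else 0).sum

lemma D_eq_sum (u : Finset V → K) (τ : Finset V) (e : ℤ) :
    (e : K) * D u τ = ∑ σ : Finset V, u σ *
      ((∑ t ∈ σ, if σ.erase t = τ then e * sgn ℤ τ t else 0 : ℤ) : K) := by
  have h1 : ∀ σ : Finset V, u σ * ((∑ t ∈ σ, if σ.erase t = τ then e * sgn ℤ τ t else 0 : ℤ) : K)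
      = ∑ t : V, if t ∉ τ ∧ σ = insert t τ then (e : K) * sgn K τ t * u σ else 0 := by
    intro σ
    rw [← Finset.sum_subset (subset_univ σ) (by
      intro t _ ht
      rw [if_neg]
      rintro ⟨_, h⟩
      exact ht (h ▸ mem_insert_self _ _))]
    push_cast
    rw [Finset.mul_sum]
    refine Finset.sum_congr rfl fun t ht => ?_
    by_cases h : σ.erase t = τ
    · rw [if_pos h, if_pos ⟨h ▸ notMem_erase _ _, by rw [← h, insert_erase ht]⟩, sgn_cast]; ring
    · rw [if_neg h, if_neg, mul_zero]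
      rintro ⟨a, b⟩
      exact h (by rw [b, erase_insert a])
  rw [Finset.sum_congr rfl fun σ _ => h1 σ, Finset.sum_comm]
  unfold D bd
  rw [Finset.mul_sum, ← Finset.sum_subset (subset_univ (univ \ τ)) (by
    intro t _ ht
    have : t ∈ τ := by simpa using ht
    simp [this])]
  refine Finset.sum_congr rfl fun t ht => ?_
  have : t ∉ τ := by simpa using ht
  simp [this, mul_assoc]

lemma not_van_cert {F : Finset V → Prop} {d : ℤ} (L : List (Finset V × ℤ)) (τ : Finset V)
    (hF : F τ) (hd : (τ.card : ℤ) = d) (hmin : ∀ t ∈ τ, ¬ F (τ.erase t)) (hL : ∀ p ∈ L, F p.1)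
    (hw : ∀ p ∈ L, ∀ t, t ∉ p.1 → F (insert t p.1) → (wt L (insert t p.1) : K) = 0)
    (h0 : (ev L τ : K) ≠ 0) : ¬ Van K F d := by
  intro h
  obtain ⟨u, hu, hu2⟩ := h (fun S => if τ = S then 1 else 0) (by
    intro S hS
    by_cases e : τ = S
    · exact e ▸ ⟨hF, hd⟩
    · simp [e] at hS) (by
    intro S hS
    by_contra hc
    obtain ⟨t, ht, h2⟩ := D_ne hc
    have e : τ = insert t S := by by_contra e; simp [e] at h2
    exact hmin t (e ▸ mem_insert_self _ _) (by rw [e, erase_insert ht]; exact hS))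
  have k1 : ∀ M : List (Finset V × ℤ), (∀ p ∈ M, F p.1) →
      (ev M τ : K) = ∑ σ : Finset V, u σ * (wt M σ : K) := by
    intro M
    induction M with
    | nil => intro _; simp [ev, wt]
    | cons p M ih =>
      intro hM
      have a := ih fun q hq => hM q (List.mem_cons_of_mem _ hq)
      have b := D_eq_sum u p.1 p.2
      rw [hu2 _ (hM p List.mem_cons_self)] at b
      unfold ev wt at a ⊢
      simp only [List.map_cons, List.sum_cons, Int.cast_add, mul_add, Finset.sum_add_distrib]
      rw [← a, ← b]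
      by_cases e : p.1 = τ
      · simp [e]
      · simp [e, Ne.symm e]
  apply h0
  rw [k1 L hL]
  refine Finset.sum_eq_zero fun σ _ => ?_
  by_cases e : u σ = 0
  · rw [e, zero_mul]
  by_cases e2 : ∃ p ∈ L, ∃ t ∈ σ, σ.erase t = p.1
  · obtain ⟨p, hp, t, ht, e3⟩ := e2
    have e4 : σ = insert t p.1 := by rw [← e3, insert_erase ht]
    have := hw p hp t (e3 ▸ notMem_erase _ _) (e4 ▸ (hu σ e).1)
    rw [← e4] at this
    rw [this, mul_zero]
  · have : wt L σ = 0 := by
      unfold wt
      refine List.sum_eq_zero fun x hx => ?_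
      obtain ⟨p, hp, rfl⟩ := List.mem_map.1 hx
      exact Finset.sum_eq_zero fun t ht => if_neg fun e3 => e2 ⟨p, hp, t, ht, e3⟩
    rw [this]; simp

lemma van_of_single {F : Finset V → Prop} {d : ℤ}
    (h : ∀ τ, F τ → (τ.card : ℤ) = d → ∃ u : Finset V → K, Supp F (d + 1) u ∧
      ∀ S, F S → D u S = if S = τ then 1 else 0) : Van K F d := by
  classical
  intro c hc _
  choose! u hu using h
  refine ⟨fun σ => ∑ τ : Finset V, c τ * u τ σ, fun σ hσ => ?_, fun S hS => ?_⟩
  · obtain ⟨τ, _, h2⟩ := Finset.exists_ne_zero_of_sum_ne_zero hσ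
    have h3 := hc τ (left_ne_zero_of_mul h2)
    exact (hu τ h3.1 h3.2).1 σ (right_ne_zero_of_mul h2)
  · have : D (fun σ => ∑ τ : Finset V, c τ * u τ σ) S = ∑ τ : Finset V, c τ * D (u τ) S := by
      unfold D bd
      simp only [smul_eq_mul, Finset.mul_sum]
      rw [Finset.sum_comm]
      exact Finset.sum_congr rfl fun _ _ => Finset.sum_congr rfl fun _ _ => by ring
    rw [this, Finset.sum_eq_single S]
    · by_cases e : c S = 0
      · simp [e]
      · rw [(hu S (hc S e).1 (hc S e).2).2 S hS]; simp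
    · intro τ _ hτ
      by_cases e : c τ = 0
      · simp [e]
      · rw [(hu τ (hc τ e).1 (hc τ e).2).2 S hS]; simp [Ne.symm hτ]
    · simp

lemma van_cert {F : Finset V → Prop} {d : ℤ} (m : ℤ) (hm : IsUnit (m : K))
    (L : List (Finset V × List (Finset V × ℤ)))
    (hall : ∀ S, F S → (S.card : ℤ) = d → ∃ q ∈ L, q.1 = S)
    (hs : ∀ q ∈ L, ∀ p ∈ q.2, F p.1 ∧ (p.1.card : ℤ) = d + 1)
    (hc : ∀ q ∈ L, ∀ q' ∈ L, ∑ t ∈ univ \ q'.1, sgn ℤ q'.1 t * ev q.2 (insert t q'.1) =
      if q'.1 = q.1 then m else 0) : Van K F d := by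
  obtain ⟨m', hm'⟩ := hm.exists_left_inv
  refine van_of_single fun τ h1 h2 => ?_
  obtain ⟨q, hq, rfl⟩ := hall τ h1 h2
  have hsupp : Supp F (d + 1) (fun σ => m' * (ev q.2 σ : K)) := by
    intro σ hσ
    by_contra hn
    apply hσ
    have : ev q.2 σ = 0 := by
      unfold ev
      refine List.sum_eq_zero fun x hx => ?_
      obtain ⟨p, hp, rfl⟩ := List.mem_map.1 hx
      exact if_neg fun e : p.1 = σ => hn (e ▸ hs q hq p hp)
    simp [this]
  refine ⟨_, hsupp, fun S hS => ?_⟩
  by_cases e : (S.card : ℤ) = d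
  · obtain ⟨q', hq', rfl⟩ := hall S hS e
    have := congrArg (fun z : ℤ => m' * (z : K)) (hc q hq q' hq')
    simp only [Int.cast_sum, Int.cast_mul, sgn_cast, Finset.mul_sum] at this
    unfold D bd
    rw [show (if q'.1 = q.1 then (1 : K) else 0) = m' * ((if q'.1 = q.1 then m else 0 : ℤ) : K) by
      split_ifs <;> simp [hm'], ← this]
    exact Finset.sum_congr rfl fun _ _ => by simp only [smul_eq_mul]; ring
  · rw [if_neg (fun e2 => e (by rw [e2]; exact h2))]
    by_contra hn
    obtain ⟨t, ht, h3⟩ := D_ne hn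
    have := (hsupp _ h3).2
    rw [card_insert_of_notMem ht] at this
    push_cast at this
    omega

variable (K) in
/-- Bound for the regularity of the induced subgraph on `W`. -/
def PW (G : SimpleGraph V) (W : Finset V) (l : ℤ) : Prop :=
  ∀ W' ⊆ W, ∀ d : ℤ, l < W'.card - d → Van K (N1 G W') d

variable {G : SimpleGraph V}

lemma PW.mono {W W' : Finset V} {l : ℤ} (h : PW K G W l) (hW : W' ⊆ W) : PW K G W' l :=
  fun X hX => h X (hX.trans hW)

lemma PW_empty {l : ℤ} (hl : 0 ≤ l) : PW K G ∅ l := by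
  intro W hW d hd
  rw [subset_empty.1 hW] at hd ⊢
  exact van_of_no fun S _ => by simp only [card_empty] at hd; omega

lemma van_iso {W : Finset V} {x : V} (hx : x ∈ W) (h : ∀ y ∈ W, ¬ G.Adj x y) (d : ℤ) :
    Van K (N1 G W) d := by
  refine van_cone x (fun S hS => ?_) d
  unfold N1
  rw [insert_subset_iff]
  constructor
  · rintro ⟨a, b⟩
    refine ⟨a.2, fun u v k1 k2 k3 k4 huv => ?_⟩
    by_cases e1 : u = x
    · exact h v k3 (e1 ▸ huv)
    by_cases e2 : v = x
    · exact h u k1 (e2 ▸ huv.symm)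
    exact b u v k1 (by simp [e1, k2]) k3 (by simp [e2, k4]) huv
  · rintro ⟨a, b⟩
    exact ⟨⟨hx, a⟩, fun u v k1 k2 k3 k4 => b u v k1 (fun e => k2 (mem_insert_of_mem e)) k3
      (fun e => k4 (mem_insert_of_mem e))⟩

lemma PW_iso {W : Finset V} {l : ℤ} (x : V) (h : ∀ y ∈ W, ¬ G.Adj x y)
    (h1 : PW K G (W.erase x) l) : PW K G W l := by
  intro W' hW d hd
  by_cases hx : x ∈ W'
  · exact van_iso hx (fun y hy => h y (hW hy)) d
  · exact h1 W' (subset_erase.2 ⟨hW, hx⟩) d hd

lemma PW_step [DecidableRel G.Adj] {W : Finset V} {l : ℤ} (x : V)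
    (h2 : PW K G ((W.erase x).filter (fun y => ¬ G.Adj x y)) l)
    (h1 : PW K G (W.erase x) (l + 1)) : PW K G W (l + 1) := by
  intro W' hW d hd
  by_cases hx : x ∈ W'
  · have a := card_link (G := G) hx
    have b := card_erase_add_one hx
    exact van_N1_step hx (h1 _ (erase_subset_erase _ hW) _ (by omega))
      (h2 _ (filter_subset_filter _ (erase_subset_erase _ hW)) _ (by omega))
  · exact h1 W' (subset_erase.2 ⟨hW, hx⟩) d hd

lemma PW_top {W : Finset V} {l : ℤ} (hl : 0 ≤ l) (h1 : ∀ x ∈ W, PW K G (W.erase x) l)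
    (h2 : Van K (N1 G W) (W.card - l - 1)) : PW K G W l := by
  classical
  intro W' hW d hd
  by_cases e : W' = W
  · subst e
    by_cases e2 : d = W'.card - l - 1
    · exact e2 ▸ h2
    rcases W'.eq_empty_or_nonempty with h0 | ⟨x, hx⟩
    · exact PW_empty hl W' (h0 ▸ Subset.refl _) d hd
    have a := card_link (G := G) hx
    have b := card_erase_add_one hx
    exact van_N1_step hx (h1 x hx _ (Subset.refl _) _ (by omega))
      (h1 x hx _ (filter_subset _ _) _ (by omega))
  · obtain ⟨x, hx, hx2⟩ := exists_of_ssubset (hW.ssubset_of_ne e)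
    exact h1 x hx W' (subset_erase.2 ⟨hW, hx2⟩) d hd

/-- A search for a vertex decomposition. -/
def chk (adj : V → V → Bool) : ℕ → List V → ℕ → Bool
  | 0, W, _ => W.isEmpty
  | f + 1, W, l => W.isEmpty || W.any fun x =>
      (W.all (fun y => !adj x y) && chk adj f (W.filter (· ≠ x)) l) ||
      (l != 0 && chk adj f (W.filter fun y => y ≠ x ∧ !adj x y) (l - 1) &&
        chk adj f (W.filter (· ≠ x)) l)

lemma PW_of_chk (adj : V → V → Bool) (ha : ∀ a b, G.Adj a b ↔ adj a b = true) :
    ∀ (f : ℕ) (W : List V) (l : ℕ), chk adj f W l = true → PW K G W.toFinset l := by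
  classical
  intro f
  induction f with
  | zero =>
    intro W l h
    have : W = [] := by simpa [chk] using h
    subst this
    exact PW_empty (by omega)
  | succ f ih =>
    intro W l h
    have e1 : ∀ x, (W.filter (· ≠ x)).toFinset = W.toFinset.erase x := by
      intro x; ext y; simp [and_comm]
    simp only [chk, Bool.or_eq_true, List.any_eq_true, Bool.and_eq_true] at h
    rcases h with h | ⟨x, _, ⟨a, b⟩ | ⟨⟨a, b⟩, c⟩⟩
    · have : W = [] := by simpa using h
      subst this
      exact PW_empty (by omega)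
    · refine PW_iso x (fun y hy => ?_) (e1 x ▸ ih _ _ b)
      rw [ha]
      have := List.all_eq_true.1 a y (List.mem_toFinset.1 hy)
      simpa using this
    · obtain ⟨l', rfl⟩ : ∃ l', l = l' + 1 := ⟨l - 1, by simp at a; omega⟩
      push_cast
      refine PW_step x ?_ (e1 x ▸ ih _ _ c)
      have := ih _ _ b
      rw [show l' + 1 - 1 = l' from rfl] at this
      refine this.mono fun y hy => ?_
      simp only [mem_filter, mem_erase, List.mem_toFinset, ha] at hy
      simp [hy.1.1, hy.1.2, hy.2]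

instance decN1 [DecidableRel G.Adj] (W τ : Finset V) : Decidable (N1 G W τ) :=
  decidable_of_iff (τ ⊆ W ∧ ∀ u ∈ W \ τ, ∀ v ∈ W \ τ, ¬ G.Adj u v) (by
    unfold N1
    simp only [mem_sdiff, and_imp]
    exact and_congr_right fun _ => ⟨fun h u v a b c d => h u a b v c d,
      fun h u a b v c d => h u v a b c d⟩)

end cert

/-- The set with a given bit mask. -/
def ms (n m : ℕ) : Finset (Fin n) := univ.filter fun i => m.testBit i

end Pool.Agent.H538Z
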