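import Mathlib
import Pool.Agent.H538Z.Cert

/-!
A graph on 23 vertices: the join of (flag projective plane complement plus an edge) with two
pentagons.
-/

set_option autoImplicit false

namespace Pool.Agent.H538Z.CharEx

open Finset Pool.Agent.H538Z

def rows : List ℕ := [8382028, 8382104, 8381617, 8381731, 8381766, 8380812, 8381201, 8380966, 8380536, 8380611, 8380447, 8384512, 8382464, 155647, 49151, 90111, 172031, 81919, 4726783, 1318911, 2629631, 5251071, 2367487]

def adj (a b : Fin 23) : Bool := (rows.getD a 0).testBit b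

def G : SimpleGraph (Fin 23) where
  Adj a b := adj a b = true
  symm := ⟨by decide +kernel⟩
  loopless := ⟨by decide +kernel⟩

instance : DecidableRel G.Adj := fun a b => inferInstanceAs (Decidable (adj a b = true))

def cv (L : List (ℕ × ℤ)) : List (Finset (Fin 23) × ℤ) := L.map fun p => (ms 23 p.1, p.2)

def LA : List (ℕ × ℤ) := [(7028736, 1), (5980160, 1), (5718016, 1), (3620864, 1), (3096576, 1), (6995968, 1), (5947392, 1), (5685248, 1), (3588096, 1), (3063808, 1), (6987776, 1), (5939200, 1), (5677056, 1), (3579904, 1), (3055616, 1), (6922240, 1), (5873664, 1), (5611520, 1), (3514368, 1), (2990080, 1), (6905856, 1), (5857280, 1), (5595136, 1), (3497984, 1), (2973696, 1)]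

def LB : List (ℕ × ℤ) := [(6815744, 1), (5767168, 1), (5505024, 1), (3407872, 1), (2883584, 1)]

def LC : List (ℕ × ℤ) := [(2012, 1), (1788, 1), (1998, 1), (1902, 1), (1662, 1), (1977, 1), (1785, 1), (1949, 1), (1971, 1), (1523, 1), (1275, 1), (1895, 1), (1511, 1), (1847, 1), (1487, 1), (927, 1), (479, 1), (831, 1), (639, 1), (255, 1)]

def LD : List (ℕ × List (ℕ × ℤ)) := [(2012, [(2044, -1), (1790, 1), (1663, -1), (895, -1), (959, 1), (1951, 1), (2013, 1)]), (1788, [(2044, 1), (2013, 1), (1951, 1), (959, 1), (895, -1), (1663, -1), (1790, 1)]), (1998, [(2030, -1), (1918, 1), (1663, -1), (767, -1), (511, 1), (1503, 1), (1999, 1)]), (1902, [(2030, -1), (1999, -1), (1503, -1), (511, -1), (767, 1), (1663, 1), (1918, -1)]), (1662, [(1918, 1), (2030, -1), (1999, -1), (1503, -1), (511, -1), (767, 1), (1663, 1)]), (1977, [(2041, 1), (1787, 1), (1279, 1), (511, -1), (991, -1), (1951, -1), (1981, -1)]), (1785, [(2041, 1), (1981, 1), (1951, 1), (991, 1), (511, 1), (1279, -1), (1787, -1)]), (1949,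 [(2013, 1), (2044, 1), (1790, -1), (1663, 1), (895, 1), (959, -1), (1951, -1)]), (1971, [(2035, 1), (1531, 1), (1279, 1), (767, -1), (895, 1), (1855, -1), (1975, 1)]), (1523, [(2035, -1), (1975, 1), (1855, -1), (895, 1), (767, -1), (1279, 1), (1531, 1)]), (1275, [(1787, -1), (2041, -1), (1981, -1), (1951, -1), (991, -1), (511, -1), (1279, 1)]), (1895, [(2023, -1), (1519, 1), (1503, -1), (991, 1), (959, -1), (1855, 1), (1911, -1)]), (1511, [(2023, -1), (1911, 1), (1855, -1), (959, 1), (991, -1), (1503, 1), (1519, -1)]), (1847, [(1975, -1), (2035, 1), (1531, 1), (1279, 1), (767, -1), (895, 1), (1855, -1)]), (1487, [(1999, -1), (2030, -1), (1918, 1), (1663, -1), (767, -1), (511, 1), (1503, 1)]), (927, [(1951, 1), (2013, 1), (2044, 1), (1790, -1), (1663, 1), (895, 1), (959, -1)]), (479, [(1503, 1), (1999, 1), (2030, 1), (1918, -1), (1663, 1), (767, 1), (511, -1)]), (831, [(1855, 1), (1975, -1), (2035, 1), (1531, 1), (1279, 1), (767, -1), (895, 1)]), (639, [(1663, 1), (1918, -1), (2030, 1),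 (1999, 1), (1503, 1), (511, 1), (767, -1)]), (255, [(1279, 1), (1787, 1), (2041, 1), (1981, 1), (1951, 1), (991, 1), (511, 1)])]

def LD' : List (Finset (Fin 23) × List (Finset (Fin 23) × ℤ)) := LD.map fun q => (ms 23 q.1, cv q.2)

lemma hG : ∃ u v, G.Adj u v := ⟨11, 12, by decide +kernel⟩

variable (K : Type) [Field K]

lemma H1_four : H1 K G 4 := fun W d hd =>
  PW_of_chk (K := K) (G := G) adj (fun _ _ => Iff.rfl) 23 (List.finRange 23) 4 (by decide +kernel)
    W (fun x _ => by simp) d hd

lemma not_H1_three : ¬ H1 K G 3 := by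
  intro h
  have c : (ms 23 8380416).card = 10 := by decide +kernel
  refine not_van_cert (cv LA) (ms 23 7028736) (by decide +kernel) (d := 6) (by decide +kernel)
    (by decide +kernel) (by decide +kernel) ?_ ?_ (h (ms 23 8380416) 6 (by rw [c]; norm_num))
  · have : ∀ p ∈ cv LA, ∀ t, t ∉ p.1 → N1 G (ms 23 8380416) (insert t p.1) →
        wt (cv LA) (insert t p.1) = 0 := by decide +kernel
    intro p hp t ht h2
    rw [this p hp t ht h2]; simp
  · have : ev (cv LA) (ms 23 7028736) = 1 := by decide +kernel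
    rw [this]; simp

lemma not_H2_one : ¬ H2 K G 1 := by
  intro h
  have c : (ms 23 8126464).card = 5 := by decide +kernel
  refine not_van_cert (cv LB) (ms 23 6815744) (by decide +kernel) (d := 3) (by decide +kernel)
    (by decide +kernel) (by decide +kernel) ?_ ?_ (h 13 14 (by decide +kernel) (ms 23 8126464)
      (by decide +kernel) 3 (by rw [c]; norm_num))
  · have : ∀ p ∈ cv LB, ∀ t, t ∉ p.1 → N1 G (ms 23 8126464) (insert t p.1) →
        wt (cv LB) (insert t p.1) = 0 := by decide +kernel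
    intro p hp t ht h2
    rw [this p hp t ht h2]; simp
  · have : ev (cv LB) (ms 23 6815744) = 1 := by decide +kernel
    rw [this]; simp

lemma not_H2_two [CharP K 2] : ¬ H2 K G 2 := by
  intro h
  have c : (ms 23 2047).card = 11 := by decide +kernel
  refine not_van_cert (cv LC) (ms 23 2012) (by decide +kernel) (d := 8) (by decide +kernel)
    (by decide +kernel) (by decide +kernel) ?_ ?_ (h 11 12 (by decide +kernel) (ms 23 2047)
      (by decide +kernel) 8 (by rw [c]; norm_num))
  · have : ∀ p ∈ cv LC, ∀ t, t ∉ p.1 → N1 G (ms 23 2047) (insert t p.1) →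
        (2 : ℤ) ∣ wt (cv LC) (insert t p.1) := by decide +kernel
    intro p hp t ht h2
    exact (CharP.intCast_eq_zero_iff K 2 _).2 (this p hp t ht h2)
  · have : ev (cv LC) (ms 23 2012) = 1 := by decide +kernel
    rw [this]; simp

lemma PW_R (h2 : (2 : K) ≠ 0) : PW K G (ms 23 2047) 2 := by
  have c : (ms 23 2047).card = 11 := by decide +kernel
  refine PW_top (by norm_num) (fun x hx => ?_) ?_
  · have : ∀ x ∈ ms 23 2047, chk adj 11
        ((List.finRange 23).filter fun y => y ∈ (ms 23 2047).erase x) 2 = true := by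
      decide +kernel
    refine (PW_of_chk (K := K) (G := G) adj (fun _ _ => Iff.rfl) _ _ 2 (this x hx)).mono ?_
    intro y hy
    simpa using hy
  · refine van_cert 2 (by simpa using h2) LD' ?_ ?_ (by decide +kernel)
    · have : ∀ a b : Fin 23, a.val < 11 → b.val < 11 → a ≠ b → ¬ G.Adj a b → ∀ c : Fin 23,
          c.val < 11 → a ≠ c → b ≠ c → ¬ G.Adj a c → ¬ G.Adj b c →
          ∃ q ∈ LD', q.1 = ms 23 2047 \ {a, b, c} := by
        decide +kernel
      have hm : ∀ a ∈ ms 23 2047, a.val < 11 := by decide +kernel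
      intro S hS hc
      obtain ⟨h1, h3⟩ := hS
      have h4 := card_sdiff_add_card_eq_card h1
      obtain ⟨a, b, e, ab, ae, be, h5⟩ := card_eq_three.1
        (show (ms 23 2047 \ S).card = 3 by omega)
      have ha := mem_sdiff.1 (show a ∈ ms 23 2047 \ S by simp [h5])
      have hb := mem_sdiff.1 (show b ∈ ms 23 2047 \ S by simp [h5])
      have he := mem_sdiff.1 (show e ∈ ms 23 2047 \ S by simp [h5])
      obtain ⟨q, hq, h6⟩ := this a b (hm a ha.1) (hm b hb.1) ab (h3 a b ha.1 ha.2 hb.1 hb.2) e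
        (hm e he.1) ae be (h3 a e ha.1 ha.2 he.1 he.2) (h3 b e hb.1 hb.2 he.1 he.2)
      exact ⟨q, hq, by rw [h6, ← h5, Finset.sdiff_sdiff_eq_self h1]⟩
    · have : ∀ q ∈ LD', ∀ p ∈ q.2, N1 G (ms 23 2047) p.1 ∧ p.1.card = 9 := by decide +kernel
      intro q hq p hp
      have := this q hq p hp
      exact ⟨this.1, by omega⟩

lemma H2_two (h2 : (2 : K) ≠ 0) : H2 K G 2 := by
  have : ∀ u v : Fin 23, G.Adj u v → chk adj 23
      ((List.finRange 23).filter fun w => ¬ G.Adj u w ∧ ¬ G.Adj v w) 2 = true ∨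
      ∀ w, ¬ G.Adj u w ∧ ¬ G.Adj v w → w ∈ ms 23 2047 := by decide +kernel
  intro u v huv W hW d hd
  rcases this u v huv with h | h
  · exact PW_of_chk (K := K) (G := G) adj (fun _ _ => Iff.rfl) _ _ 2 h W
      (fun x hx => by simpa using hW x hx) d hd
  · exact PW_R K h2 W (fun x hx => h x (hW x hx)) d hd

lemma L1_eq : L1 K G = 4 := by
  have a := (H1_iff _).1 (H1_four K)
  have b := mt (H1_iff _).2 (not_H1_three K)
  omega

lemma L2_eq_three [CharP K 2] : L2 K G = 3 := by
  have a := L2_lt (K := K) hG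
  have b := mt (H2_iff hG _).2 (not_H2_two K)
  rw [L1_eq] at a
  omega

lemma L2_eq_two (h2 : (2 : K) ≠ 0) : L2 K G = 2 := by
  have a := (H2_iff hG _).1 (H2_two K h2)
  have b := mt (H2_iff hG _).2 (not_H2_one K)
  omega

end Pool.Agent.H538Z.CharEx
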